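import Pool.Agent.Lib.MP_305fdd_al.Fr.N.A.Stm

/-!
# MP_305fdd_al (`F_r`), nilpotence block: piece A6
-/

set_option autoImplicit false

namespace Pool.Agent.FrNA

open Module Polynomial Pool.Agent.FrN Pool.Agent.F2Ch

theorem p_A6 (h1 : S_van) (h2 : S_tw2) (h3 : S_Keq) : S_A6 := by
  intro p _ B _ _ _ X _ d J hJ ys hys
  have hp : 1 ≤ p - 1 := by
    have := (Fact.out : p.Prime).two_le
    omega
  have hpow : ∀ y ∈ J, y ^ (p - 1) ∈ J := by
    intro y hy
    exact J.pow_mem_of_mem hy _ (by omega)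
  -- step 1
  have s1 : ∀ y ∈ J, (X.tw (y ^ (p - 1))).P ∈ Ud (ZMod p) d := by
    intro y hy
    rw [h2 p B X y]
    refine h1 p B X d J hJ _ ?_
    rw [two_mul, pow_add]
    exact Ideal.mul_mem_mul (hpow y hy) (hpow y hy)
  -- step 2
  have s2 : ∀ zs : List B, (∀ z ∈ zs, z ∈ J) → ∀ y ∈ J,
      CMod.KP zs (X.tw (y ^ (p - 1))) ∈ Ud (ZMod p) d := by
    intro zs
    induction zs with
    | nil =>
      intro _ y hy
      exact s1 y hy
    | cons z zs ih =>
      intro hz y hy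
      have hz' : ∀ x ∈ zs, x ∈ J := fun x hx => hz x (List.mem_cons_of_mem _ hx)
      have e1 : CMod.KP zs ((X.tw (y ^ (p - 1))).tw (z ^ (p - 1))) =
          CMod.KP zs (X.tw ((y * z) ^ (p - 1))) := by
        refine h3 p B (X.tw ((y * z) ^ (p - 1))) ((X.tw (y ^ (p - 1))).tw (z ^ (p - 1)))
          (LinearEquiv.refl B X.M) ?_ zs
        intro m
        change X.C (y ^ (p - 1) • z ^ (p - 1) • m) = X.C ((y * z) ^ (p - 1) • m)
        rw [mul_pow, mul_smul]
      have e2 : CMod.KP (z :: zs) (X.tw (y ^ (p - 1))) =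
          CMod.KP zs (X.tw (y ^ (p - 1))) /
            CMod.KP zs ((X.tw (y ^ (p - 1))).tw (z ^ (p - 1))) := rfl
      rw [e2, e1]
      exact Subgroup.div_mem _ (ih hz' y hy) (ih hz' (y * z) (J.mul_mem_right _ hy))
  -- step 3
  induction ys with
  | nil =>
    have e : CMod.KP [] X = X.P := rfl
    rw [e, div_self']
    exact Subgroup.one_mem _
  | cons y ys ih =>
    have hys' : ∀ x ∈ ys, x ∈ J := fun x hx => hys x (List.mem_cons_of_mem _ hx)
    have e : CMod.KP (y :: ys) X = CMod.KP ys X / CMod.KP ys (X.tw (y ^ (p - 1))) := rfl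
    have e' : X.P / CMod.KP (y :: ys) X =
        (X.P / CMod.KP ys X) * CMod.KP ys (X.tw (y ^ (p - 1))) := by
      rw [e, div_div_eq_mul_div, div_mul_eq_mul_div]
    rw [e']
    exact Subgroup.mul_mem _ (ih hys') (s2 ys hys' y (hys y List.mem_cons_self))

end Pool.Agent.FrNA
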