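import Pool.Agent.Lib.MP_305fdd_al.Fr.N.A.Stm

/-!
# MP_305fdd_al (`F_r`), nilpotence block, section A: the statement `S_Keq`
-/

set_option autoImplicit false

namespace Pool.Agent.FrNA

open Module Polynomial Pool.Agent.FrN

theorem Keq_nil {p : ℕ} [Fact p.Prime] {B : Type} [CommRing B] [Algebra (ZMod p) B]
    {X X' : CMod p B} (e : X.M ≃ₗ[B] X'.M) (he : ∀ m, X'.C (e m) = e (X.C m)) :
    CMod.P X' = CMod.P X := by
  have key : ∀ {Y Y' : CMod p B} (f : Y.M ≃ₗ[B] Y'.M), (∀ m, Y'.C (f m) = f (Y.C m)) →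
      ∀ W, Nuc Y.C ⊤ W → PP Y'.C ⊤ = PP Y.C ⊤ := by
    intro Y Y' f hf W hW
    have hA : Abs Y.C W := nuc_top.1 hW
    have h1 : Y'.C ∘ₗ ((f.restrictScalars (ZMod p) : Y.M ≃ₗ[ZMod p] Y'.M) : Y.M →ₗ[ZMod p] Y'.M) =
        ((f.restrictScalars (ZMod p) : Y.M ≃ₗ[ZMod p] Y'.M) : Y.M →ₗ[ZMod p] Y'.M) ∘ₗ Y.C :=
      LinearMap.ext fun m => hf m
    have hA' : Abs Y'.C (W.map ((f.restrictScalars (ZMod p) : Y.M ≃ₗ[ZMod p] Y'.M) :
        Y.M →ₗ[ZMod p] Y'.M)) :=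
      hA.map h1 fun v => ⟨0, f.surjective v⟩
    rw [PP_top hA, PP_top hA']
    exact absP_equiv (f.restrictScalars (ZMod p)) hA h1
  have hPP : PP X'.C ⊤ = PP X.C ⊤ := by
    by_cases hX : ∃ W, Nuc X.C ⊤ W
    · obtain ⟨W, hW⟩ := hX
      exact key e he W hW
    by_cases hX' : ∃ W, Nuc X'.C ⊤ W
    · obtain ⟨W, hW⟩ := hX'
      refine (key e.symm (fun m => ?_) W hW).symm
      apply e.injective
      rw [← he, e.apply_symm_apply, e.apply_symm_apply]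
    · rw [PP_none hX, PP_none hX']
  apply Units.ext
  rw [CMod.P, CMod.P, coe_PV, coe_PV, hPP]

/-- The statement `S_Keq`. -/
theorem p_Keq : S_Keq := by
  intro p _ B _ _ X X' e he ys
  induction ys generalizing X X' with
  | nil => exact Keq_nil e he
  | cons y ys ih =>
    show CMod.KP ys X' / CMod.KP ys (X'.tw (y ^ (p - 1))) =
      CMod.KP ys X / CMod.KP ys (X.tw (y ^ (p - 1)))
    have h1 : ∀ m : X.M, X'.C (y ^ (p - 1) • e m) = e (X.C (y ^ (p - 1) • m)) := fun m => by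
      rw [← he, LinearEquiv.map_smul]
    rw [ih X X' e he, ih (X.tw (y ^ (p - 1))) (X'.tw (y ^ (p - 1))) e h1]

end Pool.Agent.FrNA
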