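import Pool.Agent.Lib.MP_305fdd_al.Fr.N.A.Stm

/-!
# MP_305fdd_al (`F_r`), nilpotence block, section A: `KP` is multiplicative in exact sequences
-/

set_option autoImplicit false

namespace Pool.Agent.FrNA

open Module Polynomial Pool.Agent.FrN Pool.Agent.F2Ch

/-- a twist of an exact sequence is exact -/
theorem Ex.tw {p : ℕ} {B : Type} [CommRing B] [Algebra (ZMod p) B] {X' X X'' : CMod p B}
    {i : X'.M →ₗ[B] X.M} {q : X.M →ₗ[B] X''.M} (h : Ex X' X X'' i q) (g : B) :
    Ex (X'.tw g) (X.tw g) (X''.tw g) i q where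
  inj := h.inj
  surj := h.surj
  ex := h.ex
  eqi := by
    have h1 : ∀ m : X'.M, X.C (g • i m) = i (X'.C (g • m)) := fun m => by
      rw [← map_smul, h.eqi]
    exact h1
  eqq := by
    have h1 : ∀ m : X.M, X''.C (g • q m) = q (X.C (g • m)) := fun m => by
      rw [← map_smul, h.eqq]
    exact h1

theorem p_Kex (h1 : I_nuc) : S_Kex := by
  intro p _ B _ _ _ X' X X'' _ i q hE ys
  induction ys generalizing X' X X'' with
  | nil =>
    refine (p_ex (ZMod p) X'.M X.M X''.M X'.C X.C X''.C (i.restrictScalars (ZMod p))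
      (q.restrictScalars (ZMod p)) hE.inj hE.surj ?_ (fun v => (hE.eqi v).symm)
      (fun v => (hE.eqq v).symm) (h1 p B X)).2.2
    ext m
    exact (hE.ex m).symm
  | cons y ys ih =>
    have hf : Module.Finite B (X.tw (y ^ (p - 1))).M := inferInstanceAs (Module.Finite B X.M)
    have h2 := ih X' X X'' i q hE
    have h3 := ih (X'.tw (y ^ (p - 1))) (X.tw (y ^ (p - 1))) (X''.tw (y ^ (p - 1))) i q (hE.tw _)
    rw [CMod.KP, CMod.KP, CMod.KP, h2, h3, mul_div_mul_comm]

end Pool.Agent.FrNA
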