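import Pool.Agent.Lib.MP_305fdd_al.Fr.N.A.Stm

/-!
# MP_305fdd_al (`F_r`), nilpotence block, section A: the statement `S_Kone`
-/

set_option autoImplicit false

namespace Pool.Agent.FrNA

open Module Polynomial Pool.Agent.FrN

theorem Kone_zero {p : ℕ} [Fact p.Prime] {B : Type} [CommRing B] [Algebra (ZMod p) B]
    (X : CMod p B) (h : ∀ m : X.M, ∃ n : ℕ, (X.C ^ n) m = 0) : CMod.P X = 1 := by
  have hPP : PP X.C ⊤ = 1 := by
    rw [PP_top (abs_bot h), absP_elnil h]
  apply Units.ext
  rw [CMod.P, coe_PV, hPP, Units.val_one, Polynomial.coe_one]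

/-- The statement `S_Kone`. -/
theorem p_Kone (h1 : S_Kstep) : S_Kone := by
  intro p _ B _ _ _ ys
  have hN : IsNoetherianRing B := Algebra.FiniteType.isNoetherianRing (ZMod p) B
  induction ys with
  | nil =>
    rintro X _ ⟨a, ha, hm⟩
    have h0 : {y : B | y ∈ ([] : List B)} = ∅ := by ext; simp
    rw [h0, Ideal.span_empty, Ideal.mem_bot] at ha
    subst ha
    refine Kone_zero X fun m => ⟨0, ?_⟩
    rw [pow_zero, Module.End.one_apply, ← hm m, zero_smul]
  | cons y ys ih =>
    rintro X _ ⟨a, ha, hm⟩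
    have h0 : {z : B | z ∈ y :: ys} = insert y {z | z ∈ ys} := by ext; simp
    rw [h0, Ideal.mem_span_insert] at ha
    obtain ⟨c, a', ha', rfl⟩ := ha
    have f1 : Module.Finite B (X.kr y).M :=
      inferInstanceAs (Module.Finite B ↥(LinearMap.ker (LinearMap.lsmul B X.M y)))
    have f2 : Module.Finite B (X.qt y).M :=
      inferInstanceAs (Module.Finite B (X.M ⧸ LinearMap.range (LinearMap.lsmul B X.M y)))
    rw [h1 p B X y ys, ih (X.kr y) ⟨a', ha', ?_⟩, ih (X.qt y) ⟨a', ha', ?_⟩, div_one]
    · intro m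
      obtain ⟨m, rfl⟩ := Submodule.mkQ_surjective _ m
      have h3 : a' • m - m ∈ LinearMap.range (LinearMap.lsmul B X.M y) := by
        refine ⟨-(c • m), ?_⟩
        rw [LinearMap.lsmul_apply]
        have h4 := hm m
        rw [add_smul, mul_smul] at h4
        rw [smul_neg, ← smul_comm c y m]
        nth_rewrite 3 [← h4]
        abel
      exact (Submodule.Quotient.eq _).2 h3
    · intro m
      have hy : y • m.1 = 0 := m.2
      apply Subtype.ext
      show a' • m.1 = m.1
      conv_rhs => rw [← hm m.1]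
      rw [add_smul, mul_smul, hy, smul_zero, zero_add]

end Pool.Agent.FrNA
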