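import Pool.Agent.Lib.MP_305fdd_al.Fr.N.A.Stm

/-!
# MP_305fdd_al (`F_r`), nilpotence block, section A: the Koszul step
-/

set_option autoImplicit false

namespace Pool.Agent.FrNA

open Module Polynomial Pool.Agent.FrN Pool.Agent.F2Ch

namespace Kst

variable {p : ℕ} {B : Type} [CommRing B] [Algebra (ZMod p) B]

theorem C_pow [Fact p.Prime] (X : CMod p B) (y : B) (m : X.M) :
    X.C (y ^ (p - 1) • y • m) = y • X.C m := by
  have hp := (Fact.out : p.Prime).one_le
  rw [← X.hC, ← mul_smul, ← pow_succ, Nat.sub_add_cancel hp]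

/-- the image of the multiplication by `y`, with the operator `m ↦ C (y ^ (p - 1) m)` -/
def im [Fact p.Prime] (X : CMod p B) (y : B) : CMod p B where
  M := ↥(LinearMap.range (LinearMap.lsmul B X.M y))
  C :=
    { toFun := fun m => ⟨X.C (y ^ (p - 1) • m.1), by
        obtain ⟨c, hc⟩ := m.2
        refine ⟨X.C c, ?_⟩
        rw [LinearMap.lsmul_apply] at hc ⊢
        rw [← hc, C_pow]⟩
      map_add' := fun m m' => Subtype.ext
        (show X.C (y ^ (p - 1) • (m.1 + m'.1)) = X.C (y ^ (p - 1) • m.1) +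
          X.C (y ^ (p - 1) • m'.1) by rw [smul_add, map_add])
      map_smul' := fun c m => Subtype.ext
        (show X.C (y ^ (p - 1) • (c • m.1)) = c • X.C (y ^ (p - 1) • m.1) by
          rw [← map_smul, smul_comm]) }
  hC b m := Subtype.ext
    (show X.C (y ^ (p - 1) • (b ^ p • m.1)) = b • X.C (y ^ (p - 1) • m.1) by
      rw [smul_comm, X.hC])

theorem ex1 [Fact p.Prime] (X : CMod p B) (y : B) :
    Ex (X.kr y) X (im X y) (X.incl y) ((LinearMap.lsmul B X.M y).rangeRestrict) where
  inj := Subtype.val_injective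
  surj := (LinearMap.lsmul B X.M y).surjective_rangeRestrict
  ex m := by
    constructor
    · intro h
      have h1 : y • m = 0 := congrArg Subtype.val h
      exact ⟨⟨m, h1⟩, rfl⟩
    · rintro ⟨⟨x, hx⟩, rfl⟩
      have h1 : y • x = 0 := hx
      exact Subtype.ext h1
  eqi m := rfl
  eqq m := Subtype.ext (C_pow X y m)

/-- the inclusion of the image -/
def imi [Fact p.Prime] (X : CMod p B) (y : B) : (im X y).M →ₗ[B] X.M :=
  (LinearMap.range (LinearMap.lsmul B X.M y)).subtype

theorem ex2 [Fact p.Prime] (X : CMod p B) (y : B) :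
    Ex (im X y) (X.tw (y ^ (p - 1))) (X.qt y) (imi X y) (X.proj y) where
  inj := Subtype.val_injective
  surj := by
    have h : Function.Surjective (X.proj y) := Submodule.mkQ_surjective _
    exact h
  ex := by
    have h1 : ∀ m : X.M, X.proj y m = 0 ↔ ∃ x, imi X y x = m := fun m => by
      constructor
      · intro h
        have h2 : m ∈ LinearMap.range (LinearMap.lsmul B X.M y) :=
          (Submodule.Quotient.mk_eq_zero _).1 h
        exact ⟨⟨m, h2⟩, rfl⟩
      · rintro ⟨x, rfl⟩
        exact (Submodule.Quotient.mk_eq_zero _).2 x.2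
    exact h1
  eqi m := rfl
  eqq m := rfl

end Kst

theorem p_Kstep (h1 : S_Kex) : S_Kstep := by
  intro p _ B _ _ _ X _ y ys
  have hf : Module.Finite B (X.tw (y ^ (p - 1))).M := inferInstanceAs (Module.Finite B X.M)
  have h2 := h1 p B _ _ _ _ _ (Kst.ex1 X y) ys
  have h3 := h1 p B _ _ _ _ _ (Kst.ex2 X y) ys
  rw [CMod.KP, h2, h3, mul_comm (CMod.KP ys (Kst.im X y)), mul_div_mul_right_eq_div]

end Pool.Agent.FrNA
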