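import Pool.Agent.Lib.MP_305fdd_al.Fr.N.A.Stm

/-!
# MP_305fdd_al (`F_r`), nilpotence block, section A: the statement `S_Kzero`
-/

set_option autoImplicit false

namespace Pool.Agent.FrNA

open Module Polynomial Pool.Agent.FrN

theorem Kzero_zero {p : ℕ} [Fact p.Prime] {B : Type} [CommRing B] [Algebra (ZMod p) B]
    (X : CMod p B) (h : ∀ m : X.M, ∃ n : ℕ, (X.C ^ n) m = 0) : CMod.P X = 1 := by
  have hPP : PP X.C ⊤ = 1 := by
    rw [PP_top (abs_bot h), absP_elnil h]
  apply Units.ext
  rw [CMod.P, coe_PV, hPP, Units.val_one, Polynomial.coe_one]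

/-- The statement `S_Kzero`. -/
theorem p_Kzero (h1 : S_Kstep) (h2 : S_Keq) : S_Kzero := by
  intro p _ B _ _ _ ys
  have hp := (Fact.out : p.Prime).two_le
  have hN : IsNoetherianRing B := Algebra.FiniteType.isNoetherianRing (ZMod p) B
  induction ys with
  | nil =>
    rintro X _ z ⟨a, ha, hm⟩
    have h0 : {y : B | y ∈ ([] : List B)} = ∅ := by ext; simp
    rw [h0, Ideal.span_empty, Ideal.mem_bot] at ha
    subst ha
    have h3 : z ^ (p - 1) = z ^ (p - 2) * z := by
      rw [← pow_succ]; congr 1; omega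
    have h4 : ∀ m : X.M, X.C (z ^ (p - 1) • m) = 0 := fun m => by
      rw [h3, mul_smul, hm m, zero_smul, smul_zero, map_zero]
    refine Kzero_zero (X.tw (z ^ (p - 1))) fun m => ⟨1, ?_⟩
    rw [pow_one]
    exact h4 m
  | cons y ys ih =>
    rintro X hX z ⟨a, ha, hm⟩
    have h0 : {z : B | z ∈ y :: ys} = insert y {z | z ∈ ys} := by ext; simp
    rw [h0, Ideal.mem_span_insert] at ha
    obtain ⟨c, a', ha', rfl⟩ := ha
    have f1 : Module.Finite B (X.kr y).M :=
      inferInstanceAs (Module.Finite B ↥(LinearMap.ker (LinearMap.lsmul B X.M y)))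
    have f2 : Module.Finite B (X.qt y).M :=
      inferInstanceAs (Module.Finite B (X.M ⧸ LinearMap.range (LinearMap.lsmul B X.M y)))
    have f3 : Module.Finite B (X.tw (z ^ (p - 1))).M := hX
    set g := z ^ (p - 1) with hg
    have e1 : CMod.KP ys ((X.tw g).kr y) = CMod.KP ys ((X.kr y).tw g) :=
      h2 p B ((X.kr y).tw g) ((X.tw g).kr y)
        (LinearEquiv.refl B ↥(LinearMap.ker (LinearMap.lsmul B X.M y))) (fun m => rfl) ys
    have e2 : CMod.KP ys ((X.tw g).qt y) = CMod.KP ys ((X.qt y).tw g) := by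
      refine h2 p B ((X.qt y).tw g) ((X.tw g).qt y)
        (LinearEquiv.refl B (X.M ⧸ LinearMap.range (LinearMap.lsmul B X.M y))) (fun m => ?_) ys
      obtain ⟨m, rfl⟩ := Submodule.mkQ_surjective _ m
      have h3 : X.C (g • y ^ (p - 1) • m) = X.C (y ^ (p - 1) • g • m) := by
        rw [smul_comm]
      exact congrArg (Submodule.mkQ (LinearMap.range (LinearMap.lsmul B X.M y))) h3
    have k1 : CMod.KP ys ((X.kr y).tw g) = 1 := by
      refine ih (X.kr y) z ⟨a', ha', fun m => ?_⟩
      have hy : y • m.1 = 0 := m.2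
      apply Subtype.ext
      show z • m.1 = a' • m.1
      rw [hm m.1, add_smul, mul_smul, hy, smul_zero, zero_add]
    have k2 : CMod.KP ys ((X.qt y).tw g) = 1 := by
      refine ih (X.qt y) z ⟨a', ha', fun m => ?_⟩
      obtain ⟨m, rfl⟩ := Submodule.mkQ_surjective _ m
      have h3 : z • m - a' • m ∈ LinearMap.range (LinearMap.lsmul B X.M y) := by
        refine ⟨c • m, ?_⟩
        rw [LinearMap.lsmul_apply, hm m, add_smul, mul_smul, smul_comm y c m]
        abel
      exact (Submodule.Quotient.eq _).2 h3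
    rw [h1 p B (X.tw g) y ys, e1, e2, k1, k2, div_one]

end Pool.Agent.FrNA
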