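import Pool.Agent.Lib.MP_305fdd_al.Fr.N.A.Stm

set_option autoImplicit false

namespace Pool.Agent.FrNA

open Module Polynomial Pool.Agent.FrN Pool.Agent.F2Ch

/-- one element of `1 + J` kills a finite module without support at `V(J)` -/
private theorem ns_unif {p : ℕ} {B : Type} [CommRing B] [Algebra (ZMod p) B] {J : Ideal B}
    {X : CMod p B} [Module.Finite B X.M] (hX : NS J X) : ∃ b : B, b - 1 ∈ J ∧ ∀ m : X.M, b • m = 0 := by
  classical
  obtain ⟨s, hs⟩ := (Module.Finite.fg_top : (⊤ : Submodule B X.M).FG)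
  choose β hβ1 hβ2 using hX
  refine ⟨∏ m ∈ s, β m, ?_, ?_⟩
  · rw [← Ideal.Quotient.eq, map_prod, map_one]
    refine Finset.prod_eq_one fun m _ => ?_
    have := Ideal.Quotient.eq.2 (hβ1 m)
    rw [this, map_one]
  · intro m
    have hm : m ∈ Submodule.span B (s : Set X.M) := by rw [hs]; trivial
    induction hm using Submodule.span_induction with
    | mem x hx =>
      rw [← Finset.prod_erase_mul s β (Finset.mem_coe.1 hx), mul_smul, hβ2 x, smul_zero]
    | zero => exact smul_zero _
    | add x y _ _ hx hy => rw [smul_add, hx, hy, add_zero]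
    | smul a x _ hx => rw [smul_comm, hx, smul_zero]

theorem p_NS (h1 : S_van) (h2 : S_Keq) : S_NS := by
  intro p _ B _ _ _ X _ d J hJ hX
  obtain ⟨b, hb1, hb2⟩ := ns_unif hX
  have hc : (1 - b) ∈ J := by
    have := J.neg_mem hb1
    rwa [neg_sub] at this
  have hcm : ∀ m : X.M, (1 - b) • m = m := fun m => by rw [sub_smul, one_smul, hb2, sub_zero]
  have key : ∀ (ys : List B) (g : B), CMod.KP ys (X.tw g) ∈ Ud (ZMod p) d := by
    intro ys
    induction ys with
    | nil =>
      intro g
      have hv : (X.tw ((1 - b) * (1 - b) * g)).P ∈ Ud (ZMod p) d :=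
        h1 p B X d J hJ _ (Ideal.mul_mem_right _ _ (Ideal.mul_mem_mul hc hc))
      have he := h2 p B (X.tw g) (X.tw ((1 - b) * (1 - b) * g)) (LinearEquiv.refl B X.M)
        (fun m => by
          show X.C (((1 - b) * (1 - b) * g) • (show X.M from m)) = X.C (g • (show X.M from m))
          rw [mul_smul, mul_smul, hcm, hcm]) []
      have he' : (X.tw ((1 - b) * (1 - b) * g)).P = (X.tw g).P := he
      show (X.tw g).P ∈ Ud (ZMod p) d
      rw [← he']
      exact hv
    | cons y ys ih =>
      intro g
      have he := h2 p B ((X.tw g).tw (y ^ (p - 1))) (X.tw (g * y ^ (p - 1)))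
        (LinearEquiv.refl B X.M)
        (fun m => by
          show X.C ((g * y ^ (p - 1)) • (show X.M from m)) =
            X.C (g • y ^ (p - 1) • (show X.M from m))
          rw [mul_smul]) ys
      show CMod.KP ys (X.tw g) / CMod.KP ys ((X.tw g).tw (y ^ (p - 1))) ∈ Ud (ZMod p) d
      rw [← he]
      exact (Ud (ZMod p) d).div_mem (ih g) (ih _)
  intro ys
  have he := h2 p B X (X.tw 1) (LinearEquiv.refl B X.M)
    (fun m => by
      show X.C ((1 : B) • (show X.M from m)) = X.C (show X.M from m)
      rw [one_smul]) ys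
  rw [← he]
  exact key ys 1

end Pool.Agent.FrNA
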