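import Pool.Agent.Lib.MP_305fdd_al.Fr.N.A.Stm
import Pool.Agent.Lib.MP_305fdd_al.F2.TF.P.b7

set_option autoImplicit false

namespace Pool.Agent.FrNA

open Module Polynomial Pool.Agent.FrN
open Pool.Agent.F2TF (LD)

private theorem p_end_map {R S n : Type} [CommRing R] [CommRing S] [Fintype n] [DecidableEq n]
    (f : R →+* S) (A : Matrix n n R) : (A.map f).charpolyRev = A.charpolyRev.map f := by
  rw [Matrix.charpolyRev, Matrix.charpolyRev, ← Polynomial.coe_mapRingHom, RingHom.map_det]
  congr 1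
  ext1 i j
  rw [RingHom.mapMatrix_apply, Matrix.map_apply]
  by_cases h : i = j
  · subst h
    simp
  · simp [Matrix.one_apply_ne h]

/-- [N G end] -/
theorem p_end (h1 : S_ghost) (h2 : S_mat) : S_end := by
  intro p hp V _ _ C V₀ hN f s hf hPV
  obtain ⟨W, hW⟩ := hN
  have hWfin := hW.fin
  set c := C.restrict hW.stab with hc
  obtain ⟨W', hA, hsurj⟩ := (abs_top c).exists_surj
  have hWfin' := hA.fin
  set c' := c.restrict hA.st with hc'
  have hP : PP C V₀ = c'.charpoly.reverse := by
    rw [PP_eq hW, cp_eq hW.stab, ← absP_fin, absP_eq hA, cp_eq hA.st]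
  have hsur : Function.Surjective c' := by
    intro y
    obtain ⟨x, hx, hxy⟩ := hsurj y.1 y.2
    exact ⟨⟨x, hx⟩, Subtype.ext hxy⟩
  have hbij : Function.Bijective c' := ⟨LinearMap.injective_iff_surjective.2 hsur, hsur⟩
  by_cases hn : finrank (ZMod p) W' = 0
  · left
    intro v hv
    obtain ⟨e, he⟩ := hW.abs v hv
    obtain ⟨e', he'⟩ := hA.ab ⟨_, he⟩
    have h3 : W' = ⊥ := Submodule.finrank_eq_zero.1 hn
    rw [h3, Submodule.mem_bot] at he'
    have h4 := pow_comm (i := W.subtype) (f := c) (f' := C) (LinearMap.ext fun x => rfl) e'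
      ⟨_, he⟩
    rw [he'] at h4
    exact ⟨e' + e, by rw [pow_add]; simpa using h4⟩
  · right
    let b := Module.finBasis (ZMod p) W'
    set Ab := LinearMap.toMatrix b b c' with hAb
    have hu : IsUnit Ab := by
      have h3 : IsUnit (c' : Module.End (ZMod p) W') := (Module.End.isUnit_iff c').2 hbij
      exact h3.map (LinearMap.toMatrixAlgEquiv b)
    let A : Matrix (Fin (finrank (ZMod p) W')) (Fin (finrank (ZMod p) W')) ℤ :=
      fun i j => ((Ab i j).val : ℤ)
    have hA' : A.map (Int.castRingHom (ZMod p)) = Ab := by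
      ext i j
      rw [Matrix.map_apply]
      change ((((Ab i j).val : ℤ)) : ZMod p) = Ab i j
      rw [Int.cast_natCast, ZMod.natCast_zmod_val]
    have hPA : PP C V₀ = A.charpolyRev.map (Int.castRingHom (ZMod p)) := by
      rw [hP, ← p_end_map, hA', ← Matrix.reverse_charpoly, hAb, LinearMap.charpoly_toMatrix]
    obtain ⟨k₀, hk₀, hk⟩ := h2 p _ A (by rw [hA']; exact hu)
    refine ⟨_, k₀, Nat.one_le_iff_ne_zero.2 hn, hk₀, fun i k h3 h4 => ?_⟩
    have hcong : ∀ j ≤ k, (p : ℤ) ∣ PowerSeries.coeff j (f : PowerSeries ℤ) -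
        PowerSeries.coeff j ((A.charpolyRev : Polynomial ℤ) : PowerSeries ℤ) := by
      intro j _
      have h5 := congrArg (fun u : (PowerSeries (ZMod p))ˣ =>
        PowerSeries.coeff j (u : PowerSeries (ZMod p))) hPV
      simp only [PU_val, hPA, Polynomial.coeff_coe, Polynomial.coeff_map] at h5
      have h6 : PowerSeries.coeff j ((red p f : (PowerSeries (ZMod p))ˣ) : PowerSeries (ZMod p)) =
          ((PowerSeries.coeff j (f : PowerSeries ℤ) : ℤ) : ZMod p) := by
        change PowerSeries.coeff j (PowerSeries.map (Int.castRingHom (ZMod p))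
          (f : PowerSeries ℤ)) = _
        rw [PowerSeries.coeff_map]
        rfl
      rw [h6] at h5
      rw [Polynomial.coeff_coe, ← ZMod.intCast_zmod_eq_zero_iff_dvd, Int.cast_sub, ← h5]
      exact sub_self _
    have h7 := h1 p (f : PowerSeries ℤ) _ s _ k hf (F2TF.p_ldchar ℤ _ A) hcong k i h3 le_rfl
      ((dvd_mul_left _ _).trans h4)
    have h8 := dvd_add h7 (hk i k h4)
    rwa [sub_add_sub_cancel] at h8

end Pool.Agent.FrNA
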