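import Pool.Agent.Lib.MP_305fdd_al.Fr.N.A.Stm

/-!
# MP_305fdd_al (`F_r`), nilpotence block, section A: [N A fil]
-/

set_option autoImplicit false

namespace Pool.Agent.FrNA

open Module Polynomial Pool.Agent.FrN Pool.Agent.F2Ch

namespace fil

section

variable {B I : Type} [CommRing B] [Fintype I] (x : I → B)

/-- monomials -/
def mon (α : I → ℕ) : B := ∏ l, x l ^ α l

lemma mon_add (α β : I → ℕ) : mon x (α + β) = mon x α * mon x β := by
  unfold mon
  rw [← Finset.prod_mul_distrib]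
  exact Finset.prod_congr rfl fun l _ => by rw [Pi.add_apply, pow_add]

lemma mon_zero : mon x 0 = 1 := by
  unfold mon
  exact Finset.prod_eq_one fun l _ => by rw [Pi.zero_apply, pow_zero]

lemma mon_split (p : ℕ) (α : I → ℕ) :
    mon x α = mon x (fun l => α l / p) ^ p * mon x (fun l => α l % p) := by
  unfold mon
  rw [← Finset.prod_pow, ← Finset.prod_mul_distrib]
  refine Finset.prod_congr rfl fun l _ => ?_
  rw [← pow_mul, ← pow_add, Nat.div_add_mod']

lemma mon_single [DecidableEq I] (l : I) : mon x (Pi.single l 1) = x l := by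
  unfold mon
  rw [Finset.prod_eq_single l]
  · rw [Pi.single_eq_same, pow_one]
  · intro b _ hb
    rw [Pi.single_eq_of_ne hb, pow_zero]
  · intro h; exact absurd (Finset.mem_univ l) h

variable {p : ℕ} {M J : Type} [AddCommGroup M] [Module (ZMod p) M] [Module B M] (m : J → M)

/-- the filtration -/
def W (p : ℕ) [Module (ZMod p) M] (j : ℕ) : Submodule (ZMod p) M :=
  Submodule.span (ZMod p) {v | ∃ α : I → ℕ, (∀ l, α l ≤ j) ∧ ∃ i, v = mon x α • m i}

lemma W_mono : Monotone (W x m p) := by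
  intro j j' h
  refine Submodule.span_mono ?_
  rintro _ ⟨α, hα, i, rfl⟩
  exact ⟨α, fun l => (hα l).trans h, i, rfl⟩

lemma W_fd [Fact p.Prime] [Finite J] (j : ℕ) : Module.Finite (ZMod p) (W x m p j) := by
  apply Module.Finite.span_of_finite
  have h1 : ({α : I → ℕ | ∀ l, α l ≤ j}).Finite :=
    Set.Finite.pi' (t := fun _ => Set.Iic j) fun _ => Set.finite_Iic j
  refine ((h1.prod (Set.finite_univ (α := J))).image
    (fun q : (I → ℕ) × J => mon x q.1 • m q.2)).subset ?_
  rintro _ ⟨α, hα, i, rfl⟩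
  exact ⟨(α, i), ⟨hα, trivial⟩, rfl⟩

variable [Algebra (ZMod p) B] [IsScalarTower (ZMod p) B M]

lemma smul_comm' (c : ZMod p) (b : B) (v : M) : b • c • v = c • b • v := by
  rw [← algebraMap_smul B c v, ← algebraMap_smul B c (b • v), smul_smul, smul_smul, mul_comm]

lemma lin_mem {b : B} {j j' : ℕ}
    (h : ∀ α : I → ℕ, (∀ l, α l ≤ j) → ∀ i, b • (mon x α • m i) ∈ W x m p j') :
    ∀ v ∈ W x m p j, b • v ∈ W x m p j' := by
  intro v hv
  refine Submodule.span_induction ?_ ?_ ?_ ?_ hv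
  · rintro _ ⟨α, hα, i, rfl⟩
    exact h α hα i
  · rw [smul_zero]; exact Submodule.zero_mem _
  · intro a c _ _ ha hc
    rw [smul_add]; exact Submodule.add_mem _ ha hc
  · intro c a _ ha
    rw [smul_comm']; exact Submodule.smul_mem _ _ ha

lemma mon_mul {β : I → ℕ} {b : ℕ} (hβ : ∀ l, β l ≤ b) (j : ℕ) :
    ∀ v ∈ W x m p j, mon x β • v ∈ W x m p (j + b) := by
  refine lin_mem x m fun α hα i => ?_
  rw [smul_smul, ← mon_add]
  refine Submodule.subset_span ⟨β + α, fun l => ?_, i, rfl⟩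
  rw [Pi.add_apply, add_comm]
  exact add_le_add (hα l) (hβ l)

lemma W_mul (hx : Algebra.adjoin (ZMod p) (Set.range x) = ⊤) (b : B) :
    ∃ a, ∀ j, ∀ v ∈ W x m p j, b • v ∈ W x m p (j + a) := by
  classical
  have hb : b ∈ Algebra.adjoin (ZMod p) (Set.range x) := by rw [hx]; exact Algebra.mem_top
  induction hb using Algebra.adjoin_induction with
  | mem b hb =>
    obtain ⟨l, rfl⟩ := hb
    refine ⟨1, fun j v hv => ?_⟩
    have h := mon_mul x m (β := Pi.single l 1) (b := 1) (fun l' => by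
      by_cases hl : l' = l
      · subst hl; rw [Pi.single_eq_same]
      · rw [Pi.single_eq_of_ne hl]; exact Nat.zero_le _) j v hv
    rwa [mon_single] at h
  | algebraMap r =>
    refine ⟨0, fun j v hv => ?_⟩
    rw [algebraMap_smul]
    exact Submodule.smul_mem _ _ hv
  | add b c _ _ hb hc =>
    obtain ⟨a, ha⟩ := hb
    obtain ⟨a', ha'⟩ := hc
    refine ⟨max a a', fun j v hv => ?_⟩
    rw [add_smul]
    exact Submodule.add_mem _
      (W_mono x m (Nat.add_le_add_left (le_max_left a a') j) (ha j v hv))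
      (W_mono x m (Nat.add_le_add_left (le_max_right a a') j) (ha' j v hv))
  | mul b c _ _ hb hc =>
    obtain ⟨a, ha⟩ := hb
    obtain ⟨a', ha'⟩ := hc
    refine ⟨a' + a, fun j v hv => ?_⟩
    rw [mul_smul, ← add_assoc]
    exact ha _ _ (ha' j v hv)

lemma W_ex (hx : Algebra.adjoin (ZMod p) (Set.range x) = ⊤)
    (hm : Submodule.span B (Set.range m) = ⊤) (v : M) : ∃ j, v ∈ W x m p j := by
  have hv : v ∈ Submodule.span B (Set.range m) := by rw [hm]; exact Submodule.mem_top
  refine Submodule.span_induction ?_ ?_ ?_ ?_ hv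
  · rintro _ ⟨i, rfl⟩
    refine ⟨0, Submodule.subset_span ⟨0, fun l => le_rfl, i, ?_⟩⟩
    rw [mon_zero, one_smul]
  · exact ⟨0, Submodule.zero_mem _⟩
  · rintro a b _ _ ⟨j, hj⟩ ⟨j', hj'⟩
    exact ⟨max j j', Submodule.add_mem _ (W_mono x m (le_max_left j j') hj)
      (W_mono x m (le_max_right j j') hj')⟩
  · rintro b a _ ⟨j, hj⟩
    obtain ⟨c, hc⟩ := W_mul x m hx b
    exact ⟨j + c, hc j a hj⟩

lemma W_con [Fact p.Prime] [Finite J] (hx : Algebra.adjoin (ZMod p) (Set.range x) = ⊤)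
    (hm : Submodule.span B (Set.range m) = ⊤) (C : Module.End (ZMod p) M)
    (hC : ∀ (b : B) (v : M), C (b ^ p • v) = b • C v) :
    ∃ c, ∀ j, ∀ v ∈ W x m p j, C v ∈ W x m p (j / p + c) := by
  classical
  have hp : 0 < p := (Fact.out : p.Prime).pos
  have h1 : ({α : I → ℕ | ∀ l, α l < p}).Finite :=
    Set.Finite.pi' (t := fun _ => Set.Iio p) fun _ => Set.finite_Iio p
  have h2 := h1.prod (Set.finite_univ (α := J))
  choose f hf using fun q : (I → ℕ) × J => W_ex x m (p := p) hx hm (C (mon x q.1 • m q.2))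
  obtain ⟨c, hc⟩ := (h2.image f).bddAbove
  refine ⟨c, fun j v hv => ?_⟩
  refine Submodule.span_induction ?_ ?_ ?_ ?_ hv
  · rintro _ ⟨α, hα, i, rfl⟩
    rw [mon_split x p α, mul_smul, hC, add_comm]
    refine mon_mul x m (β := fun l => α l / p) (b := j / p)
      (fun l => Nat.div_le_div_right (hα l)) c _ ?_
    refine W_mono x m ?_ (hf (fun l => α l % p, i))
    exact hc ⟨(fun l => α l % p, i), ⟨fun l => Nat.mod_lt _ hp, trivial⟩, rfl⟩
  · rw [map_zero]; exact Submodule.zero_mem _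
  · intro a b _ _ ha hb
    rw [map_add]; exact Submodule.add_mem _ ha hb
  · intro c' a _ ha
    rw [map_smul]; exact Submodule.smul_mem _ _ ha

end

end fil

open fil in
theorem p_fil : S_fil := by
  intro p _ B _ _ _ X _
  classical
  obtain ⟨S, hS⟩ := (inferInstance : Algebra.FiniteType (ZMod p) B).out
  obtain ⟨T, hT⟩ := (inferInstance : Module.Finite B X.M).fg_top
  let x : {b // b ∈ S} → B := Subtype.val
  let m : {v // v ∈ T} → X.M := Subtype.val
  have hx : Algebra.adjoin (ZMod p) (Set.range x) = ⊤ := by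
    rw [← hS]; congr 1; ext b; simp [x]
  have hm : Submodule.span B (Set.range m) = ⊤ := by
    rw [← hT]; congr 1; ext b; simp [m]
  obtain ⟨c, hc⟩ := W_con x m hx hm X.C X.hC
  have hp2 : 2 ≤ p := (Fact.out : p.Prime).two_le
  have hdiv : ∀ a j, a + 2 * c ≤ j → (j + a) / p + c ≤ j := by
    intro a j h
    have h1 : (j + a) / p ≤ (j + a) / 2 := Nat.div_le_div_left hp2 (by norm_num)
    omega
  refine ⟨W x m p, ⟨fun j => W_fd x m j, W_mono x m, fun v => W_ex x m hx hm v,
    fun b => W_mul x m hx b, ?_⟩⟩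
  intro g k hk a
  obtain ⟨b, hb⟩ := W_mul x m (p := p) hx g
  refine ⟨a + b + 2 * c, fun j hj v hv => ?_⟩
  have h1 : X.C (g • v) ∈ W x m p j := by
    refine W_mono x m ?_ (hc _ _ (hb _ v hv))
    rw [add_assoc]
    exact hdiv (a + b) j (by omega)
  have h2 : ∀ w ∈ W x m p j, X.C w ∈ W x m p j := by
    intro w hw
    refine W_mono x m ?_ (hc _ _ hw)
    have := hdiv 0 j (by omega)
    simpa using this
  obtain ⟨k', rfl⟩ := Nat.exists_eq_add_of_le' hk
  rw [pow_succ, Module.End.mul_apply]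
  exact pow_st h2 k' _ h1

end Pool.Agent.FrNA
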