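import Pool.Agent.Lib.MP_305fdd_al.Fr.N.A.Stm

/-!
# MP_305fdd_al (`F_r`), nilpotence block, section A: absorbing subspaces of twists
-/

set_option autoImplicit false

namespace Pool.Agent.FrNA

open Module Polynomial Pool.Agent.FrN Pool.Agent.F2Ch

theorem p_filabs : S_filabs := by
  intro p _ B _ _ X W hW g
  obtain ⟨j₀, h0⟩ := hW.con g 1 le_rfl 1
  have h1 : ∀ j, j₀ ≤ j → ∀ m ∈ W (j + 1), (X.tw g).C m ∈ W j := by
    intro j hj m hm
    have := h0 j hj m hm
    rw [pow_one] at this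
    exact this
  refine ⟨j₀, fun j hj => ⟨hW.fd j, fun m hm => h1 j hj m (hW.mono (Nat.le_succ j) hm), ?_⟩⟩
  have h2 : ∀ n : ℕ, ∀ m ∈ W (j + n), ((X.tw g).C ^ n) m ∈ W j := by
    intro n
    induction n with
    | zero => intro m hm; exact hm
    | succ n ih =>
      intro m hm
      exact ih _ (h1 (j + n) (hj.trans (Nat.le_add_right j n)) m hm)
  intro v
  obtain ⟨i, hi⟩ := hW.ex v
  exact ⟨i, h2 i v (hW.mono (Nat.le_add_left i j) hi)⟩

end Pool.Agent.FrNA
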