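import Pool.Agent.Lib.MP_305fdd_al.Fr.N.A.Stm
import Pool.Agent.Lib.MP_305fdd_al.F2.TF.P.b8

set_option autoImplicit false

namespace Pool.Agent.FrNA

open Pool.Agent.F2TF (LD)

private theorem p_ghost_inv {u v : PowerSeries ℤ} {t : ℕ → ℤ} (h : LD u t) (huv : u * v = 1) :
    LD v (-t) := by
  rw [F2TF.ld_iff] at h ⊢
  refine ⟨?_, ?_⟩
  · have h1 := congrArg (PowerSeries.coeff 0) huv
    have h2 := h.1
    simp only [PowerSeries.coeff_zero_eq_constantCoeff] at h1 h2 ⊢
    rw [map_mul, h2, one_mul, map_one] at h1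
    exact h1
  · have h1 : PowerSeries.derivative ℤ (u * v) = 0 := by
      rw [huv]
      exact (PowerSeries.derivative ℤ).map_one_eq_zero
    rw [Derivation.leibniz, smul_eq_mul, smul_eq_mul, h.2] at h1
    have h3 : (PowerSeries.mk fun n => (-t) (n + 1)) = - PowerSeries.mk (fun n => t (n + 1)) := by
      ext n
      simp
    rw [h3]
    have h4 : v * (u * PowerSeries.derivative ℤ v + v * -(PowerSeries.mk (fun n => t (n + 1)) * u)) = 0 := by
      rw [h1, mul_zero]
    have h5 : v * (u * PowerSeries.derivative ℤ v + v * -(PowerSeries.mk (fun n => t (n + 1)) * u)) =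
        (u * v) * (PowerSeries.derivative ℤ v - PowerSeries.mk (fun n => t (n + 1)) * v) := by
      ring
    rw [h5, huv, one_mul, sub_eq_zero] at h4
    rw [h4]
    ring

private theorem p_ghost_factor (e : ℕ) (he : 1 ≤ e) (x : ℤ) :
    LD (1 - PowerSeries.C x * PowerSeries.X ^ e : PowerSeries ℤ)
      (fun k => if e ∣ k then (e : ℤ) * x ^ (k / e) else 0) := by
  have hc : ∀ n : ℕ, PowerSeries.coeff n (1 - PowerSeries.C x * PowerSeries.X ^ e : PowerSeries ℤ) =
      (if n = 0 then 1 else 0) - x * (if n = e then 1 else 0) := by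
    intro n
    rw [map_sub, PowerSeries.coeff_one, PowerSeries.coeff_C_mul, PowerSeries.coeff_X_pow]
  refine ⟨?_, fun k => ?_⟩
  · rw [hc, if_pos rfl, if_neg (by omega)]
    ring
  · set s : ℕ → ℤ := fun k => if e ∣ k then (e : ℤ) * x ^ (k / e) else 0 with hs
    have h1 : ∑ j ∈ Finset.range (k + 1), s (j + 1) * (if k - j = 0 then (1 : ℤ) else 0) =
        s (k + 1) := by
      rw [Finset.sum_eq_single k]
      · simp
      · intro j hj hne
        have := Finset.mem_range.1 hj
        rw [if_neg (by omega), mul_zero]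
      · intro h
        exact absurd (Finset.mem_range.2 (Nat.lt_succ_self k)) h
    have h2 : ∑ j ∈ Finset.range (k + 1), s (j + 1) * (if k - j = e then (1 : ℤ) else 0) =
        if e ≤ k then s (k + 1 - e) else 0 := by
      by_cases hek : e ≤ k
      · rw [if_pos hek, Finset.sum_eq_single (k - e)]
        · rw [if_pos (by omega), mul_one]
          congr 1
          omega
        · intro j hj hne
          have := Finset.mem_range.1 hj
          rw [if_neg (by omega), mul_zero]
        · intro h
          exact absurd (Finset.mem_range.2 (by omega)) h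
      · rw [if_neg hek]
        apply Finset.sum_eq_zero
        intro j hj
        rw [if_neg (by omega), mul_zero]
    have h3 : ∑ j ∈ Finset.range (k + 1), s (j + 1) *
        PowerSeries.coeff (k - j) (1 - PowerSeries.C x * PowerSeries.X ^ e : PowerSeries ℤ) =
        s (k + 1) - x * (if e ≤ k then s (k + 1 - e) else 0) := by
      rw [← h1, ← h2, Finset.mul_sum, ← Finset.sum_sub_distrib]
      refine Finset.sum_congr rfl fun j _ => ?_
      rw [hc]
      ring
    rw [h3, hc, if_neg (by omega)]
    have e1 : s (k + 1) = if e ∣ k + 1 then (e : ℤ) * x ^ ((k + 1) / e) else 0 := rfl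
    have e2 : s (k + 1 - e) = if e ∣ k + 1 - e then (e : ℤ) * x ^ ((k + 1 - e) / e) else 0 := rfl
    rcases lt_trichotomy (k + 1) e with hlt | heq | hgt
    · have hnd : ¬ e ∣ k + 1 := fun h => by
        have := Nat.le_of_dvd (Nat.succ_pos k) h
        omega
      rw [if_neg (by omega : ¬ k + 1 = e), e1, if_neg hnd, if_neg (by omega : ¬ e ≤ k)]
      ring
    · rw [if_pos heq, e1, heq, if_pos (dvd_refl e), Nat.div_self (by omega),
        if_neg (by omega : ¬ e ≤ k)]
      have : (k : ℤ) + 1 = e := by exact_mod_cast heq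
      rw [this]
      ring
    · rw [if_neg (by omega : ¬ k + 1 = e), if_pos (by omega : e ≤ k), e1, e2]
      by_cases hd : e ∣ k + 1
      · obtain ⟨c, hc'⟩ := hd
        have hc1 : 1 ≤ c := by
          rcases Nat.eq_zero_or_pos c with h | h
          · subst h; omega
          · exact h
        have hsub : k + 1 - e = e * (c - 1) := by
          rw [hc', Nat.mul_sub, mul_one]
        rw [hsub, hc', if_pos (dvd_mul_right e c), if_pos (dvd_mul_right e (c - 1)),
          Nat.mul_div_cancel_left c (by omega), Nat.mul_div_cancel_left (c - 1) (by omega)]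
        obtain ⟨c', rfl⟩ := Nat.exists_eq_add_of_le hc1
        rw [Nat.add_sub_cancel_left, pow_add]
        ring
      · have hnd : ¬ e ∣ k + 1 - e := fun h => hd (by
          have := dvd_add h (dvd_refl e)
          rwa [Nat.sub_add_cancel (by omega)] at this)
        rw [if_neg hd, if_neg hnd]
        ring

/-- `p ^ i ∣ K m` implies `p ^ (i + 1) ∣ K b ^ m` if `p ∣ b`, `m ≥ 1` -/
private theorem p_ghost_num (p : ℕ) [hp : Fact p.Prime] (K m i : ℕ) (hm : 1 ≤ m) (b : ℤ)
    (hb : (p : ℤ) ∣ b) (h : p ^ i ∣ K * m) : (p : ℤ) ^ (i + 1) ∣ (K : ℤ) * b ^ m := by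
  obtain ⟨c, m', hm', rfl⟩ := Nat.exists_eq_pow_mul_and_not_dvd (n := m) (by omega) p
    hp.out.ne_one
  have h1 : p ^ i ∣ K * p ^ c := by
    rw [← mul_assoc] at h
    exact Nat.Coprime.dvd_of_dvd_mul_right
      (Nat.Coprime.pow_left i ((Nat.Prime.coprime_iff_not_dvd hp.out).2 hm')) h
  have h2 : c + 1 ≤ p ^ c * m' := by
    have h3 : c < p ^ c := Nat.lt_pow_self hp.out.one_lt
    have h4 : 1 ≤ m' := by
      rcases Nat.eq_zero_or_pos m' with h0 | h0
      · exact absurd (h0 ▸ dvd_zero p) hm'
      · exact h0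
    calc c + 1 ≤ p ^ c := h3
      _ ≤ p ^ c * m' := Nat.le_mul_of_pos_right _ h4
  have h3 : (p : ℤ) ^ (c + 1) ∣ b ^ (p ^ c * m') :=
    (pow_dvd_pow _ h2).trans (pow_dvd_pow_of_dvd hb _)
  have h4 : (p : ℤ) ^ (i + 1) ∣ (K : ℤ) * (p : ℤ) ^ (c + 1) := by
    have h5 : p ^ (i + 1) ∣ K * p ^ (c + 1) := by
      rw [pow_succ, pow_succ, ← mul_assoc]
      exact Nat.mul_dvd_mul_right h1 p
    exact_mod_cast h5
  exact h4.trans (mul_dvd_mul_left _ h3)

private theorem p_ghost_core (p : ℕ) [Fact p.Prime] (N : ℕ) (n : ℕ) :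
    ∀ (K : ℕ) (h : PowerSeries ℤ) (s : ℕ → ℤ), 1 ≤ K → N + 1 ≤ K + n → LD h s →
    (∀ k, 1 ≤ k → k ≤ N → (p : ℤ) ∣ PowerSeries.coeff k h) →
    (∀ k, 1 ≤ k → k < K → PowerSeries.coeff k h = 0) →
    ∀ k i, 1 ≤ k → k ≤ N → p ^ i ∣ k → (p : ℤ) ^ (i + 1) ∣ s k := by
  induction n with
  | zero =>
    intro K h s hK hn hLD hp h0 k i hk hkN hi
    obtain ⟨j, rfl⟩ := Nat.exists_eq_add_of_le' hk
    have h1 := hLD.2 j
    rw [h0 (j + 1) (by omega) (by omega), mul_zero, Finset.sum_range_succ,
      Finset.sum_eq_zero, zero_add, Nat.sub_self, hLD.1, mul_one] at h1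
    · have h2 : s (j + 1) = 0 := by linarith
      rw [h2]
      exact dvd_zero _
    · intro x hx
      have := Finset.mem_range.1 hx
      rw [h0 (j - x) (by omega) (by omega), mul_zero]
  | succ n ih =>
    intro K h s hK hn hLD hp h0 k i hk hkN hi
    by_cases hKN : K ≤ N
    · set b : ℤ := - PowerSeries.coeff K h with hb
      have hbp : (p : ℤ) ∣ b := (dvd_neg.2 (hp K hK hKN))
      set u : PowerSeries ℤ := 1 - PowerSeries.C b * PowerSeries.X ^ K with hu
      have hLu := p_ghost_factor K hK b
      have huc : PowerSeries.constantCoeff u = ((1 : ℤˣ) : ℤ) := by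
        have := hLu.1
        rw [PowerSeries.coeff_zero_eq_constantCoeff] at this
        rw [this, Units.val_one]
      set v := PowerSeries.invOfUnit u 1 with hv
      have huv : u * v = 1 := PowerSeries.mul_invOfUnit u 1 huc
      have hLv := p_ghost_inv hLu huv
      set h₁ := h * v with hh₁
      have hL1 := F2TF.p_ld.1 ℤ h v _ _ hLD hLv
      have hrec : h₁ = h + PowerSeries.C b * (h₁ * PowerSeries.X ^ K) := by
        have : h = h₁ * u := by
          rw [hh₁, mul_assoc, mul_comm v u, huv, mul_one]
        conv_rhs => rw [this]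
        rw [hu]
        ring
      have hc1 : ∀ k, k < K → PowerSeries.coeff k h₁ = PowerSeries.coeff k h := by
        intro k hk
        have := congrArg (PowerSeries.coeff k) hrec
        rw [map_add, PowerSeries.coeff_C_mul, PowerSeries.coeff_mul_X_pow',
          if_neg (by omega), mul_zero, add_zero] at this
        exact this
      have hc2 : ∀ k, K ≤ k → PowerSeries.coeff k h₁ =
          PowerSeries.coeff k h + b * PowerSeries.coeff (k - K) h₁ := by
        intro k hk
        have := congrArg (PowerSeries.coeff k) hrec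
        rw [map_add, PowerSeries.coeff_C_mul, PowerSeries.coeff_mul_X_pow',
          if_pos hk] at this
        exact this
      have h2 := ih (K + 1) h₁ _ (by omega) (by omega) hL1 (by
        intro k hk hkN
        by_cases hkK : k < K
        · rw [hc1 k hkK]
          exact hp k hk hkN
        · rw [hc2 k (by omega)]
          exact dvd_add (hp k hk hkN) (dvd_mul_of_dvd_left hbp _)) (by
        intro k hk hkK
        by_cases hkK' : k < K
        · rw [hc1 k hkK']
          exact h0 k hk hkK'
        · have : k = K := by omega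
          subst this
          rw [hc2 k le_rfl, Nat.sub_self, hL1.1, hb]
          ring) k i hk hkN hi
      have h3 : s k = (s + -fun k => if K ∣ k then (K : ℤ) * b ^ (k / K) else 0) k +
          if K ∣ k then (K : ℤ) * b ^ (k / K) else 0 := by
        simp only [Pi.add_apply, Pi.neg_apply]
        ring
      rw [h3]
      refine dvd_add h2 ?_
      split_ifs with hd
      · obtain ⟨m, rfl⟩ := hd
        rw [Nat.mul_div_cancel_left _ (by omega)]
        refine p_ghost_num p K m i ?_ b hbp hi
        rcases Nat.eq_zero_or_pos m with h0 | h0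
        · subst h0; omega
        · exact h0
      · exact dvd_zero _
    · exact ih K h s hK (by omega) hLD hp h0 k i hk hkN hi

/-- [N G ghost] -/
theorem p_ghost : S_ghost := by
  intro p _ f g s t N hf hg hfg k i hk hkN hi
  have hgc : PowerSeries.constantCoeff g = ((1 : ℤˣ) : ℤ) := by
    have := hg.1
    rw [PowerSeries.coeff_zero_eq_constantCoeff] at this
    rw [this, Units.val_one]
  have hgv : g * PowerSeries.invOfUnit g 1 = 1 := PowerSeries.mul_invOfUnit g 1 hgc
  have hLv := p_ghost_inv hg hgv
  have hL1 := F2TF.p_ld.1 ℤ f _ _ _ hf hLv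
  have h2 := p_ghost_core p N (N + 1) 1 _ _ le_rfl (by omega) hL1 (by
    intro k hk hkN
    have h3 : f * PowerSeries.invOfUnit g 1 = 1 + (f - g) * PowerSeries.invOfUnit g 1 := by
      rw [sub_mul, hgv]
      ring
    rw [h3, map_add, PowerSeries.coeff_one, if_neg (by omega), zero_add, PowerSeries.coeff_mul]
    refine Finset.dvd_sum fun x hx => dvd_mul_of_dvd_left ?_ _
    have := Finset.HasAntidiagonal.mem_antidiagonal.1 hx
    rw [map_sub]
    exact hfg _ (by omega)) (by
    intro k hk hk'
    omega) k i hk hkN hi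
  simpa [sub_eq_add_neg] using h2

end Pool.Agent.FrNA
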