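import Pool.Agent.Lib.MP_305fdd_al.Fr.N.A.Stm

/-!
# MP_305fdd_al (`F_r`), nilpotence block, section A: [N A hull]
-/

set_option autoImplicit false

namespace Pool.Agent.FrNA

open Module Polynomial Pool.Agent.FrN Pool.Agent.F2Ch

/-- a finitely generated algebra over `ZMod p` is finite over the subring of `p`-th powers -/
private theorem p_hull_gen (p : ℕ) [hp : Fact p.Prime] (B : Type) [CommRing B] [Algebra (ZMod p) B]
    [Algebra.FiniteType (ZMod p) B] : ∃ G : Finset B, ∀ P : B → Prop, P 0 →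
      (∀ x y, P x → P y → P (x + y)) → (∀ a x, P x → P (a ^ p * x)) → (∀ g ∈ G, P g) →
      ∀ b, P b := by
  let R : Subalgebra (ZMod p) B := (FiniteField.frobeniusAlgHom (ZMod p) B).range
  have hpow : ∀ x : B, x ^ p ∈ R := by
    intro x
    refine ⟨x, ?_⟩
    change x ^ Fintype.card (ZMod p) = x ^ p
    rw [ZMod.card]
  have hR : ∀ r : R, ∃ a : B, (r : B) = a ^ p := by
    rintro ⟨_, a, rfl⟩
    refine ⟨a, ?_⟩
    change a ^ Fintype.card (ZMod p) = a ^ p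
    rw [ZMod.card]
  have h1 : Algebra.FiniteType R B := .of_restrictScalars_finiteType (ZMod p) _ _
  have h2 : Algebra.IsIntegral R B := ⟨fun x => by
    apply IsIntegral.of_pow hp.out.pos
    exact (isIntegral_algebraMap (R := R) (A := B) (x := ⟨x ^ p, hpow x⟩))⟩
  have h3 : Module.Finite R B := Algebra.IsIntegral.finite
  obtain ⟨G, hG⟩ := h3.fg_top
  refine ⟨G, fun P h0 hadd hmul hg b => ?_⟩
  have hb : b ∈ Submodule.span R (G : Set B) := by rw [hG]; trivial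
  induction hb using Submodule.span_induction with
  | mem x hx => exact hg x hx
  | zero => exact h0
  | add x y _ _ hx hy => exact hadd x y hx hy
  | smul r x _ hx =>
    obtain ⟨a, ha⟩ := hR r
    rw [Subalgebra.smul_def, smul_eq_mul, ha]
    exact hmul a x hx

/-- common denominators -/
private theorem p_hull_den {p : ℕ} {K : Type} [Field K] [Algebra (ZMod p) K]
    (B : Subalgebra (ZMod p) K) (hB : Frc B) {ι : Type} (G : Finset ι) (z : ι → K) :
    ∃ δ : K, δ ∈ B ∧ δ ≠ 0 ∧ ∀ g ∈ G, δ * z g ∈ B := by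
  classical
  induction G using Finset.induction_on with
  | empty => exact ⟨1, B.one_mem, one_ne_zero, fun g hg => absurd hg (Finset.notMem_empty g)⟩
  | insert i G hi ih =>
    obtain ⟨δ, hδ, hδ0, h⟩ := ih
    obtain ⟨a, ha, b, hb, hb0, hab⟩ := hB (z i)
    refine ⟨δ * b, B.mul_mem hδ hb, mul_ne_zero hδ0 hb0, fun g hg => ?_⟩
    rcases Finset.mem_insert.1 hg with rfl | hg
    · have : δ * b * z g = δ * a := by rw [← hab]; ring
      rw [this]
      exact B.mul_mem hδ ha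
    · have : δ * b * z g = b * (δ * z g) := by ring
      rw [this]
      exact B.mul_mem hb (h g hg)

/-- a finitely generated stable submodule which contains `c` -/
private theorem p_hull_ex (p : ℕ) [hp : Fact p.Prime] (K : Type) [Field K] [Algebra (ZMod p) K]
    (B : Subalgebra (ZMod p) K) (hB : B.FG) (hF : Frc B) (Φ : K → K) (h : IsPinv p Φ) (c : K) :
    ∃ Q : Submodule B K, Q.FG ∧ Stb Φ Q ∧ c ∈ Q := by
  have hΦ0 : Φ 0 = 0 := by
    have := h.add 0 0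
    rwa [add_zero, left_eq_add] at this
  by_cases hc : c = 0
  · refine ⟨⊥, Submodule.fg_bot, ?_, ?_⟩
    · intro x hx
      rw [Submodule.mem_bot] at hx ⊢
      rw [hx, hΦ0]
    · rw [hc]
      exact Submodule.zero_mem _
  have hft : Algebra.FiniteType (ZMod p) B := (Subalgebra.fg_iff_finiteType B).1 hB
  obtain ⟨G, hG⟩ := p_hull_gen p B
  obtain ⟨δ, hδ, hδ0, hδG⟩ := p_hull_den B hF G fun g => Φ ((g : K) * c) / c
  have key : ∀ b : B, ∃ b' : B, δ * Φ ((b : K) * c) = (b' : K) * c := by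
    apply hG
    · refine ⟨0, ?_⟩
      rw [ZeroMemClass.coe_zero, zero_mul, hΦ0, mul_zero]
    · rintro x y ⟨x', hx⟩ ⟨y', hy⟩
      refine ⟨x' + y', ?_⟩
      rw [AddMemClass.coe_add, add_mul, h.add, mul_add, hx, hy, AddMemClass.coe_add, add_mul]
    · rintro a x ⟨x', hx⟩
      refine ⟨a * x', ?_⟩
      rw [MulMemClass.coe_mul, SubmonoidClass.coe_pow, mul_assoc, h.pow_mul, MulMemClass.coe_mul,
        mul_assoc (a : K), ← hx]
      ring
    · intro g hg
      refine ⟨⟨_, hδG g hg⟩, ?_⟩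
      change δ * Φ ((g : K) * c) = (δ * (Φ ((g : K) * c) / c)) * c
      field_simp
  refine ⟨Submodule.span B {c * (δ⁻¹ * δ⁻¹)}, Submodule.fg_span_singleton _, ?_, ?_⟩
  · intro x hx
    rw [Submodule.mem_span_singleton] at hx ⊢
    obtain ⟨b, rfl⟩ := hx
    obtain ⟨b', hb'⟩ := key (⟨δ, hδ⟩ ^ (p - 2) * b)
    refine ⟨b', ?_⟩
    have hp2 : p = p - 2 + 2 := (Nat.sub_add_cancel hp.out.two_le).symm
    have h1 : b • (c * (δ⁻¹ * δ⁻¹)) = (δ⁻¹) ^ p * ((((⟨δ, hδ⟩ : B) ^ (p - 2) * b : B) : K) * c) := by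
      rw [Algebra.smul_def, MulMemClass.coe_mul, SubmonoidClass.coe_pow]
      change (b : K) * (c * (δ⁻¹ * δ⁻¹)) = (δ⁻¹) ^ p * ((δ ^ (p - 2) * (b : K)) * c)
      have h4 : (δ⁻¹) ^ p = (δ⁻¹) ^ (p - 2) * (δ⁻¹) ^ 2 := by
        rw [← pow_add, ← hp2]
      rw [h4]
      have h2 : (δ⁻¹) ^ (p - 2) * δ ^ (p - 2) = 1 := by
        rw [← mul_pow, inv_mul_cancel₀ hδ0, one_pow]
      calc (b : K) * (c * (δ⁻¹ * δ⁻¹)) = 1 * ((b : K) * (c * (δ⁻¹ * δ⁻¹))) := (one_mul _).symm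
        _ = ((δ⁻¹) ^ (p - 2) * δ ^ (p - 2)) * ((b : K) * (c * (δ⁻¹ * δ⁻¹))) := by rw [h2]
        _ = _ := by ring
    rw [h1, h.pow_mul]
    have h3 : Φ ((((⟨δ, hδ⟩ : B) ^ (p - 2) * b : B) : K) * c) = δ⁻¹ * ((b' : K) * c) := by
      rw [← hb', ← mul_assoc, inv_mul_cancel₀ hδ0, one_mul]
    rw [h3, Algebra.smul_def]
    change (b' : K) * (c * (δ⁻¹ * δ⁻¹)) = _
    ring
  · rw [Submodule.mem_span_singleton]
    refine ⟨⟨δ, hδ⟩ * ⟨δ, hδ⟩, ?_⟩
    rw [Algebra.smul_def]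
    change δ * δ * (c * (δ⁻¹ * δ⁻¹)) = c
    field_simp

/-- [N A hull] -/
theorem p_hull : S_hull := by
  intro p hp K _ _ B hB hF Φ h c
  obtain ⟨Q₀, hfg, hst, hc⟩ := p_hull_ex p K B hB hF Φ h c
  have hft : Algebra.FiniteType (ZMod p) B := (Subalgebra.fg_iff_finiteType B).1 hB
  have hN : IsNoetherianRing B := Algebra.FiniteType.isNoetherianRing (ZMod p) B
  refine ⟨sInf {Q | Stb Φ Q ∧ c ∈ Q}, ?_, ?_, ?_, ?_⟩
  · have hle : sInf {Q | Stb Φ Q ∧ c ∈ Q} ≤ Q₀ := sInf_le ⟨hst, hc⟩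
    have h1 : IsNoetherian B Q₀ := isNoetherian_of_fg_of_noetherian Q₀ hfg
    exact isNoetherian_submodule.1 h1 _ hle
  · intro x hx
    rw [Submodule.mem_sInf] at hx ⊢
    intro Q hQ
    exact hQ.1 x (hx Q hQ)
  · rw [Submodule.mem_sInf]
    intro Q hQ
    exact hQ.2
  · intro Q hQ hcQ
    exact sInf_le ⟨hQ, hcQ⟩

end Pool.Agent.FrNA
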