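import Pool.Agent.Lib.MP_305fdd_al.Fr.N.A.Stm

/-!
# [N A kfk] the alternating products of localisations are those of twists
-/

set_option autoImplicit false

namespace Pool.Agent.FrNA

open Module Polynomial Pool.Agent.FrN Pool.Agent.F2Ch

private theorem kfk_loc {p : ℕ} {K : Type} [Field K] [Algebra (ZMod p) K]
    {B : Subalgebra (ZMod p) K} (y z : B) (M : Submodule B K) :
    loc y (loc z M) = loc (z * y) M := by
  ext x
  constructor
  · rintro ⟨a, b, hb⟩
    refine ⟨a + b, ?_⟩
    have h : (z * y) ^ (a + b) • x = (z ^ a * y ^ b) • (z ^ b • (y ^ a • x)) := by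
      rw [← mul_smul, ← mul_smul]
      congr 1
      ring
    rw [h]
    exact M.smul_mem _ hb
  · rintro ⟨c, hc⟩
    refine ⟨c, c, ?_⟩
    rw [← mul_smul, ← mul_pow]
    exact hc

theorem p_kfk (h1 : S_locf) (h2 : S_Keq) : S_kfk := by
  intro p _ K _ _ B hB Φ h M hM hfg ys
  induction ys with
  | nil =>
    intro z _ hz
    exact (h1 p K B hB Φ h M hM hfg z hz).2
  | cons y ys ih =>
    intro z hys hz
    have hy : y ≠ 0 := hys y List.mem_cons_self
    have hys' : ∀ y ∈ ys, y ≠ 0 := fun y' hy' => hys y' (List.mem_cons_of_mem _ hy')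
    have hzy : z * y ≠ 0 := mul_ne_zero hz hy
    have e1 := ih z hys' hz
    have e2 := ih (z * y) hys' hzy
    have e3 := h2 p B ((toC h M hM).tw ((z * y) ^ (p - 1)))
      (((toC h M hM).tw (z ^ (p - 1))).tw (y ^ (p - 1)))
      (LinearEquiv.refl B (toC h M hM).M) (fun m => by
        change (toC h M hM).C (z ^ (p - 1) • (y ^ (p - 1) • m)) =
          (toC h M hM).C ((z * y) ^ (p - 1) • m)
        rw [← mul_smul, mul_pow]) ys
    change KF h ys (loc z M) / KF h ys (loc y (loc z M)) =
      CMod.KP ys ((toC h M hM).tw (z ^ (p - 1))) /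
        CMod.KP ys (((toC h M hM).tw (z ^ (p - 1))).tw (y ^ (p - 1)))
    rw [kfk_loc, e1, e2, e3]

end Pool.Agent.FrNA
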