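import Pool.Agent.Lib.MP_305fdd_al.Fr.N.A.Stm

/-!
# MP_305fdd_al (`F_r`), nilpotence block, section A, piece locf: localisation in a field
-/

set_option autoImplicit false

namespace Pool.Agent.FrNA

open Module Polynomial Pool.Agent.FrN Pool.Agent.F2Ch

section

variable {p : ℕ} [Fact p.Prime] {K : Type} [Field K] [Algebra (ZMod p) K]

private theorem lf_pow {Φ : K → K} (h : IsPinv p Φ) (n : ℕ) :
    ∀ c y : K, (toEnd h ^ n) (c ^ p ^ n * y) = c * (toEnd h ^ n) y := by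
  induction n with
  | zero =>
    intro c y
    rw [pow_zero, pow_zero, pow_one]
    rfl
  | succ n ih =>
    intro c y
    rw [pow_succ (toEnd h) n, Module.End.mul_apply, Module.End.mul_apply]
    have h1 : (toEnd h) (c ^ p ^ (n + 1) * y) = c ^ p ^ n * (toEnd h) y := by
      rw [pow_succ, pow_mul]
      exact h.pow_mul _ _
    rw [h1, ih]

private theorem lf_st {B : Subalgebra (ZMod p) K} {Φ : K → K} (h : IsPinv p Φ)
    (M : Submodule B K) (hM : Stb Φ M) (n : ℕ) : ∀ x ∈ M, (toEnd h ^ n) x ∈ M := by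
  induction n with
  | zero => intro x hx; exact hx
  | succ n ih =>
    intro x hx
    rw [pow_succ, Module.End.mul_apply]
    exact ih _ (hM x hx)

private theorem lf_loc {B : Subalgebra (ZMod p) K} {Φ : K → K} (h : IsPinv p Φ)
    (M : Submodule B K) (hM : Stb Φ M) (z : B) :
    ∀ v ∈ (loc z M).restrictScalars (ZMod p), toEnd h v ∈ (loc z M).restrictScalars (ZMod p) := by
  rintro v ⟨a, ha⟩
  refine ⟨a, ?_⟩
  have hp := (Fact.out : p.Prime).one_le
  have e1 : z ^ a • (toEnd h v) = Φ (z ^ (a * (p - 1)) • (z ^ a • v)) := by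
    have h1 : Φ (((z : K) ^ a) ^ p * v) = (z : K) ^ a * Φ v := h.pow_mul _ _
    have h2 : ((z ^ (a * (p - 1)) • (z ^ a • v) : K)) = ((z : K) ^ a) ^ p * v := by
      rw [← mul_smul, ← pow_add, Algebra.smul_def, ← pow_mul]
      have h3 : a * (p - 1) + a = a * p := by
        conv_rhs => rw [← Nat.sub_add_cancel hp, Nat.mul_add, Nat.mul_one]
      rw [h3, map_pow]
      rfl
    rw [h2, h1, Algebra.smul_def, map_pow]
    rfl
  change z ^ a • (toEnd h v) ∈ M
  rw [e1]
  exact hM _ (M.smul_mem _ ha)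

end

theorem p_locf (h1 : I_nuc) : S_locf := by
  intro p _ K _ _ B hB Φ h M hM hfg z hz
  have hp := (Fact.out : p.Prime).one_le
  have hz' : (z : K) ≠ 0 := fun h0 => hz (Subtype.ext h0)
  have hft : Algebra.FiniteType (ZMod p) B := (Subalgebra.fg_iff_finiteType B).1 hB
  have hfin : Module.Finite B ((toC h M hM).tw (z ^ (p - 1))).M := by
    change Module.Finite B M
    exact Module.Finite.iff_fg.2 hfg
  obtain ⟨W, hW⟩ := h1 p B ((toC h M hM).tw (z ^ (p - 1)))
  rw [nuc_top] at hW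
  have hst := lf_loc h M hM z
  have hmem : ∀ m : M, (z : K)⁻¹ * (m : K) ∈ (loc z M).restrictScalars (ZMod p) := by
    intro m
    refine ⟨1, ?_⟩
    rw [pow_one]
    have e : z • ((z : K)⁻¹ * (m : K)) = m := by
      rw [Algebra.smul_def]
      exact mul_inv_cancel_left₀ hz' _
    rw [e]
    exact m.2
  let φ : ((toC h M hM).tw (z ^ (p - 1))).M →ₗ[ZMod p] (loc z M).restrictScalars (ZMod p) :=
    { toFun := fun m => ⟨(z : K)⁻¹ * Subtype.val (p := fun x => x ∈ M) m, hmem m⟩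
      map_add' := fun m m' => Subtype.ext (mul_add _ _ _)
      map_smul' := fun c m => Subtype.ext (mul_smul_comm c _ _) }
  have hφ : ∀ m : M, ((φ m : (loc z M).restrictScalars (ZMod p)) : K) = (z : K)⁻¹ * (m : K) :=
    fun m => rfl
  have hcomm : (toEnd h).restrict hst ∘ₗ φ = φ ∘ₗ ((toC h M hM).tw (z ^ (p - 1))).C := by
    apply LinearMap.ext
    intro m
    apply Subtype.ext
    obtain ⟨m, hm⟩ : M := m
    change Φ ((z : K)⁻¹ * m) = (z : K)⁻¹ * Φ ((z ^ (p - 1) : B) • m)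
    rw [← h.pow_mul]
    congr 1
    rw [Algebra.smul_def, map_pow, ← mul_assoc]
    congr 1
    change (z : K)⁻¹ = (z : K)⁻¹ ^ p * (z : K) ^ (p - 1)
    have h3 : (z : K)⁻¹ ^ p = (z : K)⁻¹ * (z : K)⁻¹ ^ (p - 1) := by
      rw [← pow_succ', Nat.sub_add_cancel hp]
    rw [h3, mul_assoc, ← mul_pow, inv_mul_cancel₀ hz', one_pow, mul_one]
  have hcok : ∀ v', ∃ n : ℕ, (((toEnd h).restrict hst) ^ n) v' ∈ LinearMap.range φ := by
    rintro ⟨x, a, ha⟩
    refine ⟨a, ?_⟩
    have h2 := pow_comm (i := ((loc z M).restrictScalars (ZMod p)).subtype)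
      (f := (toEnd h).restrict hst) (f' := toEnd h) (LinearMap.ext fun x => rfl) a ⟨x, a, ha⟩
    have hle : a ≤ p ^ a := (Nat.lt_pow_self (Fact.out : p.Prime).one_lt).le
    have hm : z ^ (p ^ a - a) • (z ^ a • x) ∈ M := M.smul_mem _ ha
    have hm2 := lf_st h M hM a _ hm
    have hx : x = (z : K)⁻¹ ^ p ^ a * (z ^ (p ^ a - a) • (z ^ a • x)) := by
      rw [← mul_smul, ← pow_add, Nat.sub_add_cancel hle, Algebra.smul_def, map_pow]
      change x = (z : K)⁻¹ ^ p ^ a * ((z : K) ^ p ^ a * x)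
      rw [← mul_assoc, ← mul_pow, inv_mul_cancel₀ hz', one_pow, one_mul]
    refine ⟨(⟨_, hm2⟩ : M), Subtype.ext ?_⟩
    rw [hφ]
    change (z : K)⁻¹ * (toEnd h ^ a) (z ^ (p ^ a - a) • (z ^ a • x)) = _
    rw [← lf_pow h a, ← hx]
    exact h2
  have hker : ∀ v, φ v = 0 → ∃ n : ℕ, (((toC h M hM).tw (z ^ (p - 1))).C ^ n) v = 0 := by
    intro v hv
    refine ⟨0, ?_⟩
    obtain ⟨v, hv'⟩ : M := v
    have h0 : (z : K)⁻¹ * v = 0 := congrArg Subtype.val hv
    have h2 : v = 0 := by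
      rcases mul_eq_zero.1 h0 with h3 | h3
      · exact absurd h3 (inv_ne_zero hz')
      · exact h3
    exact (Subtype.ext h2 : (⟨v, hv'⟩ : M) = 0)
  have hA := hW.map hcomm hcok
  have hNuc := restrict_nuc hst hA
  refine ⟨⟨_, hNuc⟩, ?_⟩
  change PV (toEnd h) ((loc z M).restrictScalars (ZMod p)) =
    PV ((toC h M hM).tw (z ^ (p - 1))).C ⊤
  apply Units.ext
  rw [coe_PV, coe_PV, PP_restrict hst hNuc, PP_top hW]
  rw [absP_hom hW hcomm hker hcok]

end Pool.Agent.FrNA
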