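import Pool.Agent.Lib.MP_305fdd_al.Fr.N.A.Stm

set_option autoImplicit false

namespace Pool.Agent.FrNA

/-- `B` is congruent to `1` modulo `q` -/
private def MatD {n : ℕ} (q : ℤ) (B : Matrix (Fin n) (Fin n) ℤ) : Prop := ∃ Y, B = 1 + q • Y

private theorem matD_one {n : ℕ} (q : ℤ) : MatD q (1 : Matrix (Fin n) (Fin n) ℤ) :=
  ⟨0, by rw [smul_zero, add_zero]⟩

private theorem matD_mul {n : ℕ} {q : ℤ} {B C : Matrix (Fin n) (Fin n) ℤ} (hB : MatD q B)
    (hC : MatD q C) : MatD q (B * C) := by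
  obtain ⟨Y, rfl⟩ := hB
  obtain ⟨Z, rfl⟩ := hC
  refine ⟨Y + Z + q • (Y * Z), ?_⟩
  simp only [add_mul, mul_add, one_mul, mul_one, smul_mul_assoc, mul_smul_comm, smul_add]
  abel

private theorem matD_pow {n : ℕ} {q : ℤ} {B : Matrix (Fin n) (Fin n) ℤ} (hB : MatD q B) (m : ℕ) :
    MatD q (B ^ m) := by
  induction m with
  | zero => rw [pow_zero]; exact matD_one q
  | succ m ih => rw [pow_succ]; exact matD_mul ih hB

private theorem matD_mono {n : ℕ} {q r : ℤ} {B : Matrix (Fin n) (Fin n) ℤ} (hB : MatD q B)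
    (h : r ∣ q) : MatD r B := by
  obtain ⟨Y, rfl⟩ := hB
  obtain ⟨c, rfl⟩ := h
  exact ⟨c • Y, by rw [smul_smul]⟩

private theorem matD_step {n : ℕ} (p : ℕ) {q : ℤ} (hq : (p : ℤ) ∣ q)
    {B : Matrix (Fin n) (Fin n) ℤ} (hB : MatD q B) : MatD (q * p) (B ^ p) := by
  have h1 : ∀ m : ℕ, MatD (p : ℤ) (B ^ m) := fun m => matD_pow (matD_mono hB hq) m
  choose Z hZ using h1
  have h2 : ∑ i ∈ Finset.range p, B ^ i = (p : ℤ) • (1 + ∑ i ∈ Finset.range p, Z i) := by
    rw [Finset.sum_congr rfl fun i _ => hZ i, Finset.sum_add_distrib, Finset.sum_const,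
      Finset.card_range, ← Finset.smul_sum, smul_add, natCast_zsmul, natCast_zsmul]
  obtain ⟨Y, hY⟩ := hB
  have h3 := mul_geom_sum B p
  have h4 : B - 1 = q • Y := by rw [hY, add_sub_cancel_left]
  rw [h2, h4] at h3
  refine ⟨Y * (1 + ∑ i ∈ Finset.range p, Z i), ?_⟩
  have h5 : B ^ p = 1 + (B ^ p - 1) := by abel
  rw [h5, ← h3, smul_mul_assoc, mul_smul_comm, smul_smul]

/-- [N G mat] -/
theorem p_mat : S_mat := by
  intro p hp n A hA
  obtain ⟨u, hu⟩ := hA
  have hfin : Finite (Matrix (Fin n) (Fin n) (ZMod p))ˣ := inferInstance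
  have h1 : MatD (p : ℤ) (A ^ orderOf u) := by
    have h2 : (Int.castRingHom (ZMod p)).mapMatrix (A ^ orderOf u) = 1 := by
      rw [map_pow, RingHom.mapMatrix_apply, ← hu, ← Units.val_pow_eq_pow_val, pow_orderOf_eq_one,
        Units.val_one]
    have h3 : ∀ i j, ∃ c, (A ^ orderOf u) i j = (1 : Matrix (Fin n) (Fin n) ℤ) i j + p * c := by
      intro i j
      have h4 := congrFun (congrFun h2 i) j
      rw [RingHom.mapMatrix_apply, Matrix.map_apply] at h4
      have h5 : (Int.castRingHom (ZMod p)) ((1 : Matrix (Fin n) (Fin n) ℤ) i j) =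
          (1 : Matrix (Fin n) (Fin n) (ZMod p)) i j := by
        by_cases hij : i = j
        · subst hij
          rw [Matrix.one_apply_eq, Matrix.one_apply_eq, map_one]
        · rw [Matrix.one_apply_ne hij, Matrix.one_apply_ne hij, map_zero]
      rw [← h5, ← sub_eq_zero, ← map_sub] at h4
      have h6 : ((((A ^ orderOf u) i j - (1 : Matrix (Fin n) (Fin n) ℤ) i j : ℤ)) : ZMod p) = 0 :=
        h4
      rw [ZMod.intCast_zmod_eq_zero_iff_dvd] at h6
      obtain ⟨c, hc⟩ := h6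
      exact ⟨c, by rw [← hc]; ring⟩
    choose c hc using h3
    refine ⟨fun i j => c i j, ?_⟩
    ext i j
    rw [hc i j]
    rfl
  have h2 : ∀ i : ℕ, MatD ((p : ℤ) ^ (i + 1)) (A ^ (orderOf u * p ^ i)) := by
    intro i
    induction i with
    | zero => simpa using h1
    | succ i ih =>
      rw [pow_succ (p : ℤ), pow_succ p, ← mul_assoc, pow_mul A]
      exact matD_step p (dvd_pow_self _ (Nat.succ_ne_zero i)) ih
  refine ⟨orderOf u, orderOf_pos u, ?_⟩
  rintro i k ⟨m, rfl⟩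
  obtain ⟨Y, hY⟩ := matD_pow (h2 i) m
  rw [pow_mul, hY, Matrix.trace_add, Matrix.trace_one, Fintype.card_fin, Matrix.trace_smul,
    add_sub_cancel_left, smul_eq_mul]
  exact dvd_mul_right _ _

end Pool.Agent.FrNA
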