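import Pool.Agent.Lib.MP_305fdd_al.Fr.N.A.Stm

set_option autoImplicit false

namespace Pool.Agent.FrNA

open Module Polynomial Pool.Agent.FrN Pool.Agent.F2Ch

theorem p_tw2 (h1 : I_nuc) : S_tw2 := by
  intro p _ B _ _ _ X _ y
  have hp2 : 2 ≤ p := (Fact.out : p.Prime).two_le
  obtain ⟨q, rfl⟩ : ∃ q, p = q + 2 := ⟨p - 2, by omega⟩
  have hf1 : Module.Finite B (X.tw (y ^ (q + 2 - 1))).M := inferInstanceAs (Module.Finite B X.M)
  have hf2 : Module.Finite B (X.tw (y ^ (2 * (q + 2 - 1)))).M :=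
    inferInstanceAs (Module.Finite B X.M)
  obtain ⟨W, hW⟩ := h1 (q + 2) B (X.tw (y ^ (q + 2 - 1)))
  obtain ⟨W', hW'⟩ := h1 (q + 2) B (X.tw (y ^ (2 * (q + 2 - 1))))
  have hA := nuc_top.1 hW
  have hA' := nuc_top.1 hW'
  let φ : (X.tw (y ^ (q + 2 - 1))).M →ₗ[ZMod (q + 2)] (X.tw (y ^ (2 * (q + 2 - 1)))).M :=
    { toFun := fun m => (show X.M from y • (show X.M from m))
      map_add' := fun m m' => smul_add y (show X.M from m) (show X.M from m')
      map_smul' := fun c m => smul_comm y c (show X.M from m) }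
  have key := absP_hom (f := (X.tw (y ^ (q + 2 - 1))).C) (f' := (X.tw (y ^ (2 * (q + 2 - 1)))).C)
    (φ := φ) hA ?_ ?_ ?_
  · unfold CMod.P
    rw [Units.ext_iff, coe_PV, coe_PV, PP_top hA, PP_top hA', key]
  · apply LinearMap.ext
    intro m
    show X.C (y ^ (2 * (q + 2 - 1)) • y • (show X.M from m)) =
      y • X.C (y ^ (q + 2 - 1) • (show X.M from m))
    rw [← X.hC, smul_smul, smul_smul, ← pow_succ, ← pow_add]
    congr 3
    omega
  · intro m hm
    have hm' : y • (show X.M from m) = 0 := hm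
    refine ⟨1, ?_⟩
    rw [pow_one]
    show X.C (y ^ (q + 2 - 1) • (show X.M from m)) = 0
    have : q + 2 - 1 = q + 1 := by omega
    rw [this, pow_succ, mul_smul, hm', smul_zero, map_zero]
  · intro m
    refine ⟨1, ?_⟩
    rw [pow_one]
    refine ⟨(show X.M from X.C (y ^ q • (show X.M from m))), ?_⟩
    show y • X.C (y ^ q • (show X.M from m)) = X.C (y ^ (2 * (q + 2 - 1)) • (show X.M from m))
    rw [← X.hC, smul_smul, ← pow_add]
    congr 3
    omega

end Pool.Agent.FrNA
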