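import Pool.Agent.Lib.MP_305fdd_al.Fr.N.A.p_van
import Pool.Agent.Lib.MP_305fdd_al.Fr.N.A.p_A6
import Pool.Agent.Lib.MP_305fdd_al.Fr.N.A.p_Kex
import Pool.Agent.Lib.MP_305fdd_al.Fr.N.A.p_Keq
import Pool.Agent.Lib.MP_305fdd_al.Fr.N.A.p_Kone
import Pool.Agent.Lib.MP_305fdd_al.Fr.N.A.p_Kstep
import Pool.Agent.Lib.MP_305fdd_al.Fr.N.A.p_Kzero
import Pool.Agent.Lib.MP_305fdd_al.Fr.N.A.p_NS
import Pool.Agent.Lib.MP_305fdd_al.Fr.N.A.p_end
import Pool.Agent.Lib.MP_305fdd_al.Fr.N.A.p_euler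
import Pool.Agent.Lib.MP_305fdd_al.Fr.N.A.p_fil
import Pool.Agent.Lib.MP_305fdd_al.Fr.N.A.p_filabs
import Pool.Agent.Lib.MP_305fdd_al.Fr.N.A.p_ghost
import Pool.Agent.Lib.MP_305fdd_al.Fr.N.A.p_hull
import Pool.Agent.Lib.MP_305fdd_al.Fr.N.A.p_kfk
import Pool.Agent.Lib.MP_305fdd_al.Fr.N.A.p_locf
import Pool.Agent.Lib.MP_305fdd_al.Fr.N.A.p_mat
import Pool.Agent.Lib.MP_305fdd_al.Fr.N.A.p_tw2

/-!
# MP_305fdd_al (`F_r`), nilpotence block, sections A and G: the interfaces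
-/

set_option autoImplicit false

namespace Pool.Agent.FrNA

open Module Polynomial Pool.Agent.FrN Pool.Agent.F2Ch

open Pool.Agent.F2TF (LD)

/-! ### the pieces without hypotheses -/

theorem t_nuc : I_nuc := by
  intro p _ R _ _ _ X _
  obtain ⟨W, hW⟩ := p_fil p R X
  obtain ⟨j₀, hj⟩ := p_filabs p R X W hW 1
  have h := hj j₀ le_rfl
  have e : ∀ m : X.M, (X.tw 1).C m = X.C m := fun m => by rw [CMod.tw_apply, one_smul]
  have e' : (X.tw 1).C = X.C := LinearMap.ext e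
  exact ⟨W j₀, nuc_top.2 (e' ▸ h)⟩

theorem t_van' : S_van := p_van' p_fil p_filabs

theorem t_tw2 : S_tw2 := p_tw2 t_nuc

theorem t_Kex : S_Kex := p_Kex t_nuc

theorem t_Kstep : S_Kstep := p_Kstep t_Kex

theorem t_Kone : S_Kone := p_Kone t_Kstep

theorem t_Kzero : S_Kzero := p_Kzero t_Kstep p_Keq

theorem t_NS : S_NS := p_NS t_van' p_Keq

theorem t_A6' : S_A6 := p_A6 t_van' t_tw2 p_Keq

theorem t_locf : S_locf := p_locf t_nuc

theorem t_kfk : S_kfk := p_kfk t_locf p_Keq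

/-! ### auxiliary facts -/

theorem noeth {p : ℕ} [Fact p.Prime] {R : Type} [CommRing R] [Algebra (ZMod p) R]
    [Algebra.FiniteType (ZMod p) R] : IsNoetherianRing R :=
  Algebra.FiniteType.isNoetherianRing (ZMod p) R

theorem fin_kr {p : ℕ} [Fact p.Prime] {R : Type} [CommRing R] [Algebra (ZMod p) R]
    [Algebra.FiniteType (ZMod p) R] (X : CMod p R) [Module.Finite R X.M] (y : R) :
    Module.Finite R (X.kr y).M := by
  have := noeth (p := p) (R := R)
  exact inferInstanceAs (Module.Finite R (LinearMap.ker (LinearMap.lsmul R X.M y)))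

theorem fin_qt {p : ℕ} [Fact p.Prime] {R : Type} [CommRing R] [Algebra (ZMod p) R]
    (X : CMod p R) [Module.Finite R X.M] (y : R) :
    Module.Finite R (X.qt y).M :=
  inferInstanceAs (Module.Finite R (X.M ⧸ LinearMap.range (LinearMap.lsmul R X.M y)))

theorem ft_of_fg {p : ℕ} {K : Type} [Field K] [Algebra (ZMod p) K] {B : Subalgebra (ZMod p) K}
    (hB : B.FG) : Algebra.FiniteType (ZMod p) B :=
  (Subalgebra.fg_iff_finiteType B).1 hB

theorem fin_toC {p : ℕ} [Fact p.Prime] {K : Type} [Field K] [Algebra (ZMod p) K]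
    {B : Subalgebra (ZMod p) K} {Φ : K → K} (h : IsPinv p Φ) (M : Submodule B K) (hM : Stb Φ M)
    (hfg : M.FG) : Module.Finite B (toC h M hM).M := Module.Finite.iff_fg.2 hfg

theorem loc_one' {p : ℕ} {K : Type} [Field K] [Algebra (ZMod p) K]
    {B : Subalgebra (ZMod p) K} (M : Submodule B K) : loc (1 : B) M = M := by
  ext x
  constructor
  · rintro ⟨a, ha⟩
    rwa [one_pow, one_smul] at ha
  · intro hx
    exact ⟨0, by rwa [pow_zero, one_smul]⟩

/-- a twist by `1` -/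
theorem KP_tw_one {p : ℕ} [Fact p.Prime] {R : Type} [CommRing R] [Algebra (ZMod p) R]
    (X : CMod p R) (ys : List R) : CMod.KP ys (X.tw 1) = CMod.KP ys X :=
  (p_Keq p R (X.tw 1) X (LinearEquiv.refl R X.M) (fun m => by
    show X.C m = X.C ((1 : R) • m)
    rw [one_smul]) ys).symm

theorem P_tw_one {p : ℕ} [Fact p.Prime] {R : Type} [CommRing R] [Algebra (ZMod p) R]
    (X : CMod p R) : (X.tw 1).P = X.P := KP_tw_one X []

/-! ### the interfaces -/

theorem t_abs : I_abs := p_abs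

theorem t_ex : I_ex := p_ex

theorem t_nil : I_nil := p_nil

theorem t_hull : I_hull := p_hull

theorem t_kos : I_kos := by
  intro p _ R _ _ _ X _ ys
  induction ys generalizing X with
  | nil => rfl
  | cons y ys ih =>
    have h1 := fin_kr X y
    have h2 := fin_qt X y
    rw [t_Kstep p R X y ys, ih (X.kr y), ih (X.qt y)]
    rfl

/-- `KF` of a finitely generated stable submodule -/
theorem KF_eq {p : ℕ} [Fact p.Prime] {K : Type} [Field K] [Algebra (ZMod p) K]
    {B : Subalgebra (ZMod p) K} (hB : B.FG) {Φ : K → K} (h : IsPinv p Φ) (M : Submodule B K)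
    (hM : Stb Φ M) (hfg : M.FG) (ys : List B) (hys : ∀ y ∈ ys, y ≠ 0) :
    KF h ys M = CMod.KP ys (toC h M hM) := by
  have h1 := t_kfk p K B hB Φ h M hM hfg ys 1 hys one_ne_zero
  rw [loc_one', one_pow, KP_tw_one] at h1
  exact h1

theorem t_kf : I_kf := by
  intro p _ K _ _ B hB Φ h M hM hfg ys hys
  have := ft_of_fg hB
  have := fin_toC h M hM hfg
  rw [KF_eq hB h M hM hfg ys hys, t_kos p B (toC h M hM) ys]

theorem t_one : I_one := by
  intro p _ K _ _ B hB Φ h M hM hfg ys hys hone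
  have := ft_of_fg hB
  have := fin_toC h M hM hfg
  rw [KF_eq hB h M hM hfg ys hys]
  exact t_Kone p B ys (toC h M hM) ⟨1, by rw [hone]; exact Submodule.mem_top,
    fun m => one_smul B m⟩

theorem t_zero : I_zero := by
  intro p _ K _ _ B hB Φ h M hM hfg ys y hys hy hmem
  have := ft_of_fg hB
  have := fin_toC h M hM hfg
  rw [t_kfk p K B hB Φ h M hM hfg ys y hys hy]
  exact t_Kzero p B ys (toC h M hM) y ⟨y, hmem, fun m => rfl⟩

theorem t_nucf : I_nucf := by
  intro p _ K _ _ B hB Φ h M hM hfg y hy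
  exact (t_locf p K B hB Φ h M hM hfg y hy).1

theorem t_van : I_van := by
  intro p _ R _ _ _ X _ d hd
  have h1 : (X.tw 1).P ∈ Ud (ZMod p) d :=
    t_van' p R X d ⊤ (fun k h1 h2 => (hd k h1 h2).ge) 1 (by
      rw [← Ideal.one_eq_top, mul_one, Ideal.one_eq_top]; exact Submodule.mem_top)
  rw [P_tw_one] at h1
  exact h1

theorem t_A6 : I_A6 := by
  intro p _ R _ _ _ X _ d ys hys
  have h1 := t_A6' p R X d (⨅ k ∈ Finset.Icc 1 d, frI p k R)
    (fun k h1 h2 => iInf₂_le k (Finset.mem_Icc.2 ⟨h1, h2⟩)) ys (fun y hy => by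
      simp only [Ideal.mem_iInf]
      intro k hk
      obtain ⟨h1, h2⟩ := Finset.mem_Icc.1 hk
      exact hys y hy k h1 h2)
  rw [t_kos] at h1
  exact div_mem_Ud.1 h1

theorem t_vanf : I_vanf := by
  intro p _ K _ _ B hB Φ h M hM hfg d y hy hyk
  have := ft_of_fg hB
  have := fin_toC h M hM hfg
  have hp : 2 ≤ p := (Fact.out : p.Prime).two_le
  rw [(t_locf p K B hB Φ h M hM hfg y hy).2, t_tw2 p B (toC h M hM) y]
  have h1 := t_van' p B (toC h M hM) d (⨅ k ∈ Finset.Icc 1 d, frI p k B)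
    (fun k h1 h2 => iInf₂_le k (Finset.mem_Icc.2 ⟨h1, h2⟩)) (y ^ (2 * (p - 1))) (by
      have hyJ : y ∈ (⨅ k ∈ Finset.Icc 1 d, frI p k B : Ideal B) := by
        simp only [Ideal.mem_iInf]
        intro k hk
        obtain ⟨h1, h2⟩ := Finset.mem_Icc.1 hk
        exact hyk k h1 h2
      rw [two_mul, pow_add]
      exact Ideal.mul_mem_mul (Ideal.pow_mem_of_mem _ hyJ _ (by omega))
        (Ideal.pow_mem_of_mem _ hyJ _ (by omega)))
  exact h1

theorem t_ldmod : I_ldmod := by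
  intro p _ f g s t hf hg hfg k i hk hik
  refine p_ghost p f g s t k hf hg (fun j _ => ?_) k i hk le_rfl hik
  have h1 := congrArg (fun u : (PowerSeries (ZMod p))ˣ =>
    PowerSeries.coeff j (u : PowerSeries (ZMod p))) hfg
  have h2 : ∀ u : (PowerSeries ℤ)ˣ, PowerSeries.coeff j ((red p u : (PowerSeries (ZMod p))ˣ) :
      PowerSeries (ZMod p)) = ((PowerSeries.coeff j (u : PowerSeries ℤ) : ℤ) : ZMod p) := by
    intro u
    rfl
  simp only [h2] at h1
  rw [← ZMod.intCast_zmod_eq_zero_iff_dvd, Int.cast_sub, h1, sub_self]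

theorem t_G : I_G := p_end p_ghost p_mat

end Pool.Agent.FrNA
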