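import Pool.Agent.Lib.MP_305fdd_al.Fr.N.A.VanLin

/-!
# MP_305fdd_al (`F_r`), nilpotence block, section A: vanishing, abstract form

`A` a ring, `β : B → A`, `c ∈ A` with `β b * c = c * β (b ^ p)` and `c ^ (d + 1) = 0`.
-/

set_option autoImplicit false

namespace Pool.Agent.FrNA

open Module

section

variable {p : ℕ} {B A : Type} [CommRing B] [Ring A] (β : B →+* A) (c : A)

/-- the operator `c ^ i g` -/
def op (i : ℕ) (g : B) : A := c ^ i * β g

variable {β c}

theorem mul_c_pow (hc : ∀ b, β b * c = c * β (b ^ p)) (j : ℕ) (g : B) :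
    β g * c ^ j = c ^ j * β (g ^ p ^ j) := by
  induction j generalizing g with
  | zero => simp
  | succ j ih => rw [pow_succ, ← mul_assoc, ih, mul_assoc, hc, ← mul_assoc, ← pow_succ, ← pow_mul,
      ← pow_succ]

theorem op_mul (hc : ∀ b, β b * c = c * β (b ^ p)) (i j : ℕ) (g h : B) :
    op β c i g * op β c j h = op β c (i + j) (g ^ p ^ j * h) := by
  rw [op, op, op, mul_assoc, ← mul_assoc (β g), mul_c_pow hc, mul_assoc, ← mul_assoc (c ^ i),
    ← pow_add, map_mul]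

theorem op_add (i : ℕ) (g h : B) : op β c i (g + h) = op β c i g + op β c i h := by
  rw [op, op, op, map_add, mul_add]

theorem op_zero (i : ℕ) : op β c i 0 = 0 := by
  rw [op, map_zero, mul_zero]

theorem op_neg (i : ℕ) (g : B) : op β c i (-g) = - op β c i g := by
  rw [op, op, map_neg, mul_neg]

theorem op_sub (i : ℕ) (g h : B) : op β c i (g - h) = op β c i g - op β c i h := by
  rw [op, op, op, map_sub, mul_sub]

theorem op_mx (i : ℕ) (g x : B) : op β c i g * β x = op β c i (g * x) := by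
  rw [op, op, mul_assoc, map_mul]

theorem mx_op (hc : ∀ b, β b * c = c * β (b ^ p)) (i : ℕ) (g x : B) :
    β x * op β c i g = op β c i (x ^ p ^ i * g) := by
  rw [op, op, ← mul_assoc, mul_c_pow hc, mul_assoc, map_mul]

variable (β c)

/-- the additive group generated by the operators `c ^ i g`, `i ≥ k`, `g ∈ J` -/
def NN (k : ℕ) (J : Ideal B) : AddSubgroup A :=
  AddSubgroup.closure {ν | ∃ i g, k ≤ i ∧ g ∈ J ∧ ν = op β c i g}

variable {β c}

theorem op_mem {k i : ℕ} {J : Ideal B} {g : B} (hi : k ≤ i) (hg : g ∈ J) :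
    op β c i g ∈ NN β c k J :=
  AddSubgroup.subset_closure ⟨i, g, hi, hg, rfl⟩

theorem NN_mono {k l : ℕ} {J J' : Ideal B} (hk : l ≤ k) (hJ : J ≤ J') :
    NN β c k J ≤ NN β c l J' := by
  rw [NN, AddSubgroup.closure_le]
  rintro _ ⟨i, g, hi, hg, rfl⟩
  exact op_mem (hk.trans hi) (hJ hg)

theorem NN_mul (hp : p ≠ 0) (hc : ∀ b, β b * c = c * β (b ^ p)) {k l : ℕ} {J J' : Ideal B}
    {ν ν' : A} (h : ν ∈ NN β c k J) (h' : ν' ∈ NN β c l J') :
    ν * ν' ∈ NN β c (k + l) (J * J') := by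
  induction h using AddSubgroup.closure_induction with
  | mem ν hν =>
    obtain ⟨i, g, hi, hg, rfl⟩ := hν
    induction h' using AddSubgroup.closure_induction with
    | mem ν' hν' =>
      obtain ⟨j, g', hj, hg', rfl⟩ := hν'
      rw [op_mul hc]
      have hne : p ^ j ≠ 0 := pow_ne_zero _ hp
      exact op_mem (by omega) (Ideal.mul_mem_mul (J.pow_mem_of_mem hg _
        (Nat.pos_of_ne_zero hne)) hg')
    | zero => rw [mul_zero]; exact zero_mem _
    | add a b _ _ ha hb => rw [mul_add]; exact add_mem ha hb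
    | neg a _ ha => rw [mul_neg]; exact neg_mem ha
  | zero => rw [zero_mul]; exact zero_mem _
  | add a b _ _ ha hb => rw [add_mul]; exact add_mem ha hb
  | neg a _ ha => rw [neg_mul]; exact neg_mem ha

/-- splitting off the lowest term -/
theorem NN_split {k : ℕ} {J : Ideal B} {ν : A} (h : ν ∈ NN β c k J) :
    ∃ g ∈ J, ν - op β c k g ∈ NN β c (k + 1) J := by
  induction h using AddSubgroup.closure_induction with
  | mem ν hν =>
    obtain ⟨i, g, hi, hg, rfl⟩ := hν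
    rcases hi.eq_or_lt with h1 | h1
    · subst h1
      exact ⟨g, hg, by rw [sub_self]; exact zero_mem _⟩
    · refine ⟨0, J.zero_mem, ?_⟩
      rw [op_zero, sub_zero]
      exact op_mem h1 hg
  | zero => exact ⟨0, J.zero_mem, by rw [op_zero, sub_zero]; exact zero_mem _⟩
  | add a b _ _ ha hb =>
    obtain ⟨g, hg, h1⟩ := ha
    obtain ⟨g', hg', h2⟩ := hb
    refine ⟨g + g', J.add_mem hg hg', ?_⟩
    have := add_mem h1 h2
    rw [op_add]
    convert this using 1
    abel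
  | neg a _ ha =>
    obtain ⟨g, hg, h1⟩ := ha
    refine ⟨-g, J.neg_mem hg, ?_⟩
    have := neg_mem h1
    rw [op_neg]
    convert this using 1
    abel

theorem NN_top {d : ℕ} (hd : c ^ (d + 1) = 0) {J : Ideal B} {ν : A}
    (h : ν ∈ NN β c (d + 1) J) : ν = 0 := by
  induction h using AddSubgroup.closure_induction with
  | mem ν hν =>
    obtain ⟨i, g, hi, hg, rfl⟩ := hν
    obtain ⟨k, rfl⟩ := Nat.exists_eq_add_of_le hi
    rw [op, pow_add, hd, zero_mul, zero_mul]
  | zero => rfl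
  | add a b _ _ ha hb => rw [ha, hb, add_zero]
  | neg a _ ha => rw [ha, neg_zero]

/-- powers -/
theorem NN_pow (hp : p ≠ 0) (hc : ∀ b, β b * c = c * β (b ^ p)) {k : ℕ} {J : Ideal B} {ν : A}
    (h : ν ∈ NN β c k J) (n : ℕ) : ν ^ (n + 1) ∈ NN β c (k * (n + 1)) J := by
  induction n with
  | zero => simpa using h
  | succ n ih =>
    rw [pow_succ]
    exact NN_mono (le_of_eq (by ring)) Ideal.mul_le_right (NN_mul hp hc ih h)

/-- the inverse of `1 - ν` -/
theorem NN_inv (hp : p ≠ 0) (hc : ∀ b, β b * c = c * β (b ^ p)) {d : ℕ} (hd : c ^ (d + 1) = 0)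
    {k : ℕ} (hk : 1 ≤ k) {J : Ideal B} {ν : A} (h : ν ∈ NN β c k J) :
    ∃ S ∈ NN β c k J, (1 + S) * (1 - ν) = 1 ∧ (1 - ν) * (1 + S) = 1 := by
  have h0 : ν ^ (d + 1) = 0 :=
    NN_top hd (NN_mono (by nlinarith) le_rfl (NN_pow hp hc h d))
  refine ⟨∑ i ∈ Finset.range d, ν ^ (i + 1), ?_, ?_, ?_⟩
  · refine sum_mem fun i _ => NN_mono (by nlinarith) le_rfl (NN_pow hp hc h i)
  · have e1 : 1 + ∑ i ∈ Finset.range d, ν ^ (i + 1) = ∑ i ∈ Finset.range (d + 1), ν ^ i := by
      rw [Finset.sum_range_succ', pow_zero, add_comm]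
    rw [e1, geom_sum_mul_neg, h0, sub_zero]
  · have e1 : 1 + ∑ i ∈ Finset.range d, ν ^ (i + 1) = ∑ i ∈ Finset.range (d + 1), ν ^ i := by
      rw [Finset.sum_range_succ', pow_zero, add_comm]
    rw [e1, mul_neg_geom_sum, h0, sub_zero]

end

/-! ### determinants -/

section

variable {p : ℕ} {R N B : Type} [CommRing R] [AddCommGroup N] [Module R N] [CommRing B]
  {β : B →+* Module.End R N} {c : Module.End R N} {W : ℕ → Submodule R N}

/-- the contraction property -/
def Con (β : B →+* Module.End R N) (c : Module.End R N) (W : ℕ → Submodule R N) : Prop :=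
  ∀ (i : ℕ) (g : B), 1 ≤ i → ∀ a, ∃ j₀, ∀ j, j₀ ≤ j → ∀ v ∈ W (j + a), (op β c i g) v ∈ W j

theorem NN_con (hW : Con β c W) {k : ℕ} (hk : 1 ≤ k) {J : Ideal B}
    {ν : Module.End R N} (h : ν ∈ NN β c k J) (a : ℕ) :
    ∃ j₀, ∀ j, j₀ ≤ j → ∀ x ∈ W (j + a), ν x ∈ W j := by
  induction h using AddSubgroup.closure_induction with
  | mem ν hν =>
    obtain ⟨i, g, hi, hg, rfl⟩ := hν
    exact hW i g (hk.trans hi) a
  | zero => exact ⟨0, fun j _ x _ => Submodule.zero_mem _⟩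
  | add u v _ _ hu hv =>
    obtain ⟨j₀, h1⟩ := hu
    obtain ⟨j₁, h2⟩ := hv
    exact ⟨max j₀ j₁, fun j hj x hx => Submodule.add_mem _ (h1 j (le_of_max_le_left hj) x hx)
      (h2 j (le_of_max_le_right hj) x hx)⟩
  | neg u _ hu =>
    obtain ⟨j₀, h1⟩ := hu
    exact ⟨j₀, fun j hj x hx => Submodule.neg_mem _ (h1 j hj x hx)⟩

/-- `u` preserves `W j` for large `j` -/
def St (W : ℕ → Submodule R N) (u : Module.End R N) : Prop :=
  ∃ j₀, ∀ j, j₀ ≤ j → ∀ x ∈ W j, u x ∈ W j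

theorem St.mul {u v : Module.End R N} (hu : St W u) (hv : St W v) : St W (u * v) := by
  obtain ⟨j₀, h1⟩ := hu
  obtain ⟨j₁, h2⟩ := hv
  exact ⟨max j₀ j₁, fun j hj x hx => h1 j (le_of_max_le_left hj) _
    (h2 j (le_of_max_le_right hj) x hx)⟩

theorem st_one_sub (hW : Con β c W) {k : ℕ} (hk : 1 ≤ k) {J : Ideal B}
    {ν : Module.End R N} (h : ν ∈ NN β c k J) : St W (1 - ν) := by
  obtain ⟨j₀, h1⟩ := NN_con hW hk h 0
  exact ⟨j₀, fun j hj x hx => Submodule.sub_mem _ hx (h1 j hj x hx)⟩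

theorem st_one_add (hW : Con β c W) {k : ℕ} (hk : 1 ≤ k) {J : Ideal B}
    {ν : Module.End R N} (h : ν ∈ NN β c k J) : St W (1 + ν) := by
  obtain ⟨j₀, h1⟩ := NN_con hW hk h 0
  exact ⟨j₀, fun j hj x hx => Submodule.add_mem _ hx (h1 j hj x hx)⟩

/-- the determinants on `W j` agree for large `j` -/
def DE (W : ℕ → Submodule R N) (u v : Module.End R N) : Prop :=
  ∃ j₀, ∀ j, j₀ ≤ j → dS (W j) u = dS (W j) v

theorem DE.rfl' (u : Module.End R N) : DE W u u := ⟨0, fun _ _ => rfl⟩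

theorem DE.trans {u v w : Module.End R N} (h1 : DE W u v) (h2 : DE W v w) : DE W u w := by
  obtain ⟨j₀, h1⟩ := h1
  obtain ⟨j₁, h2⟩ := h2
  exact ⟨max j₀ j₁, fun j hj => (h1 j (le_of_max_le_left hj)).trans
    (h2 j (le_of_max_le_right hj))⟩

/-- Sylvester -/
theorem DE_syl (hfree : ∀ j, Module.Free R (W j)) (hfin : ∀ j, Module.Finite R (W j))
    (hmono : Monotone W) (hW : Con β c W)
    {k : ℕ} (hk : 1 ≤ k) {J : Ideal B} {E : Module.End R N} (hE : E ∈ NN β c k J)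
    {x : B} (hx : ∃ a, ∀ j, ∀ v ∈ W j, β x v ∈ W (j + a)) :
    DE W (1 - β x * E) (1 - E * β x) := by
  obtain ⟨a, ha⟩ := hx
  obtain ⟨j₀, h1⟩ := NN_con hW hk hE a
  obtain ⟨j₁, h2⟩ := NN_con hW hk hE (a + a)
  refine ⟨j₀ + j₁ + a, fun j hj => ?_⟩
  have := hfree
  have := hfin
  rw [← dS_syl (S := W j) (S' := W (j + a)) (x := β x) (E := E) (ha j) (h1 j (by omega))]
  symm
  refine dS_sub (hmono (Nat.le_add_right j a)) fun v hv => ?_
  obtain ⟨i, rfl⟩ : ∃ i, j = i + a := ⟨j - a, by omega⟩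
  have h3 := h2 i (by omega) v (by rwa [← add_assoc])
  exact ha i _ h3

/-- the one-step lemma -/
theorem step (hp : p ≠ 0) (hc : ∀ b, β b * c = c * β (b ^ p)) {d : ℕ} (hd : c ^ (d + 1) = 0)
    (hfree : ∀ j, Module.Free R (W j)) (hfin : ∀ j, Module.Finite R (W j))
    (hmono : Monotone W) (hW : Con β c W)
    (hx : ∀ x : B, ∃ a, ∀ j, ∀ v ∈ W j, β x v ∈ W (j + a)) {k : ℕ} (hk : 1 ≤ k) {J : Ideal B}
    {ν : Module.End R N} (hν : ν ∈ NN β c k J) {h : B} (hh : h ∈ J) (x : B) :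
    ∃ ν₁, ν₁ - (ν - op β c k (h * (x ^ p ^ k - x))) ∈ NN β c (k + 1) (J * J) ∧
      DE W (1 - ν) (1 - ν₁) := by
  set E := op β c k h with hE
  have hEm : E ∈ NN β c k J := op_mem le_rfl hh
  have hxE : β x * E ∈ NN β c k J := by
    rw [hE, mx_op hc]
    exact op_mem le_rfl (J.mul_mem_left _ hh)
  have hEx : E * β x ∈ NN β c k J := by
    rw [hE, op_mx]
    exact op_mem le_rfl (J.mul_mem_right _ hh)
  obtain ⟨S, hS, hS1, hS2⟩ := NN_inv hp hc hd hk hxE
  have hcomm : op β c k (h * (x ^ p ^ k - x)) = β x * E - E * β x := by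
    rw [hE, mx_op hc, op_mx, ← op_sub]
    congr 1
    ring
  have hν' : ν - (β x * E - E * β x) ∈ NN β c k J := sub_mem hν (sub_mem hxE hEx)
  refine ⟨(ν - (β x * E - E * β x) - ν * (E * β x)) * (1 + S), ?_, ?_⟩
  · rw [hcomm]
    have e1 : (ν - (β x * E - E * β x) - ν * (E * β x)) * (1 + S) -
        (ν - (β x * E - E * β x)) = (ν - (β x * E - E * β x)) * S - ν * (E * β x) -
          ν * (E * β x * S) := by
      noncomm_ring
    rw [e1]
    have h2 : ∀ {a b : Module.End R N}, a ∈ NN β c k J → b ∈ NN β c k J →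
        a * b ∈ NN β c (k + 1) (J * J) := fun ha hb =>
      NN_mono (by omega) le_rfl (NN_mul hp hc ha hb)
    have h3 : E * β x * S ∈ NN β c k J :=
      NN_mono (Nat.le_add_right k k) Ideal.mul_le_right (NN_mul hp hc hEx hS)
    exact sub_mem (sub_mem (h2 hν' hS) (h2 hν hEx)) (h2 hν h3)
  · -- determinants
    set ν₁ := (ν - (β x * E - E * β x) - ν * (E * β x)) * (1 + S) with hν₁
    have key : (1 - ν₁) * (1 - β x * E) = (1 - ν) * (1 - E * β x) := by
      have e2 : ν₁ * (1 - β x * E) = ν - (β x * E - E * β x) - ν * (E * β x) := by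
        rw [hν₁, mul_assoc, hS1, mul_one]
      rw [sub_mul, one_mul, e2]
      noncomm_ring
    have hν₁m : ν₁ ∈ NN β c k J := by
      have h4 : ν - (β x * E - E * β x) - ν * (E * β x) ∈ NN β c k J :=
        sub_mem hν' (NN_mono (Nat.le_add_right k k) Ideal.mul_le_right (NN_mul hp hc hν hEx))
      rw [hν₁, mul_add, mul_one]
      exact add_mem h4 (NN_mono (Nat.le_add_right k k) Ideal.mul_le_right (NN_mul hp hc h4 hS))
    obtain ⟨j₀, s0⟩ := st_one_sub hW hk hν
    obtain ⟨j₁, s1⟩ := st_one_sub hW hk hν₁m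
    obtain ⟨j₂, s2⟩ := st_one_sub hW hk hxE
    obtain ⟨j₃, s3⟩ := st_one_sub hW hk hEx
    obtain ⟨j₄, s4⟩ := st_one_add hW hk hS
    obtain ⟨j₅, s5⟩ := DE_syl hfree hfin hmono hW hk hEm (hx x)
    refine ⟨j₀ + j₁ + j₂ + j₃ + j₄ + j₅, fun j hj => ?_⟩
    have t0 := s0 j (by omega)
    have t1 := s1 j (by omega)
    have t2 := s2 j (by omega)
    have t3 := s3 j (by omega)
    have t4 := s4 j (by omega)
    have t5 := s5 j (by omega)
    have h5 := congrArg (dS (W j)) key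
    rw [dS_mul t1 t2, dS_mul t0 t3, ← t5] at h5
    have h6 := congrArg (dS (W j)) hS2
    rw [dS_mul t2 t4, dS_one] at h6
    have h7 := congrArg (· * dS (W j) (1 + S)) h5
    simp only [mul_assoc, h6, mul_one] at h7
    exact h7.symm

/-- the step for all elements of `J * I_k` -/
theorem step_ideal (hp : p ≠ 0) (hc : ∀ b, β b * c = c * β (b ^ p)) {d : ℕ}
    (hd : c ^ (d + 1) = 0)
    (hfree : ∀ j, Module.Free R (W j)) (hfin : ∀ j, Module.Finite R (W j))
    (hmono : Monotone W) (hW : Con β c W)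
    (hx : ∀ x : B, ∃ a, ∀ j, ∀ v ∈ W j, β x v ∈ W (j + a)) {k : ℕ} (hk : 1 ≤ k) {J : Ideal B}
    {g : B} (hg : g ∈ J * frI p k B) : ∀ ν ∈ NN β c k J,
    ∃ ν₁, ν₁ - (ν - op β c k g) ∈ NN β c (k + 1) (J * J) ∧ DE W (1 - ν) (1 - ν₁) := by
  have hle : NN β c (k + 1) (J * J) ≤ NN β c k J := NN_mono (Nat.le_succ k) Ideal.mul_le_right
  have hIJ : J * frI p k B ≤ J := Ideal.mul_le_left
  induction hg using Submodule.mul_induction_on' with
  | mem_mul_mem h hh z hz =>
    induction hz using Submodule.span_induction generalizing h with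
    | mem z hz =>
      obtain ⟨x, rfl⟩ := hz
      intro ν hν
      exact step hp hc hd hfree hfin hmono hW hx hk hν hh x
    | zero =>
      intro ν hν
      refine ⟨ν, ?_, DE.rfl' _⟩
      rw [mul_zero, op_zero, sub_zero, sub_self]
      exact zero_mem _
    | add y z _ _ hy hz =>
      intro ν hν
      obtain ⟨ν₁, h1, d1⟩ := hy h hh ν hν
      have hm : op β c k (h * y) ∈ NN β c k J := op_mem le_rfl (J.mul_mem_right _ hh)
      have hν₁ : ν₁ ∈ NN β c k J := by
        have := add_mem (hle h1) (sub_mem hν hm)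
        rwa [sub_add_cancel] at this
      obtain ⟨ν₂, h2, d2⟩ := hz h hh ν₁ hν₁
      refine ⟨ν₂, ?_, d1.trans d2⟩
      have := add_mem h1 h2
      rw [mul_add, op_add]
      convert this using 1
      abel
    | smul a z _ hz =>
      have := hz (h * a) (J.mul_mem_right _ hh)
      rwa [smul_eq_mul, ← mul_assoc]
  | add y hy' z hz' hy hz =>
    intro ν hν
    obtain ⟨ν₁, h1, d1⟩ := hy ν hν
    have hyJ : y ∈ J := hIJ hy'
    have hm : op β c k y ∈ NN β c k J := op_mem le_rfl hyJ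
    have hν₁ : ν₁ ∈ NN β c k J := by
      have := add_mem (hle h1) (sub_mem hν hm)
      rwa [sub_add_cancel] at this
    obtain ⟨ν₂, h2, d2⟩ := hz ν₁ hν₁
    refine ⟨ν₂, ?_, d1.trans d2⟩
    have := add_mem h1 h2
    rw [op_add]
    convert this using 1
    abel

/-- vanishing, abstract form -/
theorem van_abs (hp : p ≠ 0) (hc : ∀ b, β b * c = c * β (b ^ p)) {d : ℕ}
    (hd : c ^ (d + 1) = 0)
    (hfree : ∀ j, Module.Free R (W j)) (hfin : ∀ j, Module.Finite R (W j))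
    (hmono : Monotone W) (hW : Con β c W)
    (hx : ∀ x : B, ∃ a, ∀ j, ∀ v ∈ W j, β x v ∈ W (j + a)) {J : Ideal B}
    (hJ : ∀ k, 1 ≤ k → k ≤ d → J ≤ frI p k B) {g : B} (hg : g ∈ J * J) :
    ∃ j₀, ∀ j, j₀ ≤ j → dS (W j) (1 - op β c 1 g) = 1 := by
  have key : ∀ n k : ℕ, 1 ≤ k → k + n = d + 1 → ∀ ν ∈ NN β c k (J * J), DE W (1 - ν) 1 := by
    intro n
    induction n with
    | zero =>
      intro k hk hkd ν hν
      rw [add_zero] at hkd
      subst hkd
      rw [NN_top hd hν, sub_zero]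
      exact DE.rfl' _
    | succ n ih =>
      intro k hk hkd ν hν
      obtain ⟨g, hg, h1⟩ := NN_split hν
      have hJk : J ≤ frI p k B := hJ k hk (by omega)
      obtain ⟨ν₁, h2, d2⟩ := step_ideal hp hc hd hfree hfin hmono hW hx hk
        (Ideal.mul_mono_right hJk hg) ν (NN_mono le_rfl Ideal.mul_le_right hν)
      refine d2.trans (ih (k + 1) (by omega) (by omega) ν₁ ?_)
      have := add_mem h2 h1
      rwa [sub_add_cancel] at this
  obtain ⟨j₀, hj⟩ := key d 1 le_rfl (by omega) _ (op_mem le_rfl hg)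
  exact ⟨j₀, fun j h => by rw [hj j h, dS_one]⟩

end

end Pool.Agent.FrNA
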