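import Pool.Agent.Lib.MP_305fdd_al.Fr.N.A.Stm
import Pool.Agent.Lib.MP_305fdd_al.Fr.N.A.Van1

/-!
# MP_305fdd_al (`F_r`), nilpotence block, section A: vanishing
-/

set_option autoImplicit false

namespace Pool.Agent.FrNA

open Module Polynomial TensorProduct Pool.Agent.FrN

section

variable {p : ℕ} {B : Type} [CommRing B] [Algebra (ZMod p) B] (X : CMod p B)
  (R : Type) [CommRing R] [Algebra (ZMod p) R]

/-- multiplication by an element of `B` on `M` -/
noncomputable def mulH : B →+* Module.End (ZMod p) X.M :=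
  (Algebra.lsmul (ZMod p) (ZMod p) X.M : B →ₐ[ZMod p] Module.End (ZMod p) X.M).toRingHom

theorem mulH_apply (g : B) (m : X.M) : mulH X g m = g • m := rfl

/-- multiplication by an element of `B` on `R ⊗ M` -/
noncomputable def betaR : B →+* Module.End R (R ⊗[ZMod p] X.M) :=
  (Module.End.baseChangeHom (ZMod p) R X.M).toRingHom.comp (mulH X)

theorem betaR_apply (g : B) : betaR X R g = (mulH X g).baseChange R := rfl

theorem C_rel (b : B) : mulH X b * X.C = X.C * mulH X (b ^ p) :=
  LinearMap.ext fun m => (X.hC b m).symm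

theorem cR_pow (t : R) (i : ℕ) :
    (t • X.C.baseChange R) ^ i = t ^ i • (X.C ^ i).baseChange R := by
  rw [_root_.smul_pow, LinearMap.baseChange_pow]

theorem cR_nil (t : R) (i : ℕ) (ht : t ^ i = 0) : (t • X.C.baseChange R) ^ i = 0 := by
  rw [cR_pow, ht, zero_smul]

theorem opR_eq (t : R) (i : ℕ) (g : B) :
    op (betaR X R) (t • X.C.baseChange R) i g = t ^ i • (X.C ^ i * mulH X g).baseChange R := by
  rw [op, betaR_apply, _root_.smul_pow, ← LinearMap.baseChange_pow, smul_mul_assoc,
    ← LinearMap.baseChange_mul]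

end

theorem p_van' (hfil : S_fil) (hfa : S_filabs) : S_van := by
  intro p _ B _ _ _ X _ d J hJ g hg
  obtain ⟨W, hW⟩ := hfil p B X
  obtain ⟨j₁, hj₁⟩ := hfa p B X W hW g
  let R : Type := (ZMod p)[X] ⧸ Ideal.span {(Polynomial.X : (ZMod p)[X]) ^ (d + 1)}
  let t : R := Ideal.Quotient.mk _ Polynomial.X
  have ht : t ^ (d + 1) = 0 := by
    show (Ideal.Quotient.mk _ Polynomial.X : R) ^ (d + 1) = 0
    rw [← map_pow, Ideal.Quotient.eq_zero_iff_mem]
    exact Ideal.mem_span_singleton_self _
  have hfd := hW.fd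
  have hp : p ≠ 0 := (Fact.out : p.Prime).ne_zero
  obtain ⟨j₀, hj₀⟩ := van_abs (p := p) (β := betaR X R) (c := t • X.C.baseChange R)
    (W := fun j => (W j).baseChange R) hp
    (by
      intro b
      rw [betaR_apply, betaR_apply, mul_smul_comm, smul_mul_assoc, ← LinearMap.baseChange_mul,
        ← LinearMap.baseChange_mul, C_rel])
    (d := d)
    (cR_nil X R t (d + 1) ht)
    (fun j => bc_free R (W j)) (fun j => bc_fin R (W j))
    (fun i j hij => bc_mono R (hW.mono hij))
    (by
      intro i g hi a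
      obtain ⟨j₀, hj⟩ := hW.con g i hi a
      refine ⟨j₀, fun j hjj x hx => ?_⟩
      rw [opR_eq]
      exact Submodule.smul_mem _ _ (bc_map R (W := W (j + a)) (W' := W j)
        (f := X.C ^ i * mulH X g) (fun m hm => hj j hjj m hm) x hx))
    (by
      intro x
      obtain ⟨a, ha⟩ := hW.mul x
      exact ⟨a, fun j v hv => bc_map R (W := W j) (W' := W (j + a)) (f := mulH X x)
        (fun m hm => ha j m hm) v hv⟩)
    hJ hg
  set j := max j₀ j₁ with hjdef
  have h1 := hj₀ j (le_max_left _ _)
  have hA : Abs (X.C * mulH X g) (W j) := hj₁ j (le_max_right _ _)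
  have := hA.fin
  have e1 : op (betaR X R) (t • X.C.baseChange R) 1 g =
      t • (X.C * mulH X g).baseChange R := by
    rw [opR_eq, pow_one, pow_one]
  rw [e1] at h1
  have h2 := dS_bc R hA.st t
  have h3 : aeval t (FrNA.cp (W j) (X.C * mulH X g)) = 1 := h2.symm.trans h1
  have h4 : Ideal.Quotient.mk (Ideal.span {(Polynomial.X : (ZMod p)[X]) ^ (d + 1)})
      (FrNA.cp (W j) (X.C * mulH X g)) = Ideal.Quotient.mk _ 1 := by
    rw [map_one, ← h3]
    have : ∀ f : (ZMod p)[X], aeval t f =
        Ideal.Quotient.mk (Ideal.span {(Polynomial.X : (ZMod p)[X]) ^ (d + 1)}) f := by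
      intro f
      induction f using Polynomial.induction_on' with
      | add f g hf hg => rw [map_add, map_add, hf, hg]
      | monomial n a =>
        rw [aeval_monomial, ← C_mul_X_pow_eq_monomial, map_mul, map_pow]
        rfl
    exact (this _).symm
  rw [Ideal.Quotient.eq, Ideal.mem_span_singleton, X_pow_dvd_iff] at h4
  have h6 : Cg d ((PV (X.C * mulH X g) ⊤ : (PowerSeries (ZMod p))ˣ) : PowerSeries (ZMod p)) 1 := by
    intro i hi
    have h5 := h4 i (by omega)
    rw [coeff_sub, sub_eq_zero] at h5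
    rw [PU_val, PP_top hA, absP_eq hA, coeff_coe, h5, ← coeff_coe, Polynomial.coe_one]
  exact h6

end Pool.Agent.FrNA
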