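import Pool.Agent.Lib.MP_305fdd_al.Fr.N.A.Lin

/-!
# MP_305fdd_al (`F_r`), nilpotence block, section A: absorbing subspaces

`absP f` does not depend on the absorbing subspace, is multiplicative in exact sequences, does not
change under homomorphisms with nilpotent kernel and cokernel, and is `1` iff `f` is elementwise
nilpotent.
-/

set_option autoImplicit false

namespace Pool.Agent.FrNA

open Module Polynomial

section

variable {K : Type*} [Field K] {V V' V'' : Type*} [AddCommGroup V] [Module K V]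
  [AddCommGroup V'] [Module K V'] [AddCommGroup V''] [Module K V'']

theorem pow_st {W : Submodule K V} {f : V →ₗ[K] V} (h : ∀ x ∈ W, f x ∈ W) (n : ℕ) :
    ∀ x ∈ W, (f ^ n) x ∈ W := by
  induction n with
  | zero => intro x hx; simpa using hx
  | succ n ih => intro x hx; rw [pow_succ']; exact h _ (ih x hx)

theorem pow_comm {f : V →ₗ[K] V} {f' : V' →ₗ[K] V'} {i : V →ₗ[K] V'}
    (h : f' ∘ₗ i = i ∘ₗ f) (n : ℕ) (x : V) : (f' ^ n) (i x) = i ((f ^ n) x) := by
  induction n with
  | zero => simp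
  | succ n ih =>
    rw [pow_succ', pow_succ', Module.End.mul_apply, Module.End.mul_apply, ih]
    exact LinearMap.congr_fun h _

theorem ab_mono {f : V →ₗ[K] V} {W : Submodule K V} (h : ∀ x ∈ W, f x ∈ W) {x : V} {n m : ℕ}
    (hn : n ≤ m) (hx : (f ^ n) x ∈ W) : (f ^ m) x ∈ W := by
  obtain ⟨k, rfl⟩ := Nat.exists_eq_add_of_le hn
  rw [add_comm, pow_add]
  exact pow_st h k _ hx

/-- an elementwise nilpotent endomorphism of a finite-dimensional space has characteristic
polynomial `X ^ n` -/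
theorem charpoly_elnil [Module.Finite K V] (f : V →ₗ[K] V) (hf : ∀ v, ∃ n : ℕ, (f ^ n) v = 0) :
    f.charpoly = X ^ Module.finrank K V :=
  (LinearMap.charpoly_eq_X_pow_iff f).2 hf

theorem reverse_charpoly_elnil [Module.Finite K V] (f : V →ₗ[K] V)
    (hf : ∀ v, ∃ n : ℕ, (f ^ n) v = 0) : f.charpoly.reverse = 1 := by
  rw [charpoly_elnil f hf]
  have := reverse_mul_X_pow (1 : K[X]) (Module.finrank K V)
  rwa [one_mul, ← C_1, reverse_C] at this

/-- two nested stable subspaces -/
theorem cp_le {f : V →ₗ[K] V} {W W' : Submodule K V} [Module.Finite K W'] (hle : W ≤ W')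
    (h : ∀ x ∈ W, f x ∈ W) (h' : ∀ x ∈ W', f x ∈ W') (ab : ∀ x ∈ W', ∃ n : ℕ, (f ^ n) x ∈ W) :
    cp W' f = cp W f := by
  have : Module.Finite K W :=
    Module.Finite.of_injective (Submodule.inclusion hle) (Submodule.inclusion_injective hle)
  rw [cp_eq h, cp_eq h']
  set U : Submodule K W' := W.comap W'.subtype with hU
  have hq : ∀ x ∈ U, f.restrict h' x ∈ U := fun x hx => h _ hx
  have := charpoly_exact (f.restrict h) (f.restrict h') (U.mapQ U (f.restrict h') hq)
    (Submodule.inclusion hle) U.mkQ (Submodule.inclusion_injective hle)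
    (Submodule.mkQ_surjective _) (by
      rw [Submodule.ker_mkQ, Submodule.range_inclusion]) (LinearMap.ext fun x => rfl)
    (LinearMap.ext fun x => rfl)
  rw [this, reverse_mul_of_domain, reverse_charpoly_elnil (U.mapQ U (f.restrict h') hq), mul_one]
  intro v
  obtain ⟨x, rfl⟩ := Submodule.mkQ_surjective _ v
  obtain ⟨n, hn⟩ := ab x.1 x.2
  refine ⟨n, ?_⟩
  rw [pow_comm (i := U.mkQ) (f := f.restrict h') (f' := U.mapQ U (f.restrict h') hq)
    (LinearMap.ext fun x => rfl), Submodule.mkQ_apply, Submodule.Quotient.mk_eq_zero]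
  show ((f.restrict h' ^ n) x : V) ∈ W
  have h2 := pow_comm (i := W'.subtype) (f := f.restrict h') (f' := f)
    (LinearMap.ext fun x => rfl) n x
  have h3 : ((f.restrict h' ^ n) x : V) = (f ^ n) (x : V) := h2.symm
  rw [h3]
  exact hn

theorem Abs.sup {f : V →ₗ[K] V} {W W' : Submodule K V} (h : Abs f W) (h' : Abs f W') :
    Abs f (W ⊔ W') := by
  have := h.fin
  have := h'.fin
  refine ⟨inferInstance, ?_, fun v => ?_⟩
  · intro x hx
    obtain ⟨a, ha, b, hb, rfl⟩ := Submodule.mem_sup.1 hx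
    rw [map_add]
    exact Submodule.add_mem_sup (h.st a ha) (h'.st b hb)
  · obtain ⟨n, hn⟩ := h.ab v
    exact ⟨n, Submodule.mem_sup_left hn⟩

theorem cp_indep {f : V →ₗ[K] V} {W W' : Submodule K V} (h : Abs f W) (h' : Abs f W') :
    cp W f = cp W' f := by
  have hs := h.sup h'
  have := hs.fin
  rw [← cp_le le_sup_left h.st hs.st fun x _ => h.ab x,
    ← cp_le le_sup_right h'.st hs.st fun x _ => h'.ab x]

theorem absP_eq {f : V →ₗ[K] V} {W : Submodule K V} (h : Abs f W) : absP f = cp W f := by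
  have h1 : ∃ W, Abs f W := ⟨W, h⟩
  rw [absP, dif_pos h1]
  exact cp_indep h1.choose_spec h

theorem absP_coeff_zero {f : V →ₗ[K] V} {W : Submodule K V} (h : Abs f W) :
    (absP f).coeff 0 = 1 := by
  have := h.fin
  rw [absP_eq h, cp_coeff_zero h.st]

/-- the finite-dimensional case -/
theorem abs_top [Module.Finite K V] (f : V →ₗ[K] V) : Abs f ⊤ :=
  ⟨inferInstance, fun _ _ => trivial, fun _ => ⟨0, trivial⟩⟩

theorem absP_fin [Module.Finite K V] (f : V →ₗ[K] V) : absP f = f.charpoly.reverse := by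
  rw [absP_eq (abs_top f), cp_eq (abs_top f).st,
    ← (Submodule.topEquiv (R := K) (M := V)).charpoly_conj (f.restrict (abs_top f).st)]
  congr 2

/-! ### exact sequences -/

theorem Abs.comap {f : V →ₗ[K] V} {f' : V' →ₗ[K] V'} {i : V' →ₗ[K] V} {W : Submodule K V}
    (h : Abs f W) (hi : Function.Injective i) (h1 : f ∘ₗ i = i ∘ₗ f') : Abs f' (W.comap i) := by
  have := h.fin
  refine ⟨?_, ?_, fun v => ?_⟩
  · let g : W.comap i →ₗ[K] W := i.restrict fun x hx => hx
    exact Module.Finite.of_injective g fun x y hxy => by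
      have : i x = i y := congrArg Subtype.val hxy
      exact Subtype.ext (hi this)
  · intro x hx
    have := LinearMap.congr_fun h1 x
    simp only [LinearMap.comp_apply] at this
    rw [Submodule.mem_comap, ← this]
    exact h.st _ hx
  · obtain ⟨n, hn⟩ := h.ab (i v)
    rw [pow_comm h1] at hn
    exact ⟨n, hn⟩

/-- `W.map φ` is absorbing if the cokernel of `φ` is nilpotent -/
theorem Abs.map {f : V →ₗ[K] V} {f' : V' →ₗ[K] V'} {φ : V →ₗ[K] V'} {W : Submodule K V}
    (h : Abs f W) (h1 : f' ∘ₗ φ = φ ∘ₗ f)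
    (hc : ∀ v', ∃ n : ℕ, (f' ^ n) v' ∈ LinearMap.range φ) : Abs f' (W.map φ) := by
  have := h.fin
  refine ⟨inferInstance, ?_, fun v' => ?_⟩
  · rintro _ ⟨x, hx, rfl⟩
    exact ⟨f x, h.st x hx, (LinearMap.congr_fun h1 x).symm⟩
  · obtain ⟨n, v, hv⟩ := hc v'
    obtain ⟨m, hm⟩ := h.ab v
    refine ⟨m + n, (f ^ m) v, hm, ?_⟩
    rw [pow_add, Module.End.mul_apply, ← hv, pow_comm h1]

theorem absP_exact (f' : V' →ₗ[K] V') (f : V →ₗ[K] V) (f'' : V'' →ₗ[K] V'') (i : V' →ₗ[K] V)
    (q : V →ₗ[K] V'') (hi : Function.Injective i) (hq : Function.Surjective q)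
    (hex : LinearMap.range i = LinearMap.ker q) (h1 : f ∘ₗ i = i ∘ₗ f') (h2 : f'' ∘ₗ q = q ∘ₗ f)
    {W : Submodule K V} (h : Abs f W) : absP f = absP f' * absP f'' := by
  have hA' := h.comap hi h1
  have hA'' : Abs f'' (W.map q) := h.map h2 fun v => ⟨0, hq v⟩
  have := h.fin
  have := hA'.fin
  have := hA''.fin
  rw [absP_eq h, absP_eq hA', absP_eq hA'', cp_eq h.st, cp_eq hA'.st, cp_eq hA''.st,
    ← reverse_mul_of_domain]
  congr 1
  refine charpoly_exact _ _ _ (i.restrict (p := W.comap i) (q := W) fun x hx => hx)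
    (q.restrict (p := W) (q := W.map q) fun x hx => ⟨x, hx, rfl⟩) ?_ ?_ ?_ ?_ ?_
  · intro x y hxy
    have : i x = i y := congrArg Subtype.val hxy
    exact Subtype.ext (hi this)
  · rintro ⟨_, x, hx, rfl⟩
    exact ⟨⟨x, hx⟩, rfl⟩
  · ext x
    constructor
    · rintro ⟨y, rfl⟩
      apply Subtype.ext
      have : i y ∈ LinearMap.ker q := hex ▸ ⟨y.1, rfl⟩
      exact this
    · intro hx
      have h3 : (x : V) ∈ LinearMap.ker q := congrArg Subtype.val hx
      rw [← hex] at h3
      obtain ⟨y, hy⟩ := h3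
      exact ⟨⟨y, by rw [Submodule.mem_comap, hy]; exact x.2⟩, Subtype.ext hy⟩
  · exact LinearMap.ext fun x => Subtype.ext (LinearMap.congr_fun h1 x.1)
  · exact LinearMap.ext fun x => Subtype.ext (LinearMap.congr_fun h2 x.1)

/-! ### nilpotence -/

theorem abs_bot {f : V →ₗ[K] V} (hf : ∀ v, ∃ n : ℕ, (f ^ n) v = 0) : Abs f ⊥ :=
  ⟨inferInstance, fun x hx => by rw [Submodule.mem_bot] at hx ⊢; rw [hx, map_zero],
    fun v => by obtain ⟨n, hn⟩ := hf v; exact ⟨n, by rw [Submodule.mem_bot, hn]⟩⟩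

theorem absP_elnil {f : V →ₗ[K] V} (hf : ∀ v, ∃ n : ℕ, (f ^ n) v = 0) : absP f = 1 := by
  rw [absP_eq (abs_bot hf), cp_eq (abs_bot hf).st]
  apply reverse_charpoly_elnil
  intro v
  exact ⟨0, Subtype.ext ((Submodule.mem_bot K).1 v.2)⟩

theorem eq_X_pow_of_reverse_eq_one {g : K[X]} (hg : g.Monic) (h : g.reverse = 1) :
    g = X ^ g.natDegree := by
  ext i
  rw [coeff_X_pow]
  split_ifs with hi
  · rw [hi]; exact hg.coeff_natDegree
  · by_cases hlt : i < g.natDegree
    · have h1 := coeff_reverse g (g.natDegree - i)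
      rw [h, revAt_le (Nat.sub_le _ _), Nat.sub_sub_self hlt.le, coeff_one,
        if_neg (by omega)] at h1
      exact h1.symm
    · exact coeff_eq_zero_of_natDegree_lt (by omega)

theorem elnil_of_absP {f : V →ₗ[K] V} {W : Submodule K V} (h : Abs f W) (h1 : absP f = 1) (v : V) :
    ∃ n : ℕ, (f ^ n) v = 0 := by
  have := h.fin
  rw [absP_eq h, cp_eq h.st] at h1
  have h2 := eq_X_pow_of_reverse_eq_one (LinearMap.charpoly_monic _) h1
  have h3 := LinearMap.aeval_self_charpoly (f.restrict h.st)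
  rw [h2, map_pow, aeval_X] at h3
  obtain ⟨n, hn⟩ := h.ab v
  refine ⟨(f.restrict h.st).charpoly.natDegree + n, ?_⟩
  have h4 := pow_comm (i := W.subtype) (f := f.restrict h.st) (f' := f)
    (LinearMap.ext fun x => rfl) (f.restrict h.st).charpoly.natDegree ⟨_, hn⟩
  rw [h3] at h4
  rw [pow_add]
  simpa using h4

/-! ### homomorphisms with nilpotent kernel and cokernel -/

theorem absP_hom {f : V →ₗ[K] V} {f' : V' →ₗ[K] V'} {φ : V →ₗ[K] V'} {W : Submodule K V}
    (h : Abs f W) (h1 : f' ∘ₗ φ = φ ∘ₗ f)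
    (hk : ∀ v, φ v = 0 → ∃ n : ℕ, (f ^ n) v = 0)
    (hc : ∀ v', ∃ n : ℕ, (f' ^ n) v' ∈ LinearMap.range φ) : absP f' = absP f := by
  have hA := h.map h1 hc
  have := h.fin
  have := hA.fin
  have hst : ∀ x ∈ LinearMap.ker φ, f x ∈ LinearMap.ker φ := by
    intro x hx
    rw [LinearMap.mem_ker] at hx ⊢
    have := LinearMap.congr_fun h1 x
    simp only [LinearMap.comp_apply] at this
    rw [← this, hx, map_zero]
  have hst' : ∀ x ∈ LinearMap.range φ, f' x ∈ LinearMap.range φ := by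
    rintro _ ⟨x, rfl⟩
    exact ⟨f x, (LinearMap.congr_fun h1 x).symm⟩
  have e1 : absP f = absP (f.restrict hst) * absP (f'.restrict hst') :=
    absP_exact (f.restrict hst) f (f'.restrict hst') (LinearMap.ker φ).subtype φ.rangeRestrict
      Subtype.val_injective φ.surjective_rangeRestrict
      (by rw [Submodule.range_subtype, LinearMap.ker_rangeRestrict]) (LinearMap.ext fun x => rfl)
      (LinearMap.ext fun x => Subtype.ext (LinearMap.congr_fun h1 x)) h
  have e2 : absP (f.restrict hst) = 1 := by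
    apply absP_elnil
    intro v
    obtain ⟨n, hn⟩ := hk v v.2
    refine ⟨n, Subtype.ext ?_⟩
    have := pow_comm (i := (LinearMap.ker φ).subtype) (f := f.restrict hst) (f' := f)
      (LinearMap.ext fun x => rfl) n v
    exact this.symm.trans hn
  have hst2 : ∀ x ∈ LinearMap.range φ, f' x ∈ LinearMap.range φ := hst'
  have e3 : absP f' = absP (f'.restrict hst') *
      absP ((LinearMap.range φ).mapQ (LinearMap.range φ) f' hst') :=
    absP_exact (f'.restrict hst') f' ((LinearMap.range φ).mapQ (LinearMap.range φ) f' hst')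
      (LinearMap.range φ).subtype (LinearMap.range φ).mkQ Subtype.val_injective
      (Submodule.mkQ_surjective _) (by rw [Submodule.range_subtype, Submodule.ker_mkQ])
      (LinearMap.ext fun x => rfl) (LinearMap.ext fun x => rfl) hA
  have e4 : absP ((LinearMap.range φ).mapQ (LinearMap.range φ) f' hst') = 1 := by
    apply absP_elnil
    intro v
    obtain ⟨x, rfl⟩ := Submodule.mkQ_surjective _ v
    obtain ⟨n, hn⟩ := hc x
    refine ⟨n, ?_⟩
    rw [pow_comm (i := (LinearMap.range φ).mkQ) (f := f')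
      (f' := (LinearMap.range φ).mapQ (LinearMap.range φ) f' hst')
      (LinearMap.ext fun x => rfl), Submodule.mkQ_apply, Submodule.Quotient.mk_eq_zero]
    exact hn
  rw [e3, e4, mul_one, e1, e2, one_mul]

/-- stable subspaces into which every vector is mapped -/
theorem absP_sub {f : V →ₗ[K] V} {N W : Submodule K V} (h : Abs f W) (hN : ∀ x ∈ N, f x ∈ N)
    (hc : ∀ v, ∃ n : ℕ, (f ^ n) v ∈ N) : absP f = absP (f.restrict hN) := by
  have hA : Abs (f.restrict hN) (W.comap N.subtype) :=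
    h.comap Subtype.val_injective (LinearMap.ext fun x => rfl)
  refine absP_hom hA (φ := N.subtype) (LinearMap.ext fun x => rfl) ?_ ?_
  · intro v hv
    exact ⟨0, by rw [pow_zero]; exact Subtype.ext hv⟩
  · intro v
    obtain ⟨n, hn⟩ := hc v
    exact ⟨n, by rw [Submodule.range_subtype]; exact hn⟩

/-- the same, with the absorbing subspace in the smaller space -/
theorem absP_sub' {f : V →ₗ[K] V} {N : Submodule K V} (hN : ∀ x ∈ N, f x ∈ N)
    {W : Submodule K N} (h : Abs (f.restrict hN) W)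
    (hc : ∀ v, ∃ n : ℕ, (f ^ n) v ∈ N) :
    Abs f (W.map N.subtype) ∧ absP f = absP (f.restrict hN) := by
  have h1 : ∀ v, ∃ n : ℕ, (f ^ n) v ∈ LinearMap.range N.subtype := by
    intro v
    obtain ⟨n, hn⟩ := hc v
    exact ⟨n, by rw [Submodule.range_subtype]; exact hn⟩
  refine ⟨h.map (LinearMap.ext fun x => rfl) h1, absP_hom h (φ := N.subtype)
    (LinearMap.ext fun x => rfl) ?_ h1⟩
  intro v hv
  exact ⟨0, by rw [pow_zero]; exact Subtype.ext hv⟩

theorem absP_equiv {f : V →ₗ[K] V} {f' : V' →ₗ[K] V'} (e : V ≃ₗ[K] V') {W : Submodule K V}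
    (h : Abs f W) (h1 : f' ∘ₗ (e : V →ₗ[K] V') = (e : V →ₗ[K] V') ∘ₗ f) : absP f' = absP f :=
  absP_hom h h1 (fun v hv => ⟨0, by
    rw [pow_zero]; exact e.injective (by simpa using hv)⟩)
    fun v' => ⟨0, e.surjective v'⟩

/-- there is an absorbing subspace on which `f` is surjective (the stable part) -/
theorem Abs.exists_surj {f : V →ₗ[K] V} {W : Submodule K V} (h : Abs f W) :
    ∃ W', Abs f W' ∧ ∀ y ∈ W', ∃ x ∈ W', f x = y := by
  have := h.fin
  -- take `W' = f ^ n (W)` of minimal dimension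
  have hA : ∀ n : ℕ, Abs f (W.map (f ^ n)) := by
    intro n
    refine h.map (f := f) (f' := f) ?_ fun v => ⟨n, v, rfl⟩
    ext x
    simp only [LinearMap.comp_apply]
    rw [← Module.End.mul_apply, ← Module.End.mul_apply, ← pow_succ', ← pow_succ]
  let P : ℕ → Prop := fun k => ∃ n : ℕ, Module.finrank K (W.map (f ^ n)) = k
  have hP : ∃ k, P k := ⟨_, 0, rfl⟩
  classical
  obtain ⟨n, hn⟩ := Nat.find_spec hP
  refine ⟨W.map (f ^ n), hA n, ?_⟩
  have := (hA n).fin
  have hle : W.map (f ^ (n + 1)) ≤ W.map (f ^ n) := by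
    rintro _ ⟨x, hx, rfl⟩
    exact ⟨f x, h.st x hx, by rw [pow_succ]; rfl⟩
  have heq : W.map (f ^ (n + 1)) = W.map (f ^ n) := by
    apply Submodule.eq_of_le_of_finrank_le hle
    rw [hn]
    exact Nat.find_min' hP ⟨n + 1, rfl⟩
  intro y hy
  rw [← heq] at hy
  obtain ⟨x, hx, rfl⟩ := hy
  exact ⟨(f ^ n) x, ⟨x, hx, rfl⟩, by rw [pow_succ']; rfl⟩

end

end Pool.Agent.FrNA
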