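import Pool.Agent.Lib.MP_305fdd_al.Fr.N.Int
import Pool.Agent.Lib.MP_305fdd_al.Fr.N.A.Abs

/-!
# MP_305fdd_al (`F_r`), nilpotence block, section A: nuclei and `absP`
-/

set_option autoImplicit false

namespace Pool.Agent.FrNA

open Module Polynomial Pool.Agent.FrN

section

variable {k V : Type} [Field k] [AddCommGroup V] [Module k V]

theorem nuc_top {C : Module.End k V} {W : Submodule k V} : Nuc C ⊤ W ↔ Abs C W :=
  ⟨fun h => ⟨h.fin, h.stab, fun v => h.abs v trivial⟩,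
    fun h => ⟨le_top, h.fin, h.st, fun v _ => h.ab v⟩⟩

theorem nuc_cp {C : Module.End k V} {V₀ W W' : Submodule k V} (h : Nuc C V₀ W)
    (h' : Nuc C V₀ W') : FrNA.cp W C = FrNA.cp W' C := by
  have := h.fin
  have := h'.fin
  have hst : ∀ x ∈ W ⊔ W', C x ∈ W ⊔ W' := by
    intro x hx
    obtain ⟨a, ha, b, hb, rfl⟩ := Submodule.mem_sup.1 hx
    rw [map_add]
    exact Submodule.add_mem_sup (h.stab a ha) (h'.stab b hb)
  have hle : W ⊔ W' ≤ V₀ := sup_le h.le h'.le
  rw [← cp_le le_sup_left h.stab hst fun x hx => h.abs x (hle hx),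
    ← cp_le le_sup_right h'.stab hst fun x hx => h'.abs x (hle hx)]

theorem PP_eq {C : Module.End k V} {V₀ W : Submodule k V} (h : Nuc C V₀ W) :
    PP C V₀ = FrNA.cp W C := by
  have h1 : ∃ W, Nuc C V₀ W := ⟨W, h⟩
  have h2 := h1.choose_spec.fin
  rw [PP, dif_pos h1, ← nuc_cp h1.choose_spec h, cp_eq h1.choose_spec.stab]

theorem PP_none {C : Module.End k V} {V₀ : Submodule k V} (h : ¬ ∃ W, Nuc C V₀ W) :
    PP C V₀ = 1 := by
  rw [PP, dif_neg h]

theorem PP_top {C : Module.End k V} {W : Submodule k V} (h : Abs C W) : PP C ⊤ = absP C := by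
  rw [PP_eq (nuc_top.2 h), absP_eq h]

theorem PU_val (C : Module.End k V) (V₀ : Submodule k V) :
    ((PV C V₀ : (PowerSeries k)ˣ) : PowerSeries k) = ((PP C V₀ : Polynomial k) : PowerSeries k) :=
  coe_PV C V₀

variable {V' V'' : Type} [AddCommGroup V'] [Module k V'] [AddCommGroup V''] [Module k V'']

theorem PU_eq_iff {C : Module.End k V} {V₀ : Submodule k V} {C' : Module.End k V'}
    {V₀' : Submodule k V'} : PV C V₀ = PV C' V₀' ↔ PP C V₀ = PP C' V₀' := by
  rw [Units.ext_iff, PU_val, PU_val, Polynomial.coe_inj]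

theorem PU_eq_one_iff {C : Module.End k V} {V₀ : Submodule k V} : PV C V₀ = 1 ↔ PP C V₀ = 1 := by
  rw [Units.ext_iff, PU_val, Units.val_one, ← Polynomial.coe_one, Polynomial.coe_inj]

/-- the nucleus of a stable subspace -/
theorem nuc_restrict {C : Module.End k V} {V₀ : Submodule k V} (hst : ∀ v ∈ V₀, C v ∈ V₀)
    {W : Submodule k V} (h : Nuc C V₀ W) : Abs (C.restrict hst) (W.comap V₀.subtype) := by
  have := h.fin
  refine ⟨?_, fun x hx => h.stab _ hx, fun v => ?_⟩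
  · let g : W.comap V₀.subtype →ₗ[k] W := V₀.subtype.restrict fun x hx => hx
    exact Module.Finite.of_injective g fun x y hxy => by
      have : (x : V₀).1 = (y : V₀).1 := congrArg (Subtype.val : W → V) hxy
      exact Subtype.ext (Subtype.ext this)
  · obtain ⟨e, he⟩ := h.abs v v.2
    have h2 := pow_comm (i := V₀.subtype) (f := C.restrict hst) (f' := C)
      (LinearMap.ext fun x => rfl) e v
    exact ⟨e, by rw [Submodule.mem_comap, ← h2]; exact he⟩

theorem restrict_nuc {C : Module.End k V} {V₀ : Submodule k V} (hst : ∀ v ∈ V₀, C v ∈ V₀)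
    {W : Submodule k V₀} (h : Abs (C.restrict hst) W) : Nuc C V₀ (W.map V₀.subtype) := by
  have := h.fin
  refine ⟨Submodule.map_subtype_le _ _, inferInstance, ?_, fun v hv => ?_⟩
  · rintro _ ⟨x, hx, rfl⟩
    exact ⟨_, h.st x hx, rfl⟩
  · obtain ⟨e, he⟩ := h.ab ⟨v, hv⟩
    have h2 := pow_comm (i := V₀.subtype) (f := C.restrict hst) (f' := C)
      (LinearMap.ext fun x => rfl) e ⟨v, hv⟩
    exact ⟨e, _, he, h2.symm⟩

theorem PP_restrict {C : Module.End k V} {V₀ : Submodule k V} (hst : ∀ v ∈ V₀, C v ∈ V₀)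
    {W : Submodule k V} (h : Nuc C V₀ W) : PP C V₀ = absP (C.restrict hst) := by
  have h1 := nuc_restrict hst h
  have := h.fin
  have := h1.fin
  rw [PP_eq h, absP_eq h1, cp_eq h.stab, cp_eq h1.st]
  let e : W.comap V₀.subtype ≃ₗ[k] W :=
    LinearEquiv.ofBijective (V₀.subtype.restrict (p := W.comap V₀.subtype) (q := W)
      fun x hx => hx) ⟨fun x y hxy => by
      have : (x : V₀).1 = (y : V₀).1 := congrArg (Subtype.val : W → V) hxy
      exact Subtype.ext (Subtype.ext this), fun y => ⟨⟨⟨y.1, h.le y.2⟩, y.2⟩, rfl⟩⟩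
  rw [← e.charpoly_conj]
  congr 2
  apply LinearMap.ext
  intro x
  obtain ⟨y, rfl⟩ := e.surjective x
  apply Subtype.ext
  simp only [LinearEquiv.conj_apply, LinearMap.comp_apply, LinearEquiv.coe_coe,
    LinearEquiv.symm_apply_apply]
  rfl

end

/-! ## the interfaces I_abs, I_ex, I_nil -/

theorem p_abs : I_abs := by
  intro k V _ _ _ C V₀ V₁ hle h1 h0 hab
  have key : (∃ W, Nuc C V₀ W) ↔ ∃ W, Nuc C V₁ W := by
    constructor
    · rintro ⟨W, h⟩
      have := h.fin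
      refine ⟨W ⊓ V₁, inf_le_right, ?_, fun w hw => ⟨h.stab _ hw.1, h1 _ hw.2⟩, fun v hv => ?_⟩
      · exact Module.Finite.of_injective (Submodule.inclusion (inf_le_left : W ⊓ V₁ ≤ W))
          (Submodule.inclusion_injective _)
      · obtain ⟨e, he⟩ := h.abs v (hle hv)
        exact ⟨e, he, pow_st h1 e v hv⟩
    · rintro ⟨W, h⟩
      refine ⟨W, h.le.trans hle, h.fin, h.stab, fun v hv => ?_⟩
      obtain ⟨e, he⟩ := hab v hv
      obtain ⟨e', he'⟩ := h.abs _ he
      exact ⟨e' + e, by rw [pow_add]; exact he'⟩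
  refine ⟨?_, key⟩
  rw [PU_eq_iff]
  by_cases hW : ∃ W, Nuc C V₁ W
  · obtain ⟨W, h⟩ := hW
    rw [PP_eq h]
    apply PP_eq
    refine ⟨h.le.trans hle, h.fin, h.stab, fun v hv => ?_⟩
    obtain ⟨e, he⟩ := hab v hv
    obtain ⟨e', he'⟩ := h.abs _ he
    exact ⟨e' + e, by rw [pow_add]; exact he'⟩
  · rw [PP_none hW, PP_none fun h => hW (key.1 h)]

theorem p_ex : I_ex := by
  intro k V' V V'' _ _ _ _ _ _ _ C' C C'' i q hi hq hex h1 h2 hW
  obtain ⟨W, hW⟩ := hW
  rw [nuc_top] at hW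
  have h1' : C ∘ₗ i = i ∘ₗ C' := LinearMap.ext fun v => (h1 v).symm
  have h2' : C'' ∘ₗ q = q ∘ₗ C := LinearMap.ext fun v => (h2 v).symm
  have hA' := hW.comap hi h1'
  have hA'' : Abs C'' (W.map q) := hW.map h2' fun v => ⟨0, hq v⟩
  refine ⟨⟨_, nuc_top.2 hA'⟩, ⟨_, nuc_top.2 hA''⟩, ?_⟩
  rw [Units.ext_iff, Units.val_mul, PU_val, PU_val, PU_val, PP_top hW, PP_top hA', PP_top hA'',
    ← Polynomial.coe_mul, Polynomial.coe_inj]
  exact absP_exact C' C C'' i q hi hq hex h1' h2' hW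

theorem p_nil : I_nil := by
  intro k V _ _ _ C V₀ hW
  obtain ⟨W, hW⟩ := hW
  rw [PU_eq_one_iff]
  -- pass to the nucleus `W`
  have := hW.fin
  have h1 : PP C V₀ = absP (C.restrict hW.stab) := by
    rw [PP_eq hW, cp_eq hW.stab, absP_fin]
  rw [h1]
  constructor
  · intro h
    apply absP_elnil
    intro v
    obtain ⟨e, he⟩ := h v (hW.le v.2)
    have h2 := pow_comm (i := W.subtype) (f := C.restrict hW.stab) (f' := C)
      (LinearMap.ext fun x => rfl) e v
    exact ⟨e, Subtype.ext (h2.symm.trans he)⟩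
  · intro h v hv
    obtain ⟨e, he⟩ := hW.abs v hv
    obtain ⟨e', he'⟩ := elnil_of_absP (abs_top (C.restrict hW.stab)) h ⟨_, he⟩
    have h2 := pow_comm (i := W.subtype) (f := C.restrict hW.stab) (f' := C)
      (LinearMap.ext fun x => rfl) e' ⟨_, he⟩
    rw [he'] at h2
    exact ⟨e' + e, by rw [pow_add]; simpa using h2⟩

end Pool.Agent.FrNA
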