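import Pool.Agent.Lib.MP_305fdd_al.Fr.N.A.Br

/-!
# MP_305fdd_al (`F_r`), nilpotence block, section A: auxiliary definitions
-/

set_option autoImplicit false

namespace Pool.Agent.FrNA

open Module Polynomial Pool.Agent.FrN

/-- the ideal `I_k` generated by all `b ^ (p ^ k) - b` -/
def frI (p k : ℕ) (B : Type) [CommRing B] : Ideal B :=
  Ideal.span (Set.range fun b : B => b ^ p ^ k - b)

/-- a filtration of a Cartier module by finite-dimensional subspaces, increased by a bounded amount
by the elements of the ring and contracted by the operators `C ^ k ∘ g`, `k ≥ 1` -/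
structure Fil {p : ℕ} {B : Type} [CommRing B] [Algebra (ZMod p) B] (X : CMod p B)
    (W : ℕ → Submodule (ZMod p) X.M) : Prop where
  fd : ∀ j, Module.Finite (ZMod p) (W j)
  mono : Monotone W
  ex : ∀ m, ∃ j, m ∈ W j
  mul : ∀ b : B, ∃ a, ∀ j, ∀ m ∈ W j, b • m ∈ W (j + a)
  con : ∀ (g : B) (k : ℕ), 1 ≤ k → ∀ a, ∃ j₀, ∀ j, j₀ ≤ j →
    ∀ m ∈ W (j + a), (X.C ^ k) (g • m) ∈ W j

/-- exact sequences of Cartier modules -/
structure Ex {p : ℕ} {B : Type} [CommRing B] [Algebra (ZMod p) B] (X' X X'' : CMod p B)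
    (i : X'.M →ₗ[B] X.M) (q : X.M →ₗ[B] X''.M) : Prop where
  inj : Function.Injective i
  surj : Function.Surjective q
  ex : ∀ m, q m = 0 ↔ ∃ x, i x = m
  eqi : ∀ m, X.C (i m) = i (X'.C m)
  eqq : ∀ m, X''.C (q m) = q (X.C m)

/-- no support at `V(J)` -/
def NS {p : ℕ} {B : Type} [CommRing B] [Algebra (ZMod p) B] (J : Ideal B) (X : CMod p B) : Prop :=
  ∀ m : X.M, ∃ b : B, b - 1 ∈ J ∧ b • m = 0

section Ud

variable {R : Type} [CommRing R]

/-- the subgroup of the units congruent to `1` modulo `X ^ (d + 1)` -/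
def Ud (R : Type) [CommRing R] (d : ℕ) : Subgroup (PowerSeries R)ˣ where
  carrier := {u | Cg d (u : PowerSeries R) 1}
  mul_mem' := by
    intro u v hu hv k hk
    have hu' : Cg d (u : PowerSeries R) 1 := hu
    have hv' : Cg d (v : PowerSeries R) 1 := hv
    rw [Units.val_mul, PowerSeries.coeff_mul, ← one_mul (1 : PowerSeries R),
      PowerSeries.coeff_mul]
    refine Finset.sum_congr rfl fun x hx => ?_
    have := Finset.HasAntidiagonal.mem_antidiagonal.1 hx
    rw [hu' _ (by omega), hv' _ (by omega)]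
  one_mem' := fun k _ => rfl
  inv_mem' := by
    intro u hu k hk
    have hu' : Cg d (u : PowerSeries R) 1 := hu
    have h1 : (u : PowerSeries R) * ((u⁻¹ : (PowerSeries R)ˣ) : PowerSeries R) = 1 :=
      u.mul_inv
    have h2 := congrArg (PowerSeries.coeff k) h1
    have h3 : PowerSeries.coeff k ((u : PowerSeries R) *
        ((u⁻¹ : (PowerSeries R)ˣ) : PowerSeries R)) =
        PowerSeries.coeff k ((1 : PowerSeries R) *
        ((u⁻¹ : (PowerSeries R)ˣ) : PowerSeries R)) := by
      rw [PowerSeries.coeff_mul, PowerSeries.coeff_mul]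
      refine Finset.sum_congr rfl fun x hx => ?_
      have := Finset.HasAntidiagonal.mem_antidiagonal.1 hx
      rw [hu' _ (by omega)]
    rw [h3, one_mul] at h2
    exact h2

theorem mem_Ud {d : ℕ} {u : (PowerSeries R)ˣ} : u ∈ Ud R d ↔ Cg d (u : PowerSeries R) 1 := Iff.rfl

theorem Cg.mul_right {d : ℕ} {f g : PowerSeries R} (h : Cg d f g) (v : PowerSeries R) :
    Cg d (f * v) (g * v) := by
  intro k hk
  rw [PowerSeries.coeff_mul, PowerSeries.coeff_mul]
  refine Finset.sum_congr rfl fun x hx => ?_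
  have := Finset.HasAntidiagonal.mem_antidiagonal.1 hx
  rw [h _ (by omega)]

/-- congruence of units -/
theorem div_mem_Ud {d : ℕ} {u v : (PowerSeries R)ˣ} :
    u / v ∈ Ud R d ↔ Cg d (u : PowerSeries R) (v : PowerSeries R) := by
  constructor
  · intro h
    have h1 := Cg.mul_right (mem_Ud.1 h) (v : PowerSeries R)
    rw [← Units.val_mul, div_mul_cancel, one_mul] at h1
    exact h1
  · intro h
    have h1 := Cg.mul_right h ((v⁻¹ : (PowerSeries R)ˣ) : PowerSeries R)
    rw [← Units.val_mul, ← Units.val_mul, mul_inv_cancel, Units.val_one, ← div_eq_mul_inv] at h1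
    exact h1

end Ud

end Pool.Agent.FrNA
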