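import Mathlib

/-!
# MP_305fdd_al (`F_r`), nilpotence block, section A: linear algebra

`cp W f` is the reversed characteristic polynomial `det (1 - X f | W)` of an endomorphism `f` of a
vector space which preserves the finite-dimensional subspace `W`; `absP f` is `cp W f` for any
finite-dimensional stable subspace `W` which absorbs every vector.
-/

set_option autoImplicit false

namespace Pool.Agent.FrNA

open Module Polynomial TensorProduct

/-! ### Sylvester's identity and determinants on stable submodules -/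

section syl

variable {R : Type*} [CommRing R] {S S' : Type*} [AddCommGroup S] [Module R S] [Module.Free R S]
  [Module.Finite R S] [AddCommGroup S'] [Module R S'] [Module.Free R S'] [Module.Finite R S']

theorem det_one_sub_comp_comm (A : S →ₗ[R] S') (B : S' →ₗ[R] S) :
    LinearMap.det (1 - A ∘ₗ B) = LinearMap.det (1 - B ∘ₗ A) := by
  classical
  let b := Module.Free.chooseBasis R S
  let b' := Module.Free.chooseBasis R S'
  rw [← LinearMap.det_toMatrix b', ← LinearMap.det_toMatrix b]
  simp only [map_sub, LinearMap.toMatrix_one, LinearMap.toMatrix_comp b' b b',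
    LinearMap.toMatrix_comp b b' b]
  exact Matrix.det_one_sub_mul_comm _ _

variable {N : Type*} [AddCommGroup N] [Module R N]

open Classical in
/-- the determinant of `u` on a stable submodule (`0` if it is not stable) -/
noncomputable def dS (S : Submodule R N) (u : N →ₗ[R] N) : R :=
  if h : ∀ x ∈ S, u x ∈ S then LinearMap.det (u.restrict h) else 0

theorem dS_eq {S : Submodule R N} {u : N →ₗ[R] N} (h : ∀ x ∈ S, u x ∈ S) :
    dS S u = LinearMap.det (u.restrict h) := by
  rw [dS, dif_pos h]

theorem dS_one (S : Submodule R N) : dS S 1 = 1 := by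
  rw [dS_eq (fun x hx => hx)]
  have : (LinearMap.restrict (1 : N →ₗ[R] N) (fun x hx => hx) : S →ₗ[R] S) = LinearMap.id := by
    ext x; rfl
  rw [this, LinearMap.det_id]

theorem dS_mul {S : Submodule R N} {u v : N →ₗ[R] N} (hu : ∀ x ∈ S, u x ∈ S)
    (hv : ∀ x ∈ S, v x ∈ S) : dS S (u * v) = dS S u * dS S v := by
  rw [dS_eq hu, dS_eq hv, dS_eq (u := u * v) (fun x hx => hu _ (hv _ hx)), ← LinearMap.det_comp]
  rfl

theorem dS_syl {S S' : Submodule R N} [Module.Free R S] [Module.Finite R S] [Module.Free R S']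
    [Module.Finite R S'] {x E : N →ₗ[R] N} (hx : ∀ v ∈ S, x v ∈ S') (hE : ∀ v ∈ S', E v ∈ S) :
    dS S' (1 - x * E) = dS S (1 - E * x) := by
  have h1 : ∀ v ∈ S', (1 - x * E) v ∈ S' := fun v hv => S'.sub_mem hv (hx _ (hE _ hv))
  have h2 : ∀ v ∈ S, (1 - E * x) v ∈ S := fun v hv => S.sub_mem hv (hE _ (hx _ hv))
  rw [dS_eq h1, dS_eq h2]
  have := det_one_sub_comp_comm (x.restrict hx) (E.restrict hE)
  have e1 : (1 - x * E).restrict h1 = 1 - x.restrict hx ∘ₗ E.restrict hE :=
    LinearMap.ext fun v => Subtype.ext rfl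
  have e2 : (1 - E * x).restrict h2 = 1 - E.restrict hE ∘ₗ x.restrict hx :=
    LinearMap.ext fun v => Subtype.ext rfl
  rw [e1, e2, this]

/-- `det (1 - E | S') = det (1 - E | S)` if `E` maps `S'` into `S ≤ S'` -/
theorem dS_sub {S S' : Submodule R N} [Module.Free R S] [Module.Finite R S] [Module.Free R S']
    [Module.Finite R S'] {E : N →ₗ[R] N} (hS : S ≤ S') (hE : ∀ v ∈ S', E v ∈ S) :
    dS S' (1 - E) = dS S (1 - E) := by
  have := dS_syl (S := S) (S' := S') (x := (1 : N →ₗ[R] N)) (E := E) (fun v hv => hS hv) hE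
  rwa [one_mul, mul_one] at this

end syl

/-! ### multiplicativity of the characteristic polynomial -/

section charpoly

variable {K : Type*} [Field K] {V : Type*} [AddCommGroup V] [Module K V]

open Module.Basis in
theorem charpoly_quot [Module.Finite K V] (W : Submodule K V) (e : V →ₗ[K] V)
    (he : ∀ x ∈ W, e x ∈ W) :
    e.charpoly = (e.restrict he).charpoly * (W.mapQ W e he).charpoly := by
  classical
  let m := Module.Free.ChooseBasisIndex K W
  let bW : Basis m K W := Module.Free.chooseBasis K W
  let n := Module.Free.ChooseBasisIndex K (V ⧸ W)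
  let bQ : Basis n K (V ⧸ W) := Module.Free.chooseBasis K (V ⧸ W)
  let b := sumQuot bW bQ
  let A : Matrix m m K := LinearMap.toMatrix bW bW (e.restrict he)
  let B : Matrix m n K := Matrix.of fun i l ↦
    ((sumQuot bW bQ).repr (e ((sumQuot bW bQ) (Sum.inr l)))) (Sum.inl i)
  let D : Matrix n n K := LinearMap.toMatrix bQ bQ (W.mapQ W e he)
  suffices LinearMap.toMatrix b b e = Matrix.fromBlocks A B 0 D by
    rw [← LinearMap.charpoly_toMatrix e b, this, ← LinearMap.charpoly_toMatrix _ bW,
      ← LinearMap.charpoly_toMatrix _ bQ, Matrix.charpoly_fromBlocks_zero₂₁]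
  ext u v
  cases u with
  | inl i =>
    cases v with
    | inl k =>
      simp only [b, sumQuot_inl, Matrix.fromBlocks_apply₁₁, A, LinearMap.toMatrix_apply]
      apply sumQuot_repr_inl_of_mem
    | inr l => simp [b, LinearMap.toMatrix_apply, Matrix.fromBlocks_apply₁₂, B]
  | inr j =>
    cases v with
    | inl k =>
      suffices W.mkQ (e (bW k)) = 0 by simp [LinearMap.toMatrix_apply, b, this]
      rw [← LinearMap.mem_ker, Submodule.ker_mkQ]
      exact he _ (Submodule.coe_mem (bW k))
    | inr l =>
      simp only [LinearMap.toMatrix_apply, sumQuot_repr_inr,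
        Matrix.fromBlocks_apply₂₂, b, D]
      rw [← sumQuot_inr bW bQ l, W.mapQ_apply]
      simp

variable {V' V'' : Type*} [AddCommGroup V'] [Module K V'] [AddCommGroup V''] [Module K V'']

/-- characteristic polynomials in a short exact sequence -/
theorem charpoly_exact [Module.Finite K V] [Module.Finite K V'] [Module.Finite K V'']
    (f' : V' →ₗ[K] V') (f : V →ₗ[K] V) (f'' : V'' →ₗ[K] V'') (i : V' →ₗ[K] V)
    (q : V →ₗ[K] V'') (hi : Function.Injective i) (hq : Function.Surjective q)
    (hex : LinearMap.range i = LinearMap.ker q) (h1 : f ∘ₗ i = i ∘ₗ f') (h2 : f'' ∘ₗ q = q ∘ₗ f) :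
    f.charpoly = f'.charpoly * f''.charpoly := by
  have hst : ∀ x ∈ LinearMap.range i, f x ∈ LinearMap.range i := by
    rintro _ ⟨y, rfl⟩
    exact ⟨f' y, (LinearMap.congr_fun h1 y).symm⟩
  rw [charpoly_quot (LinearMap.range i) f hst]
  congr 1
  · let e := LinearEquiv.ofInjective i hi
    rw [← e.charpoly_conj f']
    congr 1
    apply LinearMap.ext
    intro x
    obtain ⟨y, rfl⟩ := e.surjective x
    apply Subtype.ext
    simp only [LinearEquiv.conj_apply, LinearMap.comp_apply, LinearEquiv.coe_coe,
      LinearEquiv.symm_apply_apply]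
    exact LinearMap.congr_fun h1 y
  · let e : (V ⧸ LinearMap.range i) ≃ₗ[K] V'' :=
      (Submodule.quotEquivOfEq _ _ hex).trans (q.quotKerEquivOfSurjective hq)
    rw [← e.charpoly_conj]
    congr 1
    apply LinearMap.ext
    intro x
    obtain ⟨y, rfl⟩ := e.surjective x
    obtain ⟨z, rfl⟩ := Submodule.mkQ_surjective _ y
    simp only [LinearEquiv.conj_apply, LinearMap.comp_apply, LinearEquiv.coe_coe,
      LinearEquiv.symm_apply_apply]
    exact (LinearMap.congr_fun h2 z).symm

theorem charpoly_nil [Module.Finite K V] (f : V →ₗ[K] V) (hf : IsNilpotent f) :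
    f.charpoly = X ^ Module.finrank K V := by
  exact (LinearMap.charpoly_eq_X_pow_iff f).2 fun m => by
    obtain ⟨n, hn⟩ := hf
    exact ⟨n, by rw [hn]; rfl⟩

end charpoly

/-! ### absorbing subspaces -/

section abs

variable {K : Type*} [Field K] {V : Type*} [AddCommGroup V] [Module K V]

/-- `W` is a finite-dimensional stable absorbing subspace for `f` -/
structure Abs (f : V →ₗ[K] V) (W : Submodule K V) : Prop where
  fin : Module.Finite K W
  st : ∀ x ∈ W, f x ∈ W
  ab : ∀ v, ∃ n : ℕ, (f ^ n) v ∈ W

open Classical in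
/-- `det (1 - X f | W)` -/
noncomputable def cp (W : Submodule K V) (f : V →ₗ[K] V) : K[X] :=
  if h : Module.Finite K W ∧ ∀ x ∈ W, f x ∈ W then
    haveI := h.1
    (LinearMap.charpoly (f.restrict h.2)).reverse
  else 0

theorem cp_eq {W : Submodule K V} [hW : Module.Finite K W] {f : V →ₗ[K] V}
    (h : ∀ x ∈ W, f x ∈ W) : cp W f = (LinearMap.charpoly (f.restrict h)).reverse := by
  rw [cp, dif_pos ⟨hW, h⟩]

theorem cp_coeff_zero {W : Submodule K V} [hW : Module.Finite K W] {f : V →ₗ[K] V}
    (h : ∀ x ∈ W, f x ∈ W) : (cp W f).coeff 0 = 1 := by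
  rw [cp_eq h, coeff_zero_reverse, (LinearMap.charpoly_monic _).leadingCoeff]

open Classical in
/-- the reversed characteristic polynomial of `f` on an absorbing subspace -/
noncomputable def absP (f : V →ₗ[K] V) : K[X] :=
  if h : ∃ W, Abs f W then cp h.choose f else 0

end abs

end Pool.Agent.FrNA
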