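import Pool.Agent.Lib.MP_305fdd_al.Fr.N.A.Defs

/-!
# MP_305fdd_al (`F_r`), nilpotence block, sections A and G: statements and proofs

General tools which are already proved: `Fr/N/A/Abs.lean` (`absP_exact`, `absP_hom`, `absP_elnil`,
`absP_sub`, `absP_equiv`, `Abs.exists_surj`, ...) and `Fr/N/A/Br.lean` (`nuc_top`, `PP_eq`, `PP_top`,
`PU_eq_iff`, `PP_restrict`, `p_abs : I_abs`, `p_ex : I_ex`, `p_nil : I_nil`).
Every `def S_xx : Prop` is one independent piece; its docstring contains the complete proof.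
-/

set_option autoImplicit false

namespace Pool.Agent.FrNA

open Module Polynomial Pool.Agent.FrN Pool.Agent.F2Ch

/-- [N A fil] filtration.

Proof. Let `x_1, .., x_n` generate the algebra `B`, `m_1, .., m_s` the module `M`. `S_j` := `j`-th power
of the subspace `span {1, x_1, .., x_n}` of `B` (`Submodule (ZMod p) B`, `S_i * S_j = S_(i+j)`,
finite-dimensional, increasing, union `B`; spanned by the products of `j` elements of `{1, x_l}`),
`W j := ∑ i, S_j • m_i` (image of `S_j ^ s` under `(b_i) ↦ ∑ b_i m_i`). `fd`, `mono`, `ex` are clear, `mul`: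
`b ∈ S_a`, `S_a S_j ⊆ S_(j+a)`.
CONTRACTION: every monomial `x ^ α` of degree `|α| ≤ j` is `(x ^ β) ^ p * x ^ γ` with `β = α / p`,
`γ = α % p`, `|β| ≤ j / p`, so `C (x ^ α m_i) = x ^ β C (x ^ γ m_i)`, and the finitely many elements
`C (x ^ γ m_i)`, `γ l < p`, lie in one `W c`. So `C (W j) ⊆ W (j / p + c)`. Now `con` for `k = 1`:
`g ∈ S_b`: `C (g W_(j+a)) ⊆ C (W_(j+a+b)) ⊆ W_((j+a+b)/p + c) ⊆ W_j` if `j ≥ a + b + 2 c`
(`p ≥ 2`). For `k + 1 ≥ 2`: `C ^ (k+1) (g m) = C ^ k (1 • C (g m))`, first `C g W_(j+a) ⊆ W_j`, then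
`C ^ k W_j ⊆ W_j` (`a = 0`). -/
def S_fil : Prop :=
  ∀ (p : ℕ) [Fact p.Prime] (B : Type) [CommRing B] [Algebra (ZMod p) B]
    [Algebra.FiniteType (ZMod p) B] (X : CMod p B) [Module.Finite B X.M], ∃ W, Fil X W

/-- [N A filabs] absorbing subspaces of all twists.

Proof. `con g 1 _ 1` gives `j₀` with `C (g W_(j+1)) ⊆ W_j` for `j ≥ j₀`. For `j ≥ j₀`, `W j` is
finite-dimensional, stable under `C ∘ g` (`W_j ≤ W_(j+1)`), and `(C ∘ g) ^ n W_(j+n) ⊆ W_j`. -/
def S_filabs : Prop :=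
  ∀ (p : ℕ) [Fact p.Prime] (B : Type) [CommRing B] [Algebra (ZMod p) B] (X : CMod p B)
    (W : ℕ → Submodule (ZMod p) X.M), Fil X W → ∀ g : B, ∃ j₀, ∀ j, j₀ ≤ j → Abs (X.tw g).C (W j)

/-- [N A van] vanishing (proof: helper5). -/
def S_van : Prop :=
  ∀ (p : ℕ) [Fact p.Prime] (B : Type) [CommRing B] [Algebra (ZMod p) B]
    [Algebra.FiniteType (ZMod p) B] (X : CMod p B) [Module.Finite B X.M] (d : ℕ) (J : Ideal B),
    (∀ k, 1 ≤ k → k ≤ d → J ≤ frI p k B) → ∀ g ∈ J * J, (X.tw g).P ∈ Ud (ZMod p) d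

/-- [N A tw2] twists by `y ^ (p - 1)` and `y ^ (2 (p - 1))`. (Uses `I_nuc`.)

Proof. `absP_hom` for `φ = (y • ·)` from `X.tw (y ^ (p-1))` to `X.tw (y ^ (2 (p-1)))`: equivariant because
`C (y ^ (2 (p-1)) y m) = C (y ^ p y ^ (p-1) m) = y C (y ^ (p-1) m)`; kernel: `y m = 0` implies
`C (y ^ (p-1) m) = 0` (`n = 1`, `p ≥ 2`); cokernel: `C (y ^ (2p-2) m) = C (y ^ p y ^ (p-2) m) =
y C (y ^ (p-2) m)` (`n = 1`). `CMod.P X = PU X.C ⊤`, `PP_top`. -/
def S_tw2 : Prop :=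
  ∀ (p : ℕ) [Fact p.Prime] (B : Type) [CommRing B] [Algebra (ZMod p) B]
    [Algebra.FiniteType (ZMod p) B] (X : CMod p B) [Module.Finite B X.M] (y : B),
    (X.tw (y ^ (p - 1))).P = (X.tw (y ^ (2 * (p - 1)))).P

/-- [N A Kex] `KP` is multiplicative in exact sequences. (Uses `I_nuc`.)

Proof. Induction on `ys` over all exact sequences: `ys = []` is `p_ex : I_ex` (with
`i.restrictScalars (ZMod p)`; nuclei by `I_nuc`), and a twist of an exact sequence is exact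
(`X.tw g` has the same underlying module, in particular it is finite). -/
def S_Kex : Prop :=
  ∀ (p : ℕ) [Fact p.Prime] (B : Type) [CommRing B] [Algebra (ZMod p) B]
    [Algebra.FiniteType (ZMod p) B] (X' X X'' : CMod p B) [Module.Finite B X.M]
    (i : X'.M →ₗ[B] X.M) (q : X.M →ₗ[B] X''.M), Ex X' X X'' i q → ∀ ys,
    CMod.KP ys X = CMod.KP ys X' * CMod.KP ys X''

/-- [N A Keq] `KP` under equivariant isomorphisms (no finiteness needed).

Proof. Induction on `ys` over all pairs. `ys = []`: `PU X.C ⊤ = PU X'.C ⊤`: if there is a nucleus `W` for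
`X`, then `W.map e` is one for `X'`; `PP_top`, `absP_equiv` (`e.restrictScalars (ZMod p)`); the same for
`e.symm`; if there is none for both, both sides are `1` (`PP_none`). Twists: `e` is `B`-linear. -/
def S_Keq : Prop :=
  ∀ (p : ℕ) [Fact p.Prime] (B : Type) [CommRing B] [Algebra (ZMod p) B] (X X' : CMod p B)
    (e : X.M ≃ₗ[B] X'.M), (∀ m, X'.C (e m) = e (X.C m)) → ∀ ys, CMod.KP ys X' = CMod.KP ys X

/-- [N A Kstep] the Koszul step. (Uses `S_Kex`.)

Proof. `I` := image of `y` as a Cartier module with the operator of `X.tw (y ^ (p-1))` (stable: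
`C (y ^ (p-1) y m) = C (y ^ p m) = y C m`). `0 → X.kr y → X → I → 0` (`m ↦ y m`, equivariant by the same
computation) and `0 → I → X.tw (y ^ (p-1)) → X.qt y → 0` are exact. `S_Kex` twice: `KP ys X = KP ys (kr) *
KP ys I`, `KP ys (X.tw ..) = KP ys I * KP ys (qt)`; divide. -/
def S_Kstep : Prop :=
  ∀ (p : ℕ) [Fact p.Prime] (B : Type) [CommRing B] [Algebra (ZMod p) B]
    [Algebra.FiniteType (ZMod p) B] (X : CMod p B) [Module.Finite B X.M] (y : B) (ys : List B),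
    CMod.KP (y :: ys) X = CMod.KP ys (X.kr y) / CMod.KP ys (X.qt y)

/-- [N A Kone] `Ann M + (ys) = (1)` implies `KP ys X = 1`. (Uses `S_Kstep`.)

Proof. Induction on `ys` over all finite `X`. `[]`: `a = 0`, `M = 0`, `P = 1` (`p_nil`, the nucleus `⊥`).
`y :: ys`: `S_Kstep`; `a = c y + a'` with `a' ∈ span ys`; on `kr y` and `qt y` the element `y` acts as zero, so
`a'` acts as the identity. (`B` is Noetherian, so `kr y` is finite.) -/
def S_Kone : Prop :=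
  ∀ (p : ℕ) [Fact p.Prime] (B : Type) [CommRing B] [Algebra (ZMod p) B]
    [Algebra.FiniteType (ZMod p) B] (ys : List B) (X : CMod p B) [Module.Finite B X.M],
    (∃ a ∈ Ideal.span {y | y ∈ ys}, ∀ m : X.M, a • m = m) → CMod.KP ys X = 1

/-- [N A Kzero] twists by elements of the ideal of the `ys`. (Uses `S_Kstep`, `S_Keq`.)

Proof. Induction on `ys` over all finite `X`. `[]`: `a = 0`, so `z` acts as zero on `M`, the operator of
`X.tw (z ^ (p-1))` is zero (`p - 1 ≥ 1`), `P = 1` (`p_nil`). `y :: ys`: `S_Kstep` for `X.tw g`,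
`g = z ^ (p-1)`; `(X.tw g).kr y` and `(X.kr y).tw g` have the same module and the same operator, similarly
`(X.tw g).qt y` and `(X.qt y).tw g` (`y ^ (p-1) g = g y ^ (p-1)`): `S_Keq` with the identity. If
`z m = a m`, `a = c y + a'`, `a' ∈ span ys`, then `z` acts on `kr y` and `qt y` as `a'`. -/
def S_Kzero : Prop :=
  ∀ (p : ℕ) [Fact p.Prime] (B : Type) [CommRing B] [Algebra (ZMod p) B]
    [Algebra.FiniteType (ZMod p) B] (ys : List B) (X : CMod p B) [Module.Finite B X.M] (z : B),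
    (∃ a ∈ Ideal.span {y | y ∈ ys}, ∀ m : X.M, z • m = a • m) →
    CMod.KP ys (X.tw (z ^ (p - 1))) = 1

/-- [N A NS] no support at `V(J)`. (Uses `S_van`, `S_Keq`.)

Proof. `M` is finitely generated: one `b` with `b - 1 ∈ J` and `b M = 0` (product over generators), so
`c = 1 - b ∈ J` acts as the identity, `X.tw g` and `X.tw (c * c * g)` have the same operator, and
`c * c * g ∈ J * J`: `S_van`, so `(X.tw g).P ∈ Ud` for all `g` (`S_Keq` for `ys = []` and the identity). By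
induction on `ys` over the `g`: `KP ys (X.tw g) ∈ Ud` (`(X.tw g).tw g'` is `X.tw (g g')` up to the identity);
`X` is `X.tw 1` up to the identity. -/
def S_NS : Prop :=
  ∀ (p : ℕ) [Fact p.Prime] (B : Type) [CommRing B] [Algebra (ZMod p) B]
    [Algebra.FiniteType (ZMod p) B] (X : CMod p B) [Module.Finite B X.M] (d : ℕ) (J : Ideal B),
    (∀ k, 1 ≤ k → k ≤ d → J ≤ frI p k B) → NS J X → ∀ ys : List B,
    CMod.KP ys X ∈ Ud (ZMod p) d

/-- [N A A6] the alternating product modulo `X ^ (d+1)`. (Uses `S_van`, `S_tw2`, `S_Keq`.)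

Proof. (1) for `y ∈ J`: `(X.tw (y ^ (p-1))).P = (X.tw (y ^ (2 (p-1)))).P ∈ Ud` by `S_tw2`, `S_van`
(`y ^ (2 (p-1)) ∈ J * J` because `p ≥ 2`). (2) for `y ∈ J` and all `ys`: `KP ys (X.tw (y ^ (p-1))) ∈ Ud`, by
induction on `ys` for all `y ∈ J`: `(X.tw (y ^ (p-1))).tw (z ^ (p-1))` is `X.tw ((y z) ^ (p-1))` up to the
identity (`S_Keq`), and `y z ∈ J`. (3) induction on `ys`: `X.P / KP (y :: ys) X = (X.P / KP ys X) *
KP ys (X.tw (y ^ (p-1)))`. -/
def S_A6 : Prop :=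
  ∀ (p : ℕ) [Fact p.Prime] (B : Type) [CommRing B] [Algebra (ZMod p) B]
    [Algebra.FiniteType (ZMod p) B] (X : CMod p B) [Module.Finite B X.M] (d : ℕ) (J : Ideal B),
    (∀ k, 1 ≤ k → k ≤ d → J ≤ frI p k B) → ∀ ys : List B, (∀ y ∈ ys, y ∈ J) →
    X.P / CMod.KP ys X ∈ Ud (ZMod p) d

/-- [N A locf] localisation, in a field. (Uses `I_nuc`.)

Proof. `X = toC h M hM`, `N = (loc z M).restrictScalars (ZMod p)` is stable under `Φ` (if `z ^ a x ∈ M` then
`z ^ a Φ x = Φ (z ^ (p a) x) ∈ M`). `absP_hom` for the map `m ↦ z⁻¹ m` (division in `K`) from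
`X.tw (z ^ (p-1))` to `N` with the restriction of `toEnd h`: equivariant: `Φ (z⁻¹ m) =
Φ ((z⁻¹) ^ p z ^ (p-1) m) = z⁻¹ Φ (z ^ (p-1) m)`; injective; cokernel: `x ∈ N`, `z ^ a x = m ∈ M`; for `n` with
`p ^ n ≥ a`: `Φ^[n] x = Φ^[n] ((z⁻¹) ^ (p ^ n) z ^ (p ^ n - a) m) = z⁻¹ Φ^[n] (z ^ (p ^ n - a) m) ∈ z⁻¹ M`.
Nucleus: `I_nuc` for `X.tw (z ^ (p-1))`, `Abs.map`, `restrict_nuc`; polynomials: `PP_restrict`, `PP_top`. -/
def S_locf : Prop :=
  ∀ (p : ℕ) [Fact p.Prime] (K : Type) [Field K] [Algebra (ZMod p) K] (B : Subalgebra (ZMod p) K),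
    B.FG → ∀ (Φ : K → K) (h : IsPinv p Φ) (M : Submodule B K) (hM : Stb Φ M), M.FG →
    ∀ z : B, z ≠ 0 → (∃ W, Nuc (toEnd h) ((loc z M).restrictScalars (ZMod p)) W) ∧
      PF h (loc z M) = ((toC h M hM).tw (z ^ (p - 1))).P

/-- [N A kfk] the alternating products of localisations are those of twists. (Uses `S_locf`, `S_Keq`.)

Proof. Induction on `ys` for all `z ≠ 0`: `ys = []`: `S_locf`. `y :: ys`: `loc y (loc z M) = loc (z * y) M`
(`z ^ b y ^ a x ∈ M` implies `(z y) ^ (a + b) x ∈ M`; conversely `(z y) ^ c x = z ^ c (y ^ c x)`), and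
`(X.tw (z ^ (p-1))).tw (y ^ (p-1))` is `X.tw ((z y) ^ (p-1))` up to the identity (`S_Keq`). -/
def S_kfk : Prop :=
  ∀ (p : ℕ) [Fact p.Prime] (K : Type) [Field K] [Algebra (ZMod p) K] (B : Subalgebra (ZMod p) K),
    B.FG → ∀ (Φ : K → K) (h : IsPinv p Φ) (M : Submodule B K) (hM : Stb Φ M), M.FG →
    ∀ (ys : List B) (z : B), (∀ y ∈ ys, y ≠ 0) → z ≠ 0 →
    KF h ys (loc z M) = CMod.KP ys ((toC h M hM).tw (z ^ (p - 1)))

/-- [N A hull] `I_hull`.

Proof. `c = 0`: `M = ⊥`. Let `c ≠ 0`, `x_1, .., x_n` generators of the algebra `B`. Every `b ∈ B` is a finite sum of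
products `a ^ p * x ^ γ`, `a ∈ B`, `γ l < p`, so `Φ (b c)` lies in the `B`-span of the finitely many elements
`Φ (x ^ γ c)`; let `δ ≠ 0` in `B` be a common denominator: `δ Φ (x ^ γ c) ∈ B c` for all `γ` (`Frc B`).
So `δ Φ (b c) ∈ B c` for all `b ∈ B`. Then `Q = B c δ⁻²` is stable: `Φ (b c δ⁻²) =
Φ ((δ⁻¹) ^ p (δ ^ (p-2) b c)) = δ⁻¹ Φ (δ ^ (p-2) b c) ∈ δ⁻² B c`. It contains `c` and is a Noetherian `B`-module.
`M` := infimum of all stable submodules containing `c`. -/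
def S_hull : Prop := I_hull

/-! ## Section G -/

open Pool.Agent.F2TF (LD)

/-- [N G ghost] logarithmic derivatives of power series which are congruent modulo `p`.

Proof. (0) `LD f s` says `coeff 0 f = 1` and `X * f' = - f * S`, `S = ∑ s k X ^ k` (`k ≥ 1`); products:
`F2TF.S_ld` (proved: `F2/TF/P/b8.lean`). If `f * g = 1` and `LD f s` then `LD g (-s)`.
(1) `1 - b X ^ K`, `K ≥ 1`: `LD` with `s k = K b ^ (k / K)` if `K ∣ k`, `0` otherwise.
(2) It is enough: `LD h s`, `p ∣ coeff k h` for `1 ≤ k ≤ N` implies `p ^ (i + 1) ∣ s k` for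
`1 ≤ k ≤ N`, `p ^ i ∣ k` (apply to `h = f g⁻¹`, inverse `PowerSeries.invOfUnit g 1`, integer coefficients).
(3) Claim for every `K ≥ 1`: if moreover `coeff k h = 0` for `1 ≤ k < K` then (2) holds. Downward
induction on `K`: for `K > N` all `s k = 0`, `k ≤ N`, by the recursion. Step: `b := - coeff K h`, `p ∣ b`;
`h₁ = h * (1 - b X ^ K)⁻¹` has `coeff k h₁ = 0` for `1 ≤ k ≤ K` and `p ∣ coeff k h₁` for `1 ≤ k ≤ N`
(`(1 - b X ^ K)⁻¹ ≡ 1` mod `p`), `LD h₁ s₁`, `s k = s₁ k + [K ∣ k] K b ^ (k / K)`. For `K ∣ k`: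
`p ^ (k/K) ∣ b ^ (k/K)`, `v_p(k / K) + 1 ≤ k / K`, so `p ^ (v_p k + 1) ∣ K b ^ (k / K)`. -/
def S_ghost : Prop :=
  ∀ (p : ℕ) [Fact p.Prime] (f g : PowerSeries ℤ) (s t : ℕ → ℤ) (N : ℕ), LD f s → LD g t →
    (∀ k ≤ N, (p : ℤ) ∣ PowerSeries.coeff k f - PowerSeries.coeff k g) →
    ∀ k i, 1 ≤ k → k ≤ N → p ^ i ∣ k → (p : ℤ) ^ (i + 1) ∣ s k - t k

/-- [N G mat] powers of an integer matrix which is invertible modulo `p`.

Proof. `GL_n(F_p)` is finite: `k₀` with `A ^ k₀ ≡ 1` mod `p`. Then `A ^ (k₀ p ^ i) ≡ 1` mod `p ^ (i+1)` by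
induction on `i`: `(1 + p ^ (i+1) Y) ^ p = 1 + p ^ (i+2) (..)` (commuting matrices; binomial theorem),
so `A ^ k ≡ 1` mod `p ^ (i+1)` for `k₀ p ^ i ∣ k`; trace. -/
def S_mat : Prop :=
  ∀ (p : ℕ) [Fact p.Prime] (n : ℕ) (A : Matrix (Fin n) (Fin n) ℤ),
    IsUnit (A.map (Int.castRingHom (ZMod p))) → ∃ k₀, 1 ≤ k₀ ∧ ∀ i k, k₀ * p ^ i ∣ k →
      (p : ℤ) ^ (i + 1) ∣ (A ^ k).trace - n

/-- [N G end] `I_G`. (Uses `S_ghost`, `S_mat`.)

Proof. Restrict `C` to a nucleus `W` of `V₀` (finite-dimensional), then `Abs.exists_surj`: a stable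
`W' ≤ W` on which `C` is bijective and which absorbs `V₀`, `Nuc C V₀ W'`, `n = dim W'`. If `n = 0`, `C` is
elementwise nilpotent on `V₀`. Otherwise let `Ā` be the (invertible) matrix of `C | W'` in a basis, `A` an
integer lift; `PP C V₀ = cp W' C = (C | W').charpoly.reverse = Ā.charpolyRev` (`PP_eq`,
`Matrix.reverse_charpoly`) is the reduction of `A.charpolyRev`, and
`LD A.charpolyRev (k ↦ trace (A ^ k))` (`F2TF.S_ldchar`, proved in `F2/TF/P/b7.lean`). `S_ghost` (`N = k`) and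
`S_mat`: `s k ≡ trace (A ^ k) ≡ n` mod `p ^ (i+1)`. -/
def S_end : Prop := I_G

/-- [N G euler] the logarithmic derivative of a finite product of Euler factors (for section D).

Proof. `LD (1 - χ X ^ e) (k ↦ if e ∣ k then e χ ^ (k / e) else 0)` and `F2TF.S_ld` (products), induction on
the finite set. -/
def S_euler : Prop :=
  ∀ (ι : Type) (Z : Finset ι) (deg : ι → ℕ) (χ : ι → ℤ), (∀ z ∈ Z, 1 ≤ deg z) →
    LD (∏ z ∈ Z, (1 - PowerSeries.C (χ z) * PowerSeries.X ^ deg z) : PowerSeries ℤ)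
      fun k => ∑ z ∈ Z, if deg z ∣ k then (deg z : ℤ) * χ z ^ (k / deg z) else 0

end Pool.Agent.FrNA
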