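import Pool.Agent.Lib.MP_305fdd_al.Fr.N.A.Defs

/-!
# MP_305fdd_al (`F_r`), nilpotence block, section A: base change of the characteristic polynomial
-/

set_option autoImplicit false

namespace Pool.Agent.FrNA

open Module Polynomial TensorProduct

section

variable {k : Type} [Field k] {V : Type} [AddCommGroup V] [Module k V] (R : Type) [CommRing R]
  [Algebra k R]

theorem bc_free (W : Submodule k V) : Module.Free R (W.baseChange R) :=
  Module.Free.of_equiv (Submodule.toBaseChange.toLinearEquiv R W)

theorem bc_fin (W : Submodule k V) [Module.Finite k W] : Module.Finite R (W.baseChange R) :=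
  Module.Finite.equiv (Submodule.toBaseChange.toLinearEquiv R W)

theorem bc_map {W W' : Submodule k V} {f : V →ₗ[k] V} (h : ∀ m ∈ W, f m ∈ W') :
    ∀ x ∈ W.baseChange R, f.baseChange R x ∈ W'.baseChange R := by
  intro x hx
  rw [Submodule.baseChange_eq_span] at hx
  induction hx using Submodule.span_induction with
  | mem x hx =>
    obtain ⟨m, hm, rfl⟩ := hx
    have : f.baseChange R ((TensorProduct.mk k R V) 1 m) = (1 : R) ⊗ₜ[k] f m := by simp
    rw [this]
    exact Submodule.tmul_mem_baseChange_of_mem 1 (h m hm)
  | zero => rw [map_zero]; exact Submodule.zero_mem _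
  | add x y _ _ hx hy => rw [map_add]; exact Submodule.add_mem _ hx hy
  | smul a x _ hx => rw [map_smul]; exact Submodule.smul_mem _ a hx

theorem bc_mono {W W' : Submodule k V} (h : W ≤ W') : W.baseChange R ≤ W'.baseChange R := by
  intro x hx
  have := bc_map R (f := LinearMap.id) (W := W) (W' := W') (fun m hm => h hm) x hx
  rwa [LinearMap.baseChange_id] at this

/-- `det (1 - t f)` on `R ⊗ W` is the value of `cp W f` at `t` -/
theorem dS_bc {W : Submodule k V} [Module.Finite k W] {f : V →ₗ[k] V} (h : ∀ x ∈ W, f x ∈ W)
    (t : R) : dS (W.baseChange R) (1 - t • f.baseChange R) = aeval t (FrNA.cp W f) := by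
  have hst : ∀ x ∈ W.baseChange R, (1 - t • f.baseChange R) x ∈ W.baseChange R := fun x hx =>
    Submodule.sub_mem _ hx (Submodule.smul_mem _ t (bc_map R h x hx))
  rw [dS_eq hst, cp_eq h]
  let e := Submodule.toBaseChange.toLinearEquiv R W
  have e1 : (1 - t • f.baseChange R).restrict hst =
      e.conj (1 - t • (f.restrict h).baseChange R) := by
    apply LinearMap.ext
    intro x
    obtain ⟨y, rfl⟩ := e.surjective x
    apply Subtype.ext
    simp only [LinearEquiv.conj_apply, LinearMap.comp_apply, LinearEquiv.coe_coe,
      LinearEquiv.symm_apply_apply]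
    have key : ∀ z : R ⊗[k] W, ((e z : W.baseChange R) : R ⊗[k] V) =
        W.subtype.baseChange R z := fun z => rfl
    have key2 : f.baseChange R (W.subtype.baseChange R y) =
        W.subtype.baseChange R ((f.restrict h).baseChange R y) := by
      rw [← LinearMap.comp_apply, ← LinearMap.comp_apply, ← LinearMap.baseChange_comp,
        ← LinearMap.baseChange_comp]
      rfl
    rw [key]
    simp only [LinearMap.sub_apply, Module.End.one_apply, LinearMap.smul_apply, map_sub, map_smul]
    rw [← key2]
    rfl
  rw [e1, LinearEquiv.conj_apply, LinearMap.comp_assoc, LinearMap.det_conj]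
  classical
  let b := Module.Free.chooseBasis k W
  let b' := Algebra.TensorProduct.basis R b
  have e2 : LinearMap.toMatrix b' b' (1 - t • (f.restrict h).baseChange R) =
      1 - t • (LinearMap.toMatrix b b (f.restrict h)).map (algebraMap k R) := by
    have e3 : (1 - t • (f.restrict h).baseChange R : (R ⊗[k] W) →ₗ[R] (R ⊗[k] W)) =
      LinearMap.id - t • (f.restrict h).baseChange R := rfl
    rw [e3]
    have e4 := map_sub (LinearMap.toMatrix b' b') (LinearMap.id : (R ⊗[k] W) →ₗ[R] (R ⊗[k] W))
      (t • (f.restrict h).baseChange R)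
    have e5 := map_smul (LinearMap.toMatrix b' b') t ((f.restrict h).baseChange R)
    rw [e4, e5, LinearMap.toMatrix_id, LinearMap.toMatrix_baseChange]
  rw [← LinearMap.det_toMatrix b', e2, ← LinearMap.charpoly_toMatrix (f.restrict h) b,
    Matrix.reverse_charpoly, Matrix.charpolyRev, AlgHom.map_det]
  congr 1
  ext i j
  simp only [Matrix.sub_apply, Matrix.one_apply, Matrix.smul_apply, Matrix.map_apply, smul_eq_mul,
    AlgHom.mapMatrix_apply, map_sub, map_mul, aeval_X, aeval_C]
  split_ifs <;> simp

end

end Pool.Agent.FrNA
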