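import Pool.Agent.Lib.MP_305fdd_al.Fr.N.A.Stm
import Pool.Agent.Lib.MP_305fdd_al.F2.TF.P.b8

set_option autoImplicit false

namespace Pool.Agent.FrNA

open Pool.Agent.F2TF (LD)

private theorem ld_factor (e : ℕ) (he : 1 ≤ e) (x : ℤ) :
    LD (1 - PowerSeries.C x * PowerSeries.X ^ e : PowerSeries ℤ)
      (fun k => if e ∣ k then (e : ℤ) * x ^ (k / e) else 0) := by
  have hc : ∀ n : ℕ, PowerSeries.coeff n (1 - PowerSeries.C x * PowerSeries.X ^ e : PowerSeries ℤ) =
      (if n = 0 then 1 else 0) - x * (if n = e then 1 else 0) := by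
    intro n
    rw [map_sub, PowerSeries.coeff_one, PowerSeries.coeff_C_mul, PowerSeries.coeff_X_pow]
  refine ⟨?_, fun k => ?_⟩
  · rw [hc, if_pos rfl, if_neg (by omega)]
    ring
  · set s : ℕ → ℤ := fun k => if e ∣ k then (e : ℤ) * x ^ (k / e) else 0 with hs
    have h1 : ∑ j ∈ Finset.range (k + 1), s (j + 1) * (if k - j = 0 then (1 : ℤ) else 0) =
        s (k + 1) := by
      rw [Finset.sum_eq_single k]
      · simp
      · intro j hj hne
        have := Finset.mem_range.1 hj
        rw [if_neg (by omega), mul_zero]
      · intro h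
        exact absurd (Finset.mem_range.2 (Nat.lt_succ_self k)) h
    have h2 : ∑ j ∈ Finset.range (k + 1), s (j + 1) * (if k - j = e then (1 : ℤ) else 0) =
        if e ≤ k then s (k + 1 - e) else 0 := by
      by_cases hek : e ≤ k
      · rw [if_pos hek, Finset.sum_eq_single (k - e)]
        · rw [if_pos (by omega), mul_one]
          congr 1
          omega
        · intro j hj hne
          have := Finset.mem_range.1 hj
          rw [if_neg (by omega), mul_zero]
        · intro h
          exact absurd (Finset.mem_range.2 (by omega)) h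
      · rw [if_neg hek]
        apply Finset.sum_eq_zero
        intro j hj
        rw [if_neg (by omega), mul_zero]
    have h3 : ∑ j ∈ Finset.range (k + 1), s (j + 1) *
        PowerSeries.coeff (k - j) (1 - PowerSeries.C x * PowerSeries.X ^ e : PowerSeries ℤ) =
        s (k + 1) - x * (if e ≤ k then s (k + 1 - e) else 0) := by
      rw [← h1, ← h2, Finset.mul_sum, ← Finset.sum_sub_distrib]
      refine Finset.sum_congr rfl fun j _ => ?_
      rw [hc]
      ring
    rw [h3, hc, if_neg (by omega)]
    have e1 : s (k + 1) = if e ∣ k + 1 then (e : ℤ) * x ^ ((k + 1) / e) else 0 := rfl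
    have e2 : s (k + 1 - e) = if e ∣ k + 1 - e then (e : ℤ) * x ^ ((k + 1 - e) / e) else 0 := rfl
    rcases lt_trichotomy (k + 1) e with hlt | heq | hgt
    · have hnd : ¬ e ∣ k + 1 := fun h => by
        have := Nat.le_of_dvd (Nat.succ_pos k) h
        omega
      rw [if_neg (by omega : ¬ k + 1 = e), e1, if_neg hnd, if_neg (by omega : ¬ e ≤ k)]
      ring
    · rw [if_pos heq, e1, heq, if_pos (dvd_refl e), Nat.div_self (by omega),
        if_neg (by omega : ¬ e ≤ k)]
      have : (k : ℤ) + 1 = e := by exact_mod_cast heq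
      rw [this]
      ring
    · rw [if_neg (by omega : ¬ k + 1 = e), if_pos (by omega : e ≤ k), e1, e2]
      by_cases hd : e ∣ k + 1
      · obtain ⟨c, hc'⟩ := hd
        have hc1 : 1 ≤ c := by
          rcases Nat.eq_zero_or_pos c with h | h
          · subst h; omega
          · exact h
        have hsub : k + 1 - e = e * (c - 1) := by
          rw [hc', Nat.mul_sub, mul_one]
        rw [hsub, hc', if_pos (dvd_mul_right e c), if_pos (dvd_mul_right e (c - 1)),
          Nat.mul_div_cancel_left c (by omega), Nat.mul_div_cancel_left (c - 1) (by omega)]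
        obtain ⟨c', rfl⟩ := Nat.exists_eq_add_of_le hc1
        rw [Nat.add_sub_cancel_left, pow_add]
        ring
      · have hd2 : ¬ e ∣ k + 1 - e := by
          intro h
          apply hd
          have := (Nat.dvd_sub_iff_left (by omega : e ≤ k + 1) (dvd_refl e)).1 h
          exact this
        rw [if_neg hd, if_neg hd2]
        ring

theorem p_euler : S_euler := by
  classical
  intro ι Z deg χ hdeg
  induction Z using Finset.induction_on with
  | empty =>
    refine ⟨by simp, fun k => ?_⟩
    simp [PowerSeries.coeff_one]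
  | insert a t ha ih =>
    rw [Finset.prod_insert ha]
    have h1 := ld_factor (deg a) (hdeg a (Finset.mem_insert_self a t)) (χ a)
    have h2 := ih (fun z hz => hdeg z (Finset.mem_insert_of_mem hz))
    have h3 := Pool.Agent.F2TF.p_ld.1 ℤ _ _ _ _ h1 h2
    have h4 : (fun k => ∑ z ∈ insert a t, if deg z ∣ k then (deg z : ℤ) * χ z ^ (k / deg z) else 0) =
        (fun k => if deg a ∣ k then (deg a : ℤ) * χ a ^ (k / deg a) else 0) +
        fun k => ∑ z ∈ t, if deg z ∣ k then (deg z : ℤ) * χ z ^ (k / deg z) else 0 := by
      funext k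
      rw [Finset.sum_insert ha]
      rfl
    rw [h4]
    exact h3

end Pool.Agent.FrNA
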